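import Pool.Agent.HeS.Defs

/-!
MP_7fa120_al, hereditary families. The relative counting. The same as `GcS/CntRl.lean` (proved there; copy it) for a family closed under subgroups.
-/

set_option autoImplicit false

namespace Pool.Agent.HeS

open Equiv Pool.Agent.GcS

private theorem cntP_enum {α : Type} [One α] [DecidableEq α] (S : Finset α) (J : ℕ) (h : S.card ≤ J) :
    ∃ s : Fin J → α, (S : Set α) ⊆ Set.range s ∧ Set.range s ⊆ insert 1 (S : Set α) := by
  classical
  refine ⟨fun i => if h : (i : ℕ) < S.card then ((S.equivFin.symm ⟨i, h⟩ : S) : α) else 1, ?_, ?_⟩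
  · intro x hx
    have hlt := (S.equivFin ⟨x, hx⟩).2
    refine ⟨⟨(S.equivFin ⟨x, hx⟩ : Fin S.card), lt_of_lt_of_le hlt h⟩, ?_⟩
    simp only
    rw [dif_pos hlt]
    simp
  · rintro _ ⟨i, rfl⟩
    simp only
    split_ifs with h
    · exact Set.mem_insert_of_mem _ (S.equivFin.symm ⟨i, h⟩).2
    · exact Set.mem_insert _ _

theorem cnt_p (P : ∀ n : ℕ, Subgroup (Perm (Fin n)) → Prop)
    (hP : ∀ (n : ℕ) (H' H : Subgroup (Perm (Fin n))), H' ≤ H → P n H → P n H') (n g j : ℕ) :
    2 ^ g * Nat.card {H : Subgroup (Perm (Fin n)) // P n H ∧ Rl H g j} ≤ n.factorial ^ j * nP P n := by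
  classical
  set T := {H : Subgroup (Perm (Fin n)) // P n H ∧ Rl H g j} with hT
  let Mt : T → Type := fun H => {L : Subgroup (Perm (Fin n)) // ∃ S : Finset (Perm (Fin n)),
    S.card ≤ j ∧ L ⊔ Subgroup.closure (S : Set (Perm (Fin n))) = H.1}
  have hex : ∀ x : (Σ H : T, Mt H), ∃ s : Fin j → Perm (Fin n),
      x.2.1 ⊔ Subgroup.closure (Set.range s) = x.1.1 := by
    rintro ⟨H, L, S, hS, hL⟩
    obtain ⟨s, hs1, hs2⟩ := cntP_enum S j hS
    refine ⟨s, ?_⟩
    simp only
    rw [← hL]
    congr 1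
    apply le_antisymm
    · rw [Subgroup.closure_le]
      intro x hx
      rcases hs2 hx with h1 | h1
      · rw [h1]
        exact Subgroup.one_mem _
      · exact Subgroup.subset_closure h1
    · exact Subgroup.closure_mono hs1
  choose s hs using hex
  have hle : ∀ x : (Σ H : T, Mt H), x.2.1 ≤ x.1.1 := by
    intro x
    exact le_sup_left.trans (hs x).le
  let φ : (Σ H : T, Mt H) → (Fin j → Perm (Fin n)) × {M : Subgroup (Perm (Fin n)) // P n M} :=
    fun x => (s x, ⟨x.2.1, hP n _ _ (hle x) x.1.2.1⟩)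
  have hinj : Function.Injective φ := by
    intro x y h
    have h1 : s x = s y := congrArg Prod.fst h
    have h2 : (x.2.1 : Subgroup (Perm (Fin n))) = y.2.1 :=
      congrArg (fun t => (t.2 : {M : Subgroup (Perm (Fin n)) // P n M}).1) h
    have hHH : x.1.1 = y.1.1 := by
      rw [← hs x, ← hs y, h1, h2]
    obtain ⟨H, M⟩ := x
    obtain ⟨H', M'⟩ := y
    have hHH' : H = H' := Subtype.ext hHH
    subst hHH'
    have h3 : M = M' := Subtype.ext h2
    rw [h3]
  have hfin : Finite T := inferInstance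
  have : Fintype T := Fintype.ofFinite T
  have hfinM : ∀ H : T, Finite (Mt H) := fun H => inferInstanceAs (Finite {L : Subgroup (Perm (Fin n)) //
    ∃ S : Finset (Perm (Fin n)), S.card ≤ j ∧ L ⊔ Subgroup.closure (S : Set (Perm (Fin n))) = H.1})
  have hcard := Nat.card_le_card_of_injective φ hinj
  have hright : Nat.card ((Fin j → Perm (Fin n)) × {M : Subgroup (Perm (Fin n)) // P n M}) =
      n.factorial ^ j * nP P n := by
    rw [Nat.card_prod, Nat.card_eq_fintype_card, Fintype.card_fun, Fintype.card_fin, Fintype.card_perm,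
      Fintype.card_fin]
    rfl
  rw [hright, Nat.card_sigma] at hcard
  refine le_trans ?_ hcard
  calc 2 ^ g * Nat.card T = ∑ _H : T, 2 ^ g := by
        rw [Finset.sum_const, Finset.card_univ, Nat.card_eq_fintype_card, smul_eq_mul, mul_comm]
    _ ≤ ∑ H : T, Nat.card (Mt H) := Finset.sum_le_sum fun H _ => H.2.2

end Pool.Agent.HeS
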