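import Pool.Agent.HeS.Defs
import Pool.Agent.GcS.AnLG

/-!
MP_7fa120_al, hereditary families. Real analysis: case (L). The same as `GcS/AnLG.lean` (proved or being proved there; copy it) with `ell n + 2 ^ (θ + 1)` instead of `ell n + 2` and
`BT θ n = θ + BB n` instead of `BB n`; `θ` is a constant, so for large `n` `ell n + 2 ^ (θ + 1) ≤ 2 n ^ (1/256)` and `BT θ n ≤ n ^ (1/256) (log_2 n + 2)`.
-/

set_option autoImplicit false

namespace Pool.Agent.HeS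

open Equiv Pool.Agent.NilS Pool.Agent.SvS Pool.Agent.GcS Filter Topology

/-- The sizes in terms of `a = n ^ (1 / 512)`. -/
private theorem anLT_size (c : ℕ) : ∃ n₀ : ℕ, ∀ n : ℕ, n₀ ≤ n → ∃ a : ℝ, 200 ≤ a ∧ (c : ℝ) ≤ a / 100 ∧ Real.log n ≤ a / 100 ∧
    (Nat.log 2 n : ℝ) + 1 ≤ a / 100 ∧ a ^ 512 = n ∧ (n : ℝ) ^ (127 / 128 : ℝ) = a ^ 508 ∧
    (n : ℝ) ^ (249 / 256 : ℝ) = a ^ 498 ∧ (n : ℝ) ^ (3 / 256 : ℝ) = a ^ 6 ∧ (n : ℝ) ^ (12 / 256 : ℝ) = a ^ 24 ∧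
    (n : ℝ) ^ (1 / 256 : ℝ) = a ^ 2 := by
  have h := (isLittleO_log_rpow_atTop (show (0 : ℝ) < 1 / 512 by norm_num)).bound
    (show (0 : ℝ) < Real.log 2 / 200 by positivity)
  have h' := tendsto_natCast_atTop_atTop (R := ℝ) |>.eventually h
  have h2 : ∀ᶠ m : ℕ in atTop, (max 200 (100 * c) : ℝ) ≤ (m : ℝ) ^ (1 / 512 : ℝ) :=
    ((tendsto_rpow_atTop (show (0 : ℝ) < 1 / 512 by norm_num)).comp
      (tendsto_natCast_atTop_atTop (R := ℝ))).eventually_ge_atTop _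
  obtain ⟨m₀, hm₀⟩ := eventually_atTop.1 (h'.and h2)
  refine ⟨max m₀ 1, fun n hn => ?_⟩
  obtain ⟨h3, h4'⟩ := hm₀ n ((le_max_left _ _).trans hn)
  have h4 : (200 : ℝ) ≤ (n : ℝ) ^ (1 / 512 : ℝ) := (le_max_left _ _).trans h4'
  have h4c : (100 * c : ℝ) ≤ (n : ℝ) ^ (1 / 512 : ℝ) := (le_max_right _ _).trans h4'
  have hn1 : 1 ≤ n := (le_max_right _ _).trans hn
  have hnR : (1 : ℝ) ≤ n := by exact_mod_cast hn1
  have hn0 : (0 : ℝ) < n := by linarith
  have h5 : Real.log n ≤ Real.log 2 / 200 * (n : ℝ) ^ (1 / 512 : ℝ) := by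
    have := h3
    rw [Real.norm_of_nonneg (Real.log_nonneg hnR), Real.norm_of_nonneg (by positivity)] at this
    exact this
  have hl2 : (0 : ℝ) < Real.log 2 := Real.log_pos (by norm_num)
  have hl3 : Real.log 2 ≤ 1 := by
    have := Real.log_two_lt_d9
    linarith
  have h6 : (Nat.log 2 n : ℝ) ≤ (n : ℝ) ^ (1 / 512 : ℝ) / 200 := by
    have h7 : ((2 : ℝ) ^ (Nat.log 2 n)) ≤ n := by exact_mod_cast Nat.pow_log_le_self 2 (by omega)
    have h8 : (Nat.log 2 n : ℝ) * Real.log 2 ≤ Real.log n := by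
      rw [← Real.log_pow]
      exact Real.log_le_log (by positivity) h7
    have h9 : (Nat.log 2 n : ℝ) * Real.log 2 ≤ (n : ℝ) ^ (1 / 512 : ℝ) / 200 * Real.log 2 := by
      refine h8.trans (h5.trans (le_of_eq ?_))
      ring
    exact le_of_mul_le_mul_right h9 hl2
  refine ⟨(n : ℝ) ^ (1 / 512 : ℝ), h4, by linarith, ?_, by linarith, ?_, ?_, ?_, ?_, ?_, ?_⟩
  · refine h5.trans ?_
    have : Real.log 2 / 200 ≤ 1 / 200 := by linarith
    nlinarith
  all_goals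
    rw [← Real.rpow_natCast, ← Real.rpow_mul hn0.le]
    norm_num

/-- The additional generators. -/
private theorem anLT_EE (θ : ℕ) {n : ℕ} {a : ℝ} (ha : 200 ≤ a) (hθ : (θ : ℝ) ≤ a / 100)
    (hl : (Nat.log 2 n : ℝ) + 1 ≤ a / 100) (hN : a ^ 512 = n) (h12 : (n : ℝ) ^ (12 / 256 : ℝ) = a ^ 24)
    (h1 : (n : ℝ) ^ (1 / 256 : ℝ) = a ^ 2) : (EE (lf n) (La n) (BT θ n) : ℝ) ≤ a ^ 498 := by
  have ha1 : (1 : ℝ) ≤ a := by linarith
  have ha0 : (0 : ℝ) < a := by linarith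
  set l := Nat.log 2 n with hldef
  have hn2 : n ≤ 2 ^ (l + 1) := (Nat.lt_pow_succ_log_self (by norm_num) n).le
  -- `lf n`
  have hfac : ∀ m : ℕ, m ≤ n → Nat.log 2 m.factorial ≤ m * (l + 1) := by
    intro m hm
    have i1 : m.factorial ≤ 2 ^ (m * (l + 1)) := by
      calc m.factorial ≤ m ^ m := Nat.factorial_le_pow m
        _ ≤ (2 ^ (l + 1)) ^ m := Nat.pow_le_pow_left (hm.trans hn2) m
        _ = 2 ^ (m * (l + 1)) := by rw [← pow_mul, mul_comm]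
    calc Nat.log 2 m.factorial ≤ Nat.log 2 (2 ^ (m * (l + 1))) := Nat.log_mono_right i1
      _ = m * (l + 1) := Nat.log_pow (by norm_num) _
  have hlf : lf n ≤ n * (l + 1) := hfac n le_rfl
  have hlfR : (lf n : ℝ) ≤ a ^ 512 * (a / 100) := by
    calc (lf n : ℝ) ≤ (n : ℝ) * ((l : ℝ) + 1) := by exact_mod_cast hlf
      _ ≤ a ^ 512 * (a / 100) := by
        rw [← hN]
        exact mul_le_mul_of_nonneg_left hl (by positivity)
  -- `log_2 (lf n)`
  have hlog : Nat.log 2 (lf n) ≤ 2 * (l + 1) := by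
    have i1 : l + 1 ≤ 2 ^ (l + 1) := Nat.lt_two_pow_self.le
    have i2 : lf n ≤ 2 ^ (2 * (l + 1)) := by
      calc lf n ≤ n * (l + 1) := hlf
        _ ≤ 2 ^ (l + 1) * 2 ^ (l + 1) := Nat.mul_le_mul hn2 i1
        _ = 2 ^ (2 * (l + 1)) := by rw [← pow_add]; congr 1; ring
    calc Nat.log 2 (lf n) ≤ Nat.log 2 (2 ^ (2 * (l + 1))) := Nat.log_mono_right i2
      _ = 2 * (l + 1) := Nat.log_pow (by norm_num) _
  -- `ell n`
  have hell : (ell n : ℝ) ≤ a ^ 2 := by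
    unfold ell
    rw [h1]
    exact Nat.floor_le (by positivity)
  have helln : ell n ≤ n := by
    have : (ell n : ℝ) ≤ n := by
      refine hell.trans ?_
      rw [← hN]
      exact pow_le_pow_right₀ ha1 (by norm_num)
    exact_mod_cast this
  have hBT : (BT θ n : ℝ) ≤ a / 100 + a ^ 2 * (a / 100) + 1 := by
    have i1 : BT θ n ≤ θ + (ell n * (l + 1) + 1) := by
      unfold BT
      have := hfac (ell n) helln
      omega
    have i2 : (BT θ n : ℝ) ≤ θ + ((ell n : ℝ) * ((l : ℝ) + 1) + 1) := by exact_mod_cast i1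
    have i3 : (ell n : ℝ) * ((l : ℝ) + 1) ≤ a ^ 2 * (a / 100) := mul_le_mul hell hl (by positivity) (by positivity)
    linarith
  -- `La n`
  have hp24 : (200 : ℝ) ≤ a ^ 24 := by
    calc (200 : ℝ) ≤ a ^ 1 := by rw [pow_one]; exact ha
      _ ≤ a ^ 24 := pow_le_pow_right₀ ha1 (by norm_num)
  have hLa : a ^ 24 ≤ 2 * (La n : ℝ) := by
    have : a ^ 24 < (La n : ℝ) + 1 := by
      unfold La
      rw [h12]
      exact Nat.lt_floor_add_one _
    linarith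
  have hLa0 : (0 : ℝ) < La n := by linarith
  have hdiv : ((lf n / La n : ℕ) : ℝ) ≤ a ^ 489 / 50 := by
    refine (Nat.cast_div_le).trans ?_
    rw [div_le_iff₀ hLa0]
    refine hlfR.trans ?_
    have i1 : a ^ 489 / 100 * a ^ 24 ≤ a ^ 489 / 100 * (2 * (La n : ℝ)) := mul_le_mul_of_nonneg_left hLa (by positivity)
    have i2 : a ^ 489 / 100 * a ^ 24 = a ^ 512 * (a / 100) := by ring
    rw [i2] at i1
    linarith
  have hsum : ((BT θ n + Nat.log 2 (lf n) + 2 : ℕ) : ℝ) ≤ a ^ 3 := by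
    have i1 : ((BT θ n + Nat.log 2 (lf n) + 2 : ℕ) : ℝ) ≤ (BT θ n : ℝ) + 2 * ((l : ℝ) + 1) + 2 := by
      have : BT θ n + Nat.log 2 (lf n) + 2 ≤ BT θ n + 2 * (l + 1) + 2 := by omega
      exact_mod_cast this
    have i2 : a ^ 3 = a * a ^ 2 := by ring
    have i3 : (200 : ℝ) * a ≤ a ^ 2 := by nlinarith
    have i4 : a ^ 2 * (a / 100) = a ^ 3 / 100 := by ring
    have i5 : (200 : ℝ) * (200 * a) ≤ a ^ 3 := by
      rw [i2]
      exact mul_le_mul ha i3 (by positivity) (by positivity)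
    linarith
  calc (EE (lf n) (La n) (BT θ n) : ℝ) = ((lf n / La n : ℕ) : ℝ) * ((BT θ n + Nat.log 2 (lf n) + 2 : ℕ) : ℝ) := by
        unfold EE
        push_cast
        ring
    _ ≤ (a ^ 489 / 50) * a ^ 3 := mul_le_mul hdiv hsum (by positivity) (by positivity)
    _ = a ^ 492 / 50 := by ring
    _ ≤ a ^ 492 := div_le_self (by positivity) (by norm_num)
    _ ≤ a ^ 498 := pow_le_pow_right₀ ha1 (by norm_num)

/-- The estimate of the exponent. -/
private theorem anLT_real (a l s k L ℓ k₁ k₂ s₂ z N : ℝ) (ha : 200 ≤ a) (hl : l + 1 ≤ a / 100) (hl0 : 0 ≤ l)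
    (hN : N = a ^ 512) (hk : k ≤ 2 * a ^ 498) (hk0 : 0 ≤ k) (hL : L ≤ a ^ 6) (hL0 : a ^ 6 ≤ 2 * L)
    (hℓ : ℓ ≤ 2 * a ^ 2) (hℓ0 : 0 ≤ ℓ)
    (hk1 : 0 ≤ k₁) (hk2 : 0 ≤ k₂) (hs2 : 0 ≤ s₂) (hz : k₁ + s₂ ≤ 2 * z) (hz2 : 2 ≤ z)
    (h1 : s ≤ ℓ * (L * k₁ + s₂)) (h2 : L * k₂ ≤ s₂) :
    (s + s * k + s * l + (k₁ + (l + 1) * k₂ * (2 * N)) + 9) * (a / 100) ≤ z * a ^ 508 / 96 := by
  have ha1 : (1 : ℝ) ≤ a := by linarith
  have ha0 : (0 : ℝ) < a := by linarith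
  have hp6 : (1 : ℝ) ≤ a ^ 6 := one_le_pow₀ ha1
  have hp498 : a ≤ a ^ 498 := by
    calc a = a ^ 1 := (pow_one a).symm
      _ ≤ a ^ 498 := pow_le_pow_right₀ ha1 (by norm_num)
  have hp506 : a ≤ a ^ 506 := by
    calc a = a ^ 1 := (pow_one a).symm
      _ ≤ a ^ 506 := pow_le_pow_right₀ ha1 (by norm_num)
  set w := k₁ + s₂ with hw
  have hw0 : 0 ≤ w := by positivity
  -- the part with `s`
  have e1 : L * k₁ + s₂ ≤ a ^ 6 * w := by
    have i1 : L * k₁ ≤ a ^ 6 * k₁ := mul_le_mul_of_nonneg_right hL hk1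
    have i2 : 1 * s₂ ≤ a ^ 6 * s₂ := mul_le_mul_of_nonneg_right hp6 hs2
    rw [hw]
    nlinarith
  have e2 : s ≤ 2 * a ^ 8 * w := by
    calc s ≤ ℓ * (L * k₁ + s₂) := h1
      _ ≤ ℓ * (a ^ 6 * w) := mul_le_mul_of_nonneg_left e1 hℓ0
      _ ≤ (2 * a ^ 2) * (a ^ 6 * w) := mul_le_mul_of_nonneg_right hℓ (by positivity)
      _ = 2 * a ^ 8 * w := by ring
  have e3 : 1 + k + l ≤ 3 * a ^ 498 := by linarith
  have e4 : s * (1 + k + l) ≤ 6 * a ^ 506 * w := by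
    calc s * (1 + k + l) ≤ (2 * a ^ 8 * w) * (3 * a ^ 498) :=
          mul_le_mul e2 e3 (by positivity) (by positivity)
      _ = 6 * a ^ 506 * w := by ring
  -- the part with `k₂`
  have e5 : a ^ 6 * k₂ ≤ 2 * s₂ := by
    have : a ^ 6 * k₂ ≤ 2 * L * k₂ := mul_le_mul_of_nonneg_right hL0 hk2
    linarith
  have e6 : (l + 1) * k₂ * (2 * N) ≤ (a / 100) * (4 * a ^ 506 * w) := by
    have i1 : k₂ * (2 * N) ≤ 4 * a ^ 506 * w := by
      rw [hN]
      calc k₂ * (2 * a ^ 512) = 2 * a ^ 506 * (a ^ 6 * k₂) := by ring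
        _ ≤ 2 * a ^ 506 * (2 * s₂) := mul_le_mul_of_nonneg_left e5 (by positivity)
        _ = 4 * a ^ 506 * s₂ := by ring
        _ ≤ 4 * a ^ 506 * w := mul_le_mul_of_nonneg_left (by linarith) (by positivity)
    calc (l + 1) * k₂ * (2 * N) = (l + 1) * (k₂ * (2 * N)) := by ring
      _ ≤ (a / 100) * (4 * a ^ 506 * w) := by
        refine mul_le_mul hl i1 ?_ (by positivity)
        rw [hN]
        positivity
  have e7 : k₁ + 9 ≤ a ^ 506 * (w + 9) := by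
    have i1 : (1 : ℝ) ≤ a ^ 506 := by linarith
    have i2 : 1 * (w + 9) ≤ a ^ 506 * (w + 9) := mul_le_mul_of_nonneg_right i1 (by positivity)
    linarith
  have e8 : s + s * k + s * l + (k₁ + (l + 1) * k₂ * (2 * N)) + 9 ≤
      6 * a ^ 506 * w + (a / 100) * (4 * a ^ 506 * w) + a ^ 506 * (w + 9) := by
    have : s + s * k + s * l = s * (1 + k + l) := by ring
    linarith
  -- `w ≤ 2 z`, `9 ≤ 5 z`
  have e9 : 6 * a ^ 506 * w + (a / 100) * (4 * a ^ 506 * w) + a ^ 506 * (w + 9) ≤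
      (19 + 8 * (a / 100)) * (a ^ 506 * z) := by
    have hA : 0 ≤ a ^ 506 := by positivity
    have i1 : a ^ 506 * w ≤ a ^ 506 * (2 * z) := mul_le_mul_of_nonneg_left hz hA
    have i2 : a ^ 506 * 9 ≤ a ^ 506 * (5 * z) := mul_le_mul_of_nonneg_left (by linarith) hA
    have i3 : (a / 100) * (4 * (a ^ 506 * w)) ≤ (a / 100) * (4 * (a ^ 506 * (2 * z))) :=
      mul_le_mul_of_nonneg_left (by linarith) (by positivity)
    nlinarith
  have e10 : (19 + 8 * (a / 100)) * (a / 100) ≤ a ^ 2 / 96 := by nlinarith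
  have hzA : 0 ≤ a ^ 506 * z := by positivity
  calc (s + s * k + s * l + (k₁ + (l + 1) * k₂ * (2 * N)) + 9) * (a / 100)
      ≤ ((19 + 8 * (a / 100)) * (a ^ 506 * z)) * (a / 100) :=
        mul_le_mul_of_nonneg_right (e8.trans e9) (by positivity)
    _ = ((19 + 8 * (a / 100)) * (a / 100)) * (a ^ 506 * z) := by ring
    _ ≤ (a ^ 2 / 96) * (a ^ 506 * z) := mul_le_mul_of_nonneg_right e10 hzA
    _ = z * a ^ 508 / 96 := by ring

/-- Every term is small. -/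
private theorem anLT_term (c θ : ℕ) : ∃ n₀ : ℕ, ∀ n : ℕ, n₀ ≤ n → ∀ s k₁ k₂ s₂ : ℕ, sg n < s →
    s ≤ (ell n + c) * (LG n * k₁ + s₂) → LG n * k₂ ≤ s₂ → k₁ + s₂ ≤ n →
    n ^ s * n ^ (s * (kB n + EE (lf n) (La n) (BT θ n))) * n ^ (s * Nat.log 2 n) *
      (n ^ k₁ * n ^ ((Nat.log 2 n + 1) * k₂ * (2 * n)) * nTwo (n - s₂ + k₂ - k₁)) * n ^ 9 ≤ nTwo n := by
  obtain ⟨n₁, hn₁⟩ := anLT_size (max c θ)
  obtain ⟨n₂, hn₂⟩ := grow_all
  refine ⟨max n₁ (max n₂ 2), fun n hn s k₁ k₂ s₂ hs h1 h2 h3 => ?_⟩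
  obtain ⟨a, ha, hc, hlog, hl, hN, h127, h249, h3', h12, h1'⟩ := hn₁ n ((le_max_left _ _).trans hn)
  have hn2 : n₂ ≤ n := (le_max_left _ _).trans ((le_max_right _ _).trans hn)
  have hn1 : 1 ≤ n := le_trans (by norm_num) ((le_max_right _ _).trans ((le_max_right _ _).trans hn))
  have hnR : (1 : ℝ) ≤ n := by exact_mod_cast hn1
  have hn0 : (0 : ℝ) < n := by linarith
  have ha1 : (1 : ℝ) ≤ a := by linarith
  have hcc : (c : ℝ) ≤ a / 100 := le_trans (by exact_mod_cast le_max_left c θ) hc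
  have hcθ : (θ : ℝ) ≤ a / 100 := le_trans (by exact_mod_cast le_max_right c θ) hc
  have hEE := anLT_EE θ ha hcθ hl hN h12 h1'
  -- the size of `ell`
  have hell : ((ell n + c : ℕ) : ℝ) ≤ 2 * a ^ 2 := by
    have i1 : (ell n : ℝ) ≤ a ^ 2 := by
      unfold ell
      rw [h1']
      exact Nat.floor_le (by positivity)
    push_cast
    nlinarith
  -- the size of `L`
  have hL : (LG n : ℝ) ≤ a ^ 6 := by
    unfold LG
    rw [h3']
    exact Nat.floor_le (by positivity)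
  have hp6 : (200 : ℝ) ≤ a ^ 6 := by
    calc (200 : ℝ) ≤ a ^ 1 := by rw [pow_one]; exact ha
      _ ≤ a ^ 6 := pow_le_pow_right₀ ha1 (by norm_num)
  have hL0 : a ^ 6 ≤ 2 * (LG n : ℝ) := by
    have : a ^ 6 < (LG n : ℝ) + 1 := by
      unfold LG
      rw [h3']
      exact Nat.lt_floor_add_one _
    linarith
  have hL2 : 2 ≤ LG n := by
    have : (2 : ℝ) ≤ LG n := by linarith
    exact_mod_cast this
  have hkb : (kB n : ℝ) ≤ a ^ 498 := by
    unfold kB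
    rw [h249]
    exact Nat.floor_le (by positivity)
  have hK : ((kB n + EE (lf n) (La n) (BT θ n) : ℕ) : ℝ) ≤ 2 * a ^ 498 := by
    push_cast
    linarith
  -- `sg n` is at least `2 (ell n + c) L`
  have hsg : 2 * ((ell n + c) * LG n) ≤ sg n := by
    unfold sg
    rw [Nat.le_sqrt, Nat.le_sqrt]
    set y := (ell n + c) * LG n with hy
    have hy1 : (y : ℝ) ≤ 2 * a ^ 8 := by
      calc (y : ℝ) = ((ell n + c : ℕ) : ℝ) * (LG n : ℝ) := by rw [hy]; push_cast; ring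
        _ ≤ (2 * a ^ 2) * a ^ 6 := mul_le_mul hell hL (by positivity) (by positivity)
        _ = 2 * a ^ 8 := by ring
    have : ((2 * y * (2 * y) * (2 * y * (2 * y)) : ℕ) : ℝ) ≤ (n : ℝ) := by
      push_cast
      have i1 : (y : ℝ) ^ 4 ≤ (2 * a ^ 8) ^ 4 := pow_le_pow_left₀ (by positivity) hy1 4
      have i2 : (256 : ℝ) ≤ a ^ 480 := by
        calc (256 : ℝ) ≤ (200 : ℝ) ^ 2 := by norm_num
          _ ≤ a ^ 2 := pow_le_pow_left₀ (by norm_num) ha 2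
          _ ≤ a ^ 480 := pow_le_pow_right₀ ha1 (by norm_num)
      calc (2 * (y : ℝ) * (2 * y) * (2 * y * (2 * y))) = 16 * (y : ℝ) ^ 4 := by ring
        _ ≤ 16 * (2 * a ^ 8) ^ 4 := mul_le_mul_of_nonneg_left i1 (by norm_num)
        _ = 256 * a ^ 32 := by ring
        _ ≤ a ^ 480 * a ^ 32 := mul_le_mul_of_nonneg_right i2 (by positivity)
        _ = a ^ 512 := by ring
        _ = n := hN
    exact_mod_cast this
  -- `z`
  have hk2s : 2 * k₂ ≤ s₂ := (Nat.mul_le_mul_right k₂ hL2).trans h2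
  obtain ⟨z, hz⟩ : ∃ z, z = s₂ - k₂ + k₁ := ⟨_, rfl⟩
  have hzw : k₁ + s₂ ≤ 2 * z := by omega
  have hzn : z ≤ n := by omega
  have hw3 : 3 ≤ k₁ + s₂ := by
    by_contra hcon
    have i1 : k₁ + s₂ ≤ 2 := by omega
    have i2 : LG n * k₁ + s₂ ≤ LG n * (k₁ + s₂) := by
      have : 1 * s₂ ≤ LG n * s₂ := Nat.mul_le_mul_right _ (by omega)
      rw [Nat.mul_add]
      omega
    have i3 : (ell n + c) * (LG n * k₁ + s₂) ≤ (ell n + c) * (LG n * 2) :=
      Nat.mul_le_mul_left _ (i2.trans (Nat.mul_le_mul_left _ i1))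
    have i4 : (ell n + c) * (LG n * 2) = 2 * ((ell n + c) * LG n) := by ring
    omega
  have hz2 : 2 ≤ z := by omega
  have hsub : n - s₂ + k₂ - k₁ = n - z := by omega
  have hgrow := hn₂ n hn2 z hz2 hzn
  rw [h127] at hgrow
  -- the exponent
  set K := kB n + EE (lf n) (La n) (BT θ n) with hKdef
  set E := s + s * K + s * Nat.log 2 n + (k₁ + (Nat.log 2 n + 1) * k₂ * (2 * n)) + 9 with hE
  have hEr : (E : ℝ) * (a / 100) ≤ z * a ^ 508 / 96 := by
    have := anLT_real a (Nat.log 2 n) s K (LG n) ((ell n + c : ℕ) : ℝ) k₁ k₂ s₂ z n ha hl (by positivity) hN.symm hK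
      (by positivity) hL hL0 hell (by positivity) (by positivity) (by positivity) (by positivity)
      (by exact_mod_cast hzw) (by exact_mod_cast hz2) (by exact_mod_cast h1) (by exact_mod_cast h2)
    rw [hE]
    push_cast
    exact this
  have hpow : (n : ℝ) ^ E ≤ Real.exp (z * a ^ 508 / 96) := by
    have i1 : (n : ℝ) ^ E = Real.exp (E * Real.log n) := by
      rw [Real.exp_nat_mul, Real.exp_log hn0]
    rw [i1]
    refine Real.exp_le_exp.2 ?_
    exact (mul_le_mul_of_nonneg_left hlog (by positivity)).trans hEr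
  have hmain : (nTwo (n - z) : ℝ) * (n : ℝ) ^ E ≤ nTwo n :=
    (mul_le_mul_of_nonneg_left hpow (by positivity)).trans hgrow
  have hnat : nTwo (n - z) * n ^ E ≤ nTwo n := by exact_mod_cast hmain
  rw [hsub]
  refine le_trans (le_of_eq ?_) hnat
  rw [hE, pow_add, pow_add, pow_add, pow_add, pow_add]
  ring

private theorem anLT_gen (c θ : ℕ) : Tendsto (fun n : ℕ => ((∑ s ∈ Finset.Ioc (sg n) n,
    n ^ s * n ^ (s * (kB n + EE (lf n) (La n) (BT θ n))) * n ^ (s * Nat.log 2 n) *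
      LBG n (LG n) (ell n + c) s : ℕ) : ℝ) / nTwo n) atTop (𝓝 0) := by
  obtain ⟨n₀, hn₀⟩ := anLT_term c θ
  have hup : Tendsto (fun n : ℕ => (1 : ℝ) / (n : ℝ)) atTop (𝓝 0) :=
    tendsto_one_div_atTop_nhds_zero_nat
  refine tendsto_of_tendsto_of_tendsto_of_le_of_le' tendsto_const_nhds hup
    (Filter.Eventually.of_forall fun n => by positivity) ?_
  filter_upwards [eventually_ge_atTop (max n₀ 2)] with n hn
  have hn1 : n₀ ≤ n := (le_max_left _ _).trans hn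
  have hn2 : 2 ≤ n := (le_max_right _ _).trans hn
  -- the bound for the sum
  have hbound : (∑ s ∈ Finset.Ioc (sg n) n,
      n ^ s * n ^ (s * (kB n + EE (lf n) (La n) (BT θ n))) * n ^ (s * Nat.log 2 n) *
      LBG n (LG n) (ell n + c) s) * n ^ 9 ≤ n ^ 8 * nTwo n := by
    have h1 : ∀ s ∈ Finset.Ioc (sg n) n,
        n ^ s * n ^ (s * (kB n + EE (lf n) (La n) (BT θ n))) * n ^ (s * Nat.log 2 n) *
        LBG n (LG n) (ell n + c) s * n ^ 9 ≤ (n + 1) ^ 3 * nTwo n := by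
      intro s hs
      obtain ⟨hs1, hs2⟩ := Finset.mem_Ioc.1 hs
      unfold LBG
      rw [Finset.mul_sum, Finset.sum_mul]
      refine (Finset.sum_le_card_nsmul _ _ (nTwo n) ?_).trans ?_
      · intro t ht
        obtain ⟨-, h2, h3, h4⟩ := Finset.mem_filter.1 ht
        exact hn₀ n hn1 s t.1 t.2.1 t.2.2 hs1 h2 h3 h4
      · rw [smul_eq_mul]
        refine Nat.mul_le_mul_right _ ?_
        refine (Finset.card_filter_le _ _).trans ?_
        rw [Finset.card_product, Finset.card_product, Finset.card_range]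
        exact le_of_eq (by ring)
    rw [Finset.sum_mul]
    refine (Finset.sum_le_card_nsmul _ _ _ h1).trans ?_
    rw [smul_eq_mul, ← mul_assoc]
    refine Nat.mul_le_mul_right _ ?_
    have h2 : (Finset.Ioc (sg n) n).card ≤ n := by
      rw [Nat.card_Ioc]
      omega
    have h3 : n + 1 ≤ n ^ 2 := by nlinarith
    calc (Finset.Ioc (sg n) n).card * (n + 1) ^ 3 ≤ n * (n ^ 2) ^ 3 :=
          Nat.mul_le_mul h2 (Nat.pow_le_pow_left h3 3)
      _ = n ^ 7 := by ring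
      _ ≤ n ^ 8 := Nat.pow_le_pow_right (by omega) (by norm_num)
  set S := ∑ s ∈ Finset.Ioc (sg n) n,
      n ^ s * n ^ (s * (kB n + EE (lf n) (La n) (BT θ n))) * n ^ (s * Nat.log 2 n) *
      LBG n (LG n) (ell n + c) s with hS
  have hS1 : S * n ≤ nTwo n := by
    have h1 : n ^ 8 * (S * n) ≤ n ^ 8 * nTwo n := by
      calc n ^ 8 * (S * n) = S * n ^ 9 := by ring
        _ ≤ n ^ 8 * nTwo n := hbound
    exact Nat.le_of_mul_le_mul_left h1 (by positivity)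
  have hT : (0 : ℝ) ≤ nTwo n := by positivity
  have hnR : (0 : ℝ) < n := by exact_mod_cast (by omega : 0 < n)
  have hS2 : (S : ℝ) * n ≤ nTwo n := by exact_mod_cast hS1
  refine div_le_of_le_mul₀ hT (by positivity) ?_
  rw [div_mul_eq_mul_div, one_mul, le_div_iff₀ hnR]
  exact hS2

theorem an_LT (θ : ℕ) : Tendsto (fun n : ℕ => ((∑ s ∈ Finset.Ioc (sg n) n,
    n ^ s * n ^ (s * (kB n + EE (lf n) (La n) (BT θ n))) * n ^ (s * Nat.log 2 n) *
      LBG n (LG n) (ell n + 2 ^ (θ + 1)) s : ℕ) : ℝ) / nTwo n) atTop (𝓝 0) :=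
  anLT_gen (2 ^ (θ + 1)) θ

end Pool.Agent.HeS
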