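import Pool.Agent.HeS.CopRat
import Pool.Agent.GcS.SbB

/-!
MP_7fa120_al, hereditary families. Sylow subgroups of groups with bounded non-abelian simple sections move many points.

Proof (helper14; shorter than the first plan, no direct products are needed). Let `G` act transitively on `X`, let `C` be a Sylow `p`-subgroup acting nontrivially, `K = 2 ^ (θ + 1)`,
`F` the set of the fixed points of `C`. We show `K |F| ≤ (K - 1) |X|` by induction on the order of the image of `G` in the permutations of `X`, so we may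
assume that the action is faithful (`brt_img`), and that `C` fixes a point.
(1) `G` simple (`brt_simple`): if `G` is abelian, `C` fixes all points; otherwise `|X| ≤ |G| ≤ 2 ^ θ` by `Sb`, and `|F| ≤ |X| - 1`.
(2) Let `A` be a normal subgroup of `G`, not `1` and not `G`, `Σ` the set of its orbits. If `C` acts nontrivially on `Σ`, induction for `G` acting on `Σ`; all blocks have the same size.
(3) Let `C` act trivially on `Σ`. As in `GcS/SolRat.lean`, `C` acts nontrivially on every block. If `A C ≠ G`, induction for `A C` acting on each block.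
(4) Let `A C = G`. Then `A` is transitive. If `p` divides `|A|`, a Sylow `p`-subgroup `P` of `A` is contained in a conjugate of `C`, so `|F|` is at most the number of
the fixed points of `P`: induction for `A` (`brt_norm`). If `p` does not divide `|A|`, `cop_dvd` and `nu_fix`: `|X| = d |F|` with `d ≥ 2` (`brt_comp`).
`nu_bd`: the action of `G` on `G / L` and `nu_fix`.
-/

set_option autoImplicit false

namespace Pool.Agent.HeS

open Pool.Agent.SvS Pool.Agent.GcS MulAction
open scoped Pointwise

/-- `Sb` is inherited by quotients. -/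
private theorem brt_surj {G G' : Type} [Group G] [Group G'] (f : G →* G') (hf : Function.Surjective f)
    {B : ℕ} (hB : Sb B G) : Sb B G' := by
  intro A N hN hT hmax
  have hg : Function.Surjective (f.subgroupComap A) := f.subgroupComap_surjective_of_surjective A hf
  have h1 := hB (A.comap f) (N.comap (f.subgroupComap A)) (hN.comap _) (fun h => hT ?_)
    (fun K hK hNK => ?_)
  · rcases h1 with h1 | h1
    · left
      intro a b
      obtain ⟨a', rfl⟩ := hg a
      obtain ⟨b', rfl⟩ := hg b
      have h2 := h1 a' b'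
      rw [Subgroup.mem_comap, map_mul, map_mul, map_mul, map_inv, map_inv] at h2
      exact h2
    · right
      rwa [Subgroup.index_comap_of_surjective _ hg] at h1
  · rw [eq_top_iff]
    intro x _
    obtain ⟨y, rfl⟩ := hg x
    have h2 : y ∈ N.comap (f.subgroupComap A) := by rw [h]; exact Subgroup.mem_top _
    exact h2
  · have hker : (f.subgroupComap A).ker ≤ K := by
      refine le_trans ?_ hNK
      intro y hy
      rw [Subgroup.mem_comap, (MonoidHom.mem_ker).1 hy]
      exact N.one_mem
    have hKc : (K.map (f.subgroupComap A)).comap (f.subgroupComap A) = K :=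
      Subgroup.comap_map_eq_self hker
    have h2 : N ≤ K.map (f.subgroupComap A) := by
      intro x hx
      obtain ⟨y, rfl⟩ := hg x
      exact Subgroup.mem_map_of_mem _ (hNK hx)
    rcases hmax (K.map (f.subgroupComap A)) (hK.map _ hg) h2 with h3 | h3
    · left
      rw [← hKc, h3]
    · right
      rw [← hKc, h3, Subgroup.comap_top]

private theorem brt_range {G G' : Type} [Group G] [Group G'] (f : G →* G') {B : ℕ} (hB : Sb B G) :
    Sb B f.range :=
  brt_surj f.rangeRestrict f.rangeRestrict_surjective hB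

private theorem brt_sub {G : Type} [Group G] (H : Subgroup G) {B : ℕ} (hB : Sb B G) : Sb B H :=
  sb_le (le_top : H ≤ ⊤) (sb_iso Subgroup.topEquiv.symm hB)

private theorem brt_card {G G' : Type} [Group G] [Finite G] [Group G'] (f : G →* G') {a : G} (ha : a ≠ 1)
    (hfa : f a = 1) : Nat.card f.range < Nat.card G := by
  classical
  have : Fintype G := Fintype.ofFinite G
  have : Finite f.range := Finite.of_surjective _ f.rangeRestrict_surjective
  have : Fintype f.range := Fintype.ofFinite _
  rw [Nat.card_eq_fintype_card, Nat.card_eq_fintype_card]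
  refine Fintype.card_lt_of_surjective_not_injective f.rangeRestrict f.rangeRestrict_surjective
    fun hinj => ha (hinj ?_)
  rw [map_one]
  exact Subtype.ext hfa

/-- The action on the orbits of a normal subgroup. -/
@[reducible] private def brtAct {G : Type} [Group G] {X : Type} [MulAction G X] (A : Subgroup G) (hA : A.Normal) :
    MulAction G (orbitRel.Quotient A X) where
  smul g := Quotient.map' (fun x => g • x) (by
    rintro x y ⟨a, ha⟩
    refine ⟨⟨g * a * g⁻¹, hA.conj_mem a a.2 g⟩, ?_⟩
    rw [← ha]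
    show (g * (a : G) * g⁻¹) • g • y = g • (a : G) • y
    rw [smul_smul, smul_smul, inv_mul_cancel_right])
  one_smul := by
    rintro ⟨x⟩
    exact congrArg (Quotient.mk _) (one_smul G x)
  mul_smul := by
    rintro g h ⟨x⟩
    exact congrArg (Quotient.mk _) (mul_smul g h x)

/-- Conjugates of a Sylow subgroup of a normal subgroup. -/
private theorem brt_conj {G : Type} [Group G] [Finite G] {p : ℕ} [Fact p.Prime] (C : Sylow p G) {K : Subgroup G} (hK : K.Normal)
    (hCK : (C : Subgroup G) ≤ K) (g : G) : ∃ k ∈ K, ∀ c ∈ C, k⁻¹ * (g⁻¹ * c * g) * k ∈ C := by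
  have h1 : IsPGroup p (((C : Subgroup G).map (MulAut.conj g⁻¹).toMonoidHom).comap K.subtype) :=
    (C.isPGroup'.map _).comap_subtype
  obtain ⟨Q, hQ⟩ := h1.exists_le_sylow
  obtain ⟨k, hk⟩ := exists_smul_eq K (C.subtype hCK) Q
  refine ⟨k, k.2, fun c hc => ?_⟩
  have h2 : g⁻¹ * c * g ∈ K := by
    have := hK.conj_mem c (hCK hc) g⁻¹
    rwa [inv_inv] at this
  have h3 : (⟨g⁻¹ * c * g, h2⟩ : K) ∈ Q := by
    refine hQ ?_
    rw [Subgroup.mem_comap]
    refine ⟨c, hc, ?_⟩
    simp
  rw [← hk] at h3
  have h4 : (⟨g⁻¹ * c * g, h2⟩ : K) ∈ MulAut.conj k • ((C.subtype hCK : Sylow p K) : Subgroup K) := h3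
  rw [Subgroup.mem_pointwise_smul_iff_inv_smul_mem] at h4
  have h5 : (MulAut.conj k)⁻¹ • (⟨g⁻¹ * c * g, h2⟩ : K) = k⁻¹ * (⟨g⁻¹ * c * g, h2⟩ : K) * k := by
    rw [← map_inv, MulAut.smul_def, MulAut.conj_apply, inv_inv]
  rw [h5, Sylow.coe_subtype, Subgroup.mem_subgroupOf] at h4
  exact h4

/-- The bound for the faithful transitive actions of groups of order less than `N`. -/
private def BrtIH (θ p N : ℕ) : Prop :=
  ∀ (G : Type) [Group G] [Finite G] (X : Type) [Finite X] [MulAction G X] [FaithfulSMul G X],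
    Nat.card G < N → MulAction.IsPretransitive G X → Sb θ G → ∀ C : Sylow p G,
    (∃ c ∈ C, ∃ x : X, c • x ≠ x) →
    2 ^ (θ + 1) * Nat.card {x : X // ∀ c ∈ C, c • x = x} ≤ (2 ^ (θ + 1) - 1) * Nat.card X

/-- Actions which are not faithful. -/
private theorem brt_img {θ p N : ℕ} [Fact p.Prime] (ih : BrtIH θ p N) (G : Type) [Group G] [Finite G] (X : Type) [Finite X]
    [MulAction G X] (ht : MulAction.IsPretransitive G X) (hs : Sb θ (MulAction.toPermHom G X).range)
    (hN : Nat.card (MulAction.toPermHom G X).range < N) (C : Sylow p G) (hC : ∃ c ∈ C, ∃ x : X, c • x ≠ x) :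
    2 ^ (θ + 1) * Nat.card {x : X // ∀ c ∈ C, c • x = x} ≤ (2 ^ (θ + 1) - 1) * Nat.card X := by
  classical
  have hsur := (MulAction.toPermHom G X).rangeRestrict_surjective
  have hfin : Finite (MulAction.toPermHom G X).range := Finite.of_surjective _ hsur
  have hsm : ∀ (g : G) (x : X), (MulAction.toPermHom G X).rangeRestrict g • x = g • x := fun g x => rfl
  have ht' : MulAction.IsPretransitive (MulAction.toPermHom G X).range X := by
    refine ⟨fun x y => ?_⟩
    obtain ⟨g, hg⟩ := ht.exists_smul_eq x y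
    exact ⟨(MulAction.toPermHom G X).rangeRestrict g, hg⟩
  have hmem : ∀ c ∈ C, (MulAction.toPermHom G X).rangeRestrict c ∈ C.mapSurjective hsur := by
    intro c hc
    exact Subgroup.mem_map_of_mem _ hc
  have hmem' : ∀ d ∈ C.mapSurjective hsur, ∃ c ∈ C, (MulAction.toPermHom G X).rangeRestrict c = d := by
    intro d hd
    exact hd
  have h1 := ih (MulAction.toPermHom G X).range X hN ht' hs (C.mapSurjective hsur) (by
    obtain ⟨c, hc, x, hx⟩ := hC
    exact ⟨_, hmem c hc, x, hx⟩)
  have h2 : Nat.card {x : X // ∀ c ∈ C.mapSurjective hsur, c • x = x} =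
      Nat.card {x : X // ∀ c ∈ C, c • x = x} := by
    refine Nat.card_congr (Equiv.subtypeEquivRight fun x => ⟨fun h c hc => ?_, fun h d hd => ?_⟩)
    · rw [← hsm]
      exact h _ (hmem c hc)
    · obtain ⟨c, hc, rfl⟩ := hmem' d hd
      rw [hsm]
      exact h c hc
  rwa [h2] at h1

/-- Simple groups. -/
private theorem brt_simple {θ p : ℕ} {G : Type} [Group G] [Finite G] {X : Type} [Finite X] [MulAction G X]
    (ht : MulAction.IsPretransitive G X) (hs : Sb θ G) (C : Sylow p G) (hC : ∃ c ∈ C, ∃ x : X, c • x ≠ x)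
    (hsim : ∀ A : Subgroup G, A.Normal → A = ⊥ ∨ A = ⊤) {x0 : X} (hx0 : ∀ c ∈ C, c • x0 = x0) :
    2 ^ (θ + 1) * Nat.card {x : X // ∀ c ∈ C, c • x = x} ≤ (2 ^ (θ + 1) - 1) * Nat.card X := by
  classical
  have : Fintype X := Fintype.ofFinite X
  obtain ⟨c, hc, x, hx⟩ := hC
  have h1 := hs (⊤ : Subgroup G) (⊥ : Subgroup (⊤ : Subgroup G)) inferInstance (fun h => by
    apply hx
    have h2 : (⟨c, Subgroup.mem_top c⟩ : (⊤ : Subgroup G)) ∈ (⊥ : Subgroup (⊤ : Subgroup G)) := by
      rw [h]
      exact Subgroup.mem_top _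
    have h3 : c = 1 := congrArg Subtype.val (Subgroup.mem_bot.1 h2)
    rw [h3, one_smul]) (fun K hK _ => by
    have hK' : (K.map (⊤ : Subgroup G).subtype).Normal :=
      hK.map _ fun g => ⟨⟨g, Subgroup.mem_top g⟩, rfl⟩
    rcases hsim _ hK' with h2 | h2
    · left
      rw [eq_bot_iff]
      intro k hk
      have h3 : (k : G) ∈ K.map (⊤ : Subgroup G).subtype := Subgroup.mem_map_of_mem _ hk
      rw [h2, Subgroup.mem_bot] at h3
      exact Subgroup.mem_bot.2 (Subtype.ext h3)
    · right
      rw [eq_top_iff]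
      intro k _
      have h3 : (k : G) ∈ K.map (⊤ : Subgroup G).subtype := by
        rw [h2]
        exact Subgroup.mem_top _
      obtain ⟨k', hk', he⟩ := h3
      have h4 : k' = k := Subtype.ext he
      rwa [← h4])
  rcases h1 with h1 | h1
  · exfalso
    apply hx
    obtain ⟨g, rfl⟩ := ht.exists_smul_eq x0 x
    have h2 := h1 ⟨c, Subgroup.mem_top c⟩ ⟨g, Subgroup.mem_top g⟩
    have h3 : c * g * c⁻¹ * g⁻¹ = 1 := congrArg Subtype.val (Subgroup.mem_bot.1 h2)
    have h4 : c * g = g * c := by
      rw [mul_inv_eq_one, mul_inv_eq_iff_eq_mul] at h3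
      exact h3
    rw [smul_smul, h4, mul_smul, hx0 c hc]
  · have h2 : Nat.card G ≤ 2 ^ θ := by
      rw [Subgroup.index_bot] at h1
      rwa [Nat.card_congr Subgroup.topEquiv.toEquiv] at h1
    have h3 : Nat.card X ≤ Nat.card G := by
      refine Nat.card_le_card_of_surjective (fun g : G => g • x0) fun y => ?_
      exact ht.exists_smul_eq x0 y
    have h4 : Nat.card {x : X // ∀ c ∈ C, c • x = x} < Nat.card X := by
      rw [Nat.card_eq_fintype_card, Nat.card_eq_fintype_card]
      exact Fintype.card_subtype_lt (x := x) fun h => hx (h c hc)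
    have h5 : 2 ^ (θ + 1) = 2 * 2 ^ θ := by rw [pow_succ, mul_comm]
    obtain ⟨F, hF⟩ : ∃ F, F = Nat.card {x : X // ∀ c ∈ C, c • x = x} := ⟨_, rfl⟩
    obtain ⟨m, hm⟩ : ∃ m, m = Nat.card X := ⟨_, rfl⟩
    obtain ⟨Q, hQ⟩ : ∃ Q, Q = 2 ^ (θ + 1) := ⟨_, rfl⟩
    rw [← hF, ← hm, ← hQ]
    rw [← hF, ← hm] at h4
    have h6 : m ≤ Q := by omega
    obtain ⟨d, hd⟩ : ∃ d, m = F + 1 + d := ⟨m - F - 1, by omega⟩
    have h7 : Q * m - m = (Q - 1) * m := by rw [Nat.sub_mul, one_mul]
    rw [← h7]
    have h8 : Q * m = Q * F + Q + Q * d := by rw [hd]; ring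
    omega

/-- The case of a complement: `G = A C`. -/
private theorem brt_comp {θ p : ℕ} [Fact p.Prime] {G : Type} [Group G] [Finite G] {X : Type} [Finite X] [MulAction G X]
    (ht : MulAction.IsPretransitive G X) (C : Sylow p G) (hC : ∃ c ∈ C, ∃ x : X, c • x ≠ x)
    (A : Subgroup G) (hA : A.Normal) (hpA : ¬ p ∣ Nat.card A) (hG : A ⊔ (C : Subgroup G) = ⊤)
    {x0 : X} (hx0 : ∀ c ∈ C, c • x0 = x0) :
    2 ^ (θ + 1) * Nat.card {x : X // ∀ c ∈ C, c • x = x} ≤ (2 ^ (θ + 1) - 1) * Nat.card X := by
  classical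
  have : Fintype X := Fintype.ofFinite X
  have hp : p.Prime := Fact.out
  have hL : (C : Subgroup G) ≤ MulAction.stabilizer G x0 := fun c hc => hx0 c hc
  obtain ⟨d, hd⟩ := cop_dvd hp A hA hpA C hG (MulAction.stabilizer G x0) hL
  have h1 := nu_fix hp X ht C x0 hx0
  have h2 : 0 < nu p G (MulAction.stabilizer G x0) := by
    have : Nonempty {C : Sylow p G // (C : Subgroup G) ≤ MulAction.stabilizer G x0} := ⟨⟨C, hL⟩⟩
    exact Nat.card_pos
  have h3 : 0 < nu p G ⊤ := by
    have : Nonempty {C : Sylow p G // (C : Subgroup G) ≤ ⊤} := ⟨⟨C, le_top⟩⟩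
    exact Nat.card_pos
  have h4 : Nat.card {x : X // ∀ c ∈ C, c • x = x} < Nat.card X := by
    obtain ⟨c, hc, x, hx⟩ := hC
    rw [Nat.card_eq_fintype_card, Nat.card_eq_fintype_card]
    exact Fintype.card_subtype_lt (x := x) fun h => hx (h c hc)
  obtain ⟨F, hF⟩ : ∃ F, F = Nat.card {x : X // ∀ c ∈ C, c • x = x} := ⟨_, rfl⟩
  obtain ⟨m, hm⟩ : ∃ m, m = Nat.card X := ⟨_, rfl⟩
  rw [← hF, ← hm] at h1
  rw [← hF, ← hm] at h4
  rw [← hF, ← hm]
  rw [hd, mul_comm m, mul_assoc] at h1
  have h5 : m = d * F := Nat.eq_of_mul_eq_mul_left h2 h1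
  have hd0 : d ≠ 0 := by
    rintro rfl
    rw [mul_zero] at hd
    omega
  have hd1 : d ≠ 1 := by
    rintro rfl
    omega
  have h6 : 2 * F ≤ m := by
    rw [h5]
    exact Nat.mul_le_mul_right F (by omega)
  have h7 : 2 ^ (θ + 1) = 2 * 2 ^ θ := by rw [pow_succ, mul_comm]
  have h8 : 1 ≤ 2 ^ θ := Nat.one_le_two_pow
  calc 2 ^ (θ + 1) * F = 2 ^ θ * (2 * F) := by rw [h7]; ring
    _ ≤ 2 ^ θ * m := Nat.mul_le_mul_left _ h6
    _ ≤ (2 ^ (θ + 1) - 1) * m := Nat.mul_le_mul_right _ (by omega)

/-- The case of a transitive normal subgroup of order divisible by `p`. -/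
private theorem brt_norm {θ p N : ℕ} [Fact p.Prime] (ih : BrtIH θ p N) {G : Type} [Group G] [Finite G] {X : Type} [Finite X]
    [MulAction G X] [FaithfulSMul G X] (hs : Sb θ G) (C : Sylow p G) (A : Subgroup G)
    (hAt : MulAction.IsPretransitive A X) (hN : Nat.card A < N) (hpA : p ∣ Nat.card A) :
    2 ^ (θ + 1) * Nat.card {x : X // ∀ c ∈ C, c • x = x} ≤ (2 ^ (θ + 1) - 1) * Nat.card X := by
  classical
  obtain ⟨P⟩ : Nonempty (Sylow p A) := inferInstance
  obtain ⟨Q, hQ⟩ := P.exists_comap_subtype_eq
  obtain ⟨g, hg⟩ := exists_smul_eq G Q C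
  have hP : ∃ c ∈ P, ∃ x : X, c • x ≠ x := by
    by_contra hcon
    push Not at hcon
    have h1 : (P : Subgroup A) = ⊥ := by
      rw [eq_bot_iff]
      intro c hc
      rw [Subgroup.mem_bot]
      refine Subtype.ext (FaithfulSMul.eq_of_smul_eq_smul (α := X) fun x => ?_)
      rw [Subgroup.coe_one, one_smul]
      exact hcon c hc x
    exact P.ne_bot_of_dvd_card hpA h1
  have h1 := ih A X hN hAt (brt_sub A hs) P hP
  have h2 : Nat.card {x : X // ∀ c ∈ C, c • x = x} ≤ Nat.card {x : X // ∀ c ∈ P, c • x = x} := by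
    refine Nat.card_le_card_of_injective (fun x => ⟨g⁻¹ • x.1, fun c hc => ?_⟩) ?_
    · have h3 : (c : G) ∈ Q := by
        have h4 : c ∈ (P : Subgroup A) := hc
        rw [← hQ] at h4
        exact h4
      have h4 : g * (c : G) * g⁻¹ ∈ C := by
        rw [← hg]
        exact ⟨(c : G), h3, by simp⟩
      have h5 := x.2 _ h4
      rw [mul_smul, mul_smul] at h5
      have h6 : (c : G) • g⁻¹ • x.1 = g⁻¹ • x.1 := by
        rw [← smul_eq_iff_eq_inv_smul] 
        exact h5
      exact h6
    · intro x y hxy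
      exact Subtype.ext (smul_left_cancel _ (congrArg Subtype.val hxy))
  exact (Nat.mul_le_mul_left _ h2).trans h1

/-- The induction step. -/
private theorem brt_step {θ p N : ℕ} [Fact p.Prime] (ih : BrtIH θ p N) {G : Type} [Group G] [Finite G] {X : Type} [Finite X]
    [MulAction G X] [FaithfulSMul G X] (hN : Nat.card G = N) (ht : MulAction.IsPretransitive G X) (hs : Sb θ G)
    (C : Sylow p G) (hC : ∃ c ∈ C, ∃ x : X, c • x ≠ x) :
    2 ^ (θ + 1) * Nat.card {x : X // ∀ c ∈ C, c • x = x} ≤ (2 ^ (θ + 1) - 1) * Nat.card X := by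
  classical
  have : Fintype X := Fintype.ofFinite X
  by_cases hfix : ∃ x0 : X, ∀ c ∈ C, c • x0 = x0
  swap
  · have h1 : Nat.card {x : X // ∀ c ∈ C, c • x = x} = 0 := by
      rw [Nat.card_eq_zero]
      left
      exact ⟨fun x => hfix ⟨x.1, x.2⟩⟩
    rw [h1, mul_zero]
    exact Nat.zero_le _
  obtain ⟨x1, hx1⟩ := hfix
  by_cases hsim : ∀ A : Subgroup G, A.Normal → A = ⊥ ∨ A = ⊤
  · exact brt_simple ht hs C hC hsim hx1
  push Not at hsim
  obtain ⟨A, hA, hAb, hAt⟩ := hsim
  obtain ⟨a0, ha0, ha01⟩ : ∃ a ∈ A, a ≠ 1 := by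
    by_contra hcon
    push Not at hcon
    exact hAb ((Subgroup.eq_bot_iff_forall A).2 hcon)
  let _ : MulAction G (orbitRel.Quotient A X) := brtAct A hA
  have hfin : Finite (orbitRel.Quotient A X) := Quotient.finite _
  have : Fintype (orbitRel.Quotient A X) := Fintype.ofFinite _
  let π : X → orbitRel.Quotient A X := Quotient.mk _
  have hπs : Function.Surjective π := Quotient.mk_surjective
  have hπ : ∀ (g : G) (x : X), g • π x = π (g • x) := fun g x => rfl
  have hπA : ∀ a ∈ A, ∀ x : X, π (a • x) = π x := fun a ha x =>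
    Quotient.sound ⟨⟨a, ha⟩, rfl⟩
  have hπA' : ∀ x y : X, π x = π y → ∃ a ∈ A, a • y = x := by
    intro x y h
    obtain ⟨a, ha⟩ := Quotient.exact h
    exact ⟨a, a.2, ha⟩
  have ht' : MulAction.IsPretransitive G (orbitRel.Quotient A X) := by
    refine ⟨fun b b' => ?_⟩
    obtain ⟨x, rfl⟩ := hπs b
    obtain ⟨y, rfl⟩ := hπs b'
    obtain ⟨g, hg⟩ := ht.exists_smul_eq x y
    exact ⟨g, by rw [hπ, hg]⟩
  have hAπ : ∀ a ∈ A, ∀ b : orbitRel.Quotient A X, a • b = b := by
    intro a ha b
    obtain ⟨x, rfl⟩ := hπs b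
    rw [hπ, hπA a ha]
  set F : Finset X := Finset.univ.filter fun x => ∀ c ∈ C, c • x = x with hF
  have hFc : Nat.card {x : X // ∀ c ∈ C, c • x = x} = F.card := by
    rw [Nat.card_eq_fintype_card, Fintype.card_subtype]
  have hXc : Nat.card X = ∑ b : orbitRel.Quotient A X, (Finset.univ.filter fun x => π x = b).card := by
    rw [Nat.card_eq_fintype_card, ← Finset.card_univ]
    exact Finset.card_eq_sum_card_fiberwise fun x _ => Finset.mem_coe.mpr (Finset.mem_univ _)
  by_cases hcase : ∃ c ∈ C, ∃ b : orbitRel.Quotient A X, c • b ≠ b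
  · -- case (1)
    rw [hFc]
    have hlt : Nat.card (MulAction.toPermHom G (orbitRel.Quotient A X)).range < N := by
      rw [← hN]
      refine brt_card _ ha01 ?_
      ext b
      exact hAπ a0 ha0 b
    have h1 := brt_img ih G (orbitRel.Quotient A X) ht' (brt_range _ hs) hlt C hcase
    set F' : Finset (orbitRel.Quotient A X) := Finset.univ.filter fun b => ∀ c ∈ C, c • b = b with hF'
    have hFc' : Nat.card {b : orbitRel.Quotient A X // ∀ c ∈ C, c • b = b} = F'.card := by
      rw [Nat.card_eq_fintype_card, Fintype.card_subtype]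
    rw [hFc'] at h1
    have hle : ∀ b b' : orbitRel.Quotient A X, (Finset.univ.filter fun x => π x = b).card ≤
        (Finset.univ.filter fun x => π x = b').card := by
      intro b b'
      obtain ⟨g, hg⟩ := ht'.exists_smul_eq b b'
      refine Finset.card_le_card_of_injOn (fun x => g • x) ?_ ?_
      · intro x hx
        have hx' : π x = b := (Finset.mem_filter.mp (Finset.mem_coe.mp hx)).2
        refine Finset.mem_coe.mpr (Finset.mem_filter.mpr ⟨Finset.mem_univ _, ?_⟩)
        rw [← hπ, hx', hg]
      · intro x _ y _ hxy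
        exact smul_left_cancel g hxy
    set q : ℕ := (Finset.univ.filter fun x => π x = π x1).card with hq
    have hq' : ∀ b : orbitRel.Quotient A X, (Finset.univ.filter fun x => π x = b).card = q := fun b =>
      le_antisymm (hle _ _) (hle _ _)
    have h2 : Nat.card X = Nat.card (orbitRel.Quotient A X) * q := by
      rw [hXc, Finset.sum_congr rfl fun b _ => hq' b, Finset.sum_const, smul_eq_mul, Finset.card_univ,
        Nat.card_eq_fintype_card]
    have h3 : F.card ≤ F'.card * q := by
      have h4 : F.card = ∑ b ∈ F', (F.filter fun x => π x = b).card := by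
        refine Finset.card_eq_sum_card_fiberwise fun x hx => ?_
        have hx' := (Finset.mem_filter.mp (Finset.mem_coe.mp hx)).2
        refine Finset.mem_coe.mpr (Finset.mem_filter.mpr ⟨Finset.mem_univ _, fun c hc => ?_⟩)
        rw [hπ, hx' c hc]
      rw [h4]
      calc ∑ b ∈ F', (F.filter fun x => π x = b).card ≤ ∑ b ∈ F', q := by
            refine Finset.sum_le_sum fun b _ => ?_
            rw [← hq' b]
            exact Finset.card_le_card (Finset.filter_subset_filter _ (Finset.subset_univ _))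
        _ = F'.card * q := by rw [Finset.sum_const, smul_eq_mul]
    rw [h2]
    calc 2 ^ (θ + 1) * F.card ≤ 2 ^ (θ + 1) * (F'.card * q) := Nat.mul_le_mul_left _ h3
      _ = (2 ^ (θ + 1) * F'.card) * q := by ring
      _ ≤ ((2 ^ (θ + 1) - 1) * Nat.card (orbitRel.Quotient A X)) * q := Nat.mul_le_mul_right _ h1
      _ = _ := by ring
  · -- case (2)
    push Not at hcase
    by_cases hH : A ⊔ (C : Subgroup G) = ⊤
    · -- `A` is transitive
      have hAC : ∀ g : G, ∀ b : orbitRel.Quotient A X, g • b = b := by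
        have h1 : A ⊔ (C : Subgroup G) ≤ (MulAction.toPermHom G (orbitRel.Quotient A X)).ker := by
          refine sup_le (fun a ha => ?_) (fun c hc => ?_)
          · show MulAction.toPermHom G (orbitRel.Quotient A X) a = 1
            ext b
            exact hAπ a ha b
          · show MulAction.toPermHom G (orbitRel.Quotient A X) c = 1
            ext b
            exact hcase c hc b
        intro g b
        have h2 : g ∈ (MulAction.toPermHom G (orbitRel.Quotient A X)).ker := by
          apply h1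
          rw [hH]
          exact Subgroup.mem_top g
        have h3 : MulAction.toPermHom G (orbitRel.Quotient A X) g = 1 := h2
        exact congrArg (fun σ => σ b) h3
      have hAt' : MulAction.IsPretransitive A X := by
        refine ⟨fun x y => ?_⟩
        obtain ⟨g, hg⟩ := ht.exists_smul_eq x y
        have h1 : π y = π x := by
          rw [← hg, ← hπ, hAC g]
        obtain ⟨a, ha, hax⟩ := hπA' _ _ h1
        exact ⟨⟨a, ha⟩, hax⟩
      by_cases hpA : p ∣ Nat.card A
      · refine brt_norm ih hs C A hAt' ?_ hpA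
        rw [← hN]
        exact lt_of_le_of_ne (Subgroup.card_le_card_group A) fun h => hAt (Subgroup.eq_top_of_card_eq A h)
      · exact brt_comp ht C hC A hA hpA hH hx1
    · -- `A C ≠ G`
      rw [hFc]
      obtain ⟨H, hHd⟩ : ∃ H : Subgroup G, H = A ⊔ (C : Subgroup G) := ⟨_, rfl⟩
      rw [← hHd] at hH
      have hAH : A ≤ H := by rw [hHd]; exact le_sup_left
      have hCH : (C : Subgroup G) ≤ H := by rw [hHd]; exact le_sup_right
      have hHN : Nat.card H < N := by
        rw [← hN]
        exact lt_of_le_of_ne (Subgroup.card_le_card_group H) fun h => hH (Subgroup.eq_top_of_card_eq H h)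
      have hHπ : ∀ h ∈ H, ∀ b : orbitRel.Quotient A X, h • b = b := by
        have h1 : H ≤ (MulAction.toPermHom G (orbitRel.Quotient A X)).ker := by
          rw [hHd]
          refine sup_le (fun a ha => ?_) (fun c hc => ?_)
          · show MulAction.toPermHom G (orbitRel.Quotient A X) a = 1
            ext b
            exact hAπ a ha b
          · show MulAction.toPermHom G (orbitRel.Quotient A X) c = 1
            ext b
            exact hcase c hc b
        intro g hg b
        have h3 : MulAction.toPermHom G (orbitRel.Quotient A X) g = 1 := h1 hg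
        exact congrArg (fun σ => σ b) h3
      have hkey : ∀ b : orbitRel.Quotient A X, 2 ^ (θ + 1) * (F.filter fun x => π x = b).card ≤
          (2 ^ (θ + 1) - 1) * (Finset.univ.filter fun x => π x = b).card := by
        intro b
        let S : SubMulAction H X :=
          { carrier := {x | π x = b}
            smul_mem' := fun h x hx => by
              have h1 : π ((h : G) • x) = π x := by
                rw [← hπ]
                exact hHπ h h.2 _
              exact h1.trans hx }
        have hS : ∀ x : X, x ∈ S ↔ π x = b := fun x => Iff.rfl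
        have hfS : Finite S := Subtype.finite
        have hSt : MulAction.IsPretransitive H S := by
          refine ⟨fun x y => ?_⟩
          obtain ⟨a, ha, hax⟩ := hπA' y.1 x.1 (((hS _).1 y.2).trans ((hS _).1 x.2).symm)
          exact ⟨⟨a, hAH ha⟩, Subtype.ext hax⟩
        have hSC : ∃ c ∈ C.subtype hCH, ∃ x : S, c • x ≠ x := by
          by_contra hcon
          push Not at hcon
          have hcon' : ∀ c ∈ C, ∀ x : X, π x = b → c • x = x := by
            intro c hc x hx
            have h1 := hcon ⟨c, hCH hc⟩ hc ⟨x, hx⟩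
            exact congrArg Subtype.val h1
          obtain ⟨x, hxb⟩ := hπs b
          obtain ⟨c, hc, y, hy⟩ := hC
          obtain ⟨g, hg⟩ := ht.exists_smul_eq x y
          let K : Subgroup G := (MulAction.toPermHom G (orbitRel.Quotient A X)).ker
          have hK : K.Normal := inferInstance
          have hKm : ∀ k ∈ K, ∀ b : orbitRel.Quotient A X, k • b = b := by
            intro k hk b
            have h1 : MulAction.toPermHom G (orbitRel.Quotient A X) k = 1 := hk
            exact congrArg (fun σ => σ b) h1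
          have hCK : (C : Subgroup G) ≤ K := by
            intro k hk
            show MulAction.toPermHom G (orbitRel.Quotient A X) k = 1
            ext b
            exact hcase k hk b
          obtain ⟨k, hk, hkC⟩ := brt_conj C hK hCK g
          have h1 : π (k⁻¹ • x) = b := by
            rw [← hπ, hKm _ (K.inv_mem hk), hxb]
          have h2 := hcon' _ (hkC c hc) (k⁻¹ • x) h1
          rw [smul_smul, mul_assoc, mul_inv_cancel, mul_one] at h2
          have h3 : (k⁻¹ * (g⁻¹ * c * g)) • x = k⁻¹ • ((g⁻¹ * c * g) • x) := mul_smul _ _ _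
          rw [h3] at h2
          have h4 := smul_left_cancel _ h2
          rw [mul_assoc, mul_smul, inv_smul_eq_iff, mul_smul, hg] at h4
          exact hy h4
        have h1 := brt_img ih H S hSt (brt_range _ (brt_sub H hs))
          (lt_of_le_of_lt (Nat.card_le_card_of_surjective _ (MulAction.toPermHom H S).rangeRestrict_surjective) hHN)
          (C.subtype hCH) hSC
        have h2 : Nat.card S = (Finset.univ.filter fun x => π x = b).card := by
          rw [← Fintype.card_subtype, ← Nat.card_eq_fintype_card]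
          exact Nat.card_congr (Equiv.refl _)
        have h3 : Nat.card {x : S // ∀ c ∈ C.subtype hCH, c • x = x} = (F.filter fun x => π x = b).card := by
          rw [hF, Finset.filter_filter, ← Fintype.card_subtype, ← Nat.card_eq_fintype_card]
          refine Nat.card_congr
            { toFun := fun x => ⟨x.1.1, fun c hc => congrArg Subtype.val (x.2 ⟨c, hCH hc⟩ hc), x.1.2⟩
              invFun := fun x => ⟨⟨x.1, x.2.2⟩, fun c hc => Subtype.ext (x.2.1 c hc)⟩
              left_inv := fun x => rfl
              right_inv := fun x => rfl }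
        rw [h2, h3] at h1
        exact h1
      have h4 : F.card = ∑ b : orbitRel.Quotient A X, (F.filter fun x => π x = b).card :=
        Finset.card_eq_sum_card_fiberwise fun x _ => Finset.mem_coe.mpr (Finset.mem_univ _)
      rw [hXc, h4, Finset.mul_sum, Finset.mul_sum]
      exact Finset.sum_le_sum fun b _ => hkey b

private theorem brt_all (θ p : ℕ) [Fact p.Prime] : ∀ N : ℕ, BrtIH θ p N := by
  intro N
  induction N with
  | zero =>
    intro G _ _ X _ _ _ h
    exact absurd h (Nat.not_lt_zero _)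
  | succ N ih =>
    intro G _ _ X _ _ _ h ht hs C hC
    rcases Nat.lt_succ_iff_lt_or_eq.1 h with h | h
    · exact ih G X h ht hs C hC
    · exact brt_step ih h ht hs C hC

private theorem brt_main (G : Type) [Group G] [Finite G] (X : Type) [Finite X] [MulAction G X] (ht : MulAction.IsPretransitive G X)
    (θ : ℕ) (hs : Sb θ (MulAction.toPermHom G X).range) (p : ℕ) (hp : p.Prime) (C : Sylow p G)
    (hC : ∃ c ∈ C, ∃ x : X, c • x ≠ x) :
    2 ^ (θ + 1) * Nat.card {x : X // ∀ c ∈ C, c • x = x} ≤ (2 ^ (θ + 1) - 1) * Nat.card X := by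
  have : Fact p.Prime := ⟨hp⟩
  exact brt_img (brt_all θ p _) G X ht hs (Nat.lt_succ_self _) C hC

theorem nu_bd {p θ : ℕ} (hp : p.Prime) : ∀ (G : Type) [Group G] [Finite G] (_ : Sb θ G) (L : Subgroup G) (C : Sylow p G)
    (_ : (C : Subgroup G) ≤ L), nu p G L = nu p G ⊤ ∨ 2 ^ (θ + 1) * nu p G L ≤ (2 ^ (θ + 1) - 1) * nu p G ⊤ := by
  intro G _ _ hs L C hC
  have hfin : Finite (G ⧸ L) := Quotient.finite _
  have ht : MulAction.IsPretransitive G (G ⧸ L) := inferInstance
  have hx : ∀ c ∈ C, c • ((1 : G) : G ⧸ L) = ((1 : G) : G ⧸ L) := by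
    intro c hc
    rw [← MulAction.mem_stabilizer_iff, MulAction.stabilizer_quotient]
    exact hC hc
  have h1 := nu_fix hp (G ⧸ L) ht C ((1 : G) : G ⧸ L) hx
  rw [MulAction.stabilizer_quotient] at h1
  have hX : 0 < Nat.card (G ⧸ L) := Nat.card_pos
  by_cases hC' : ∃ c ∈ C, ∃ x : G ⧸ L, c • x ≠ x
  · right
    have h2 := brt_main G (G ⧸ L) ht θ (brt_range _ hs) p hp C hC'
    refine Nat.le_of_mul_le_mul_left ?_ hX
    calc Nat.card (G ⧸ L) * (2 ^ (θ + 1) * nu p G L)
        = 2 ^ (θ + 1) * (Nat.card (G ⧸ L) * nu p G L) := by ring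
      _ = nu p G ⊤ * (2 ^ (θ + 1) * Nat.card {y : G ⧸ L // ∀ c ∈ C, c • y = y}) := by
          rw [h1]
          ring
      _ ≤ nu p G ⊤ * ((2 ^ (θ + 1) - 1) * Nat.card (G ⧸ L)) := Nat.mul_le_mul_left _ h2
      _ = Nat.card (G ⧸ L) * ((2 ^ (θ + 1) - 1) * nu p G ⊤) := by ring
  · left
    push Not at hC'
    have h2 : Nat.card {y : G ⧸ L // ∀ c ∈ C, c • y = y} = Nat.card (G ⧸ L) :=
      Nat.card_congr (Equiv.subtypeUnivEquiv fun y c hc => hC' c hc y)
    rw [h2, mul_comm] at h1
    exact Nat.eq_of_mul_eq_mul_right hX h1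

theorem bd_rat (G : Type) [Group G] [Finite G] (X : Type) [Finite X] [MulAction G X] (ht : MulAction.IsPretransitive G X)
    (θ : ℕ) (hs : Sb θ (MulAction.toPermHom G X).range) (p : ℕ) (hp : p.Prime) (C : Sylow p G)
    (hC : ∃ c ∈ C, ∃ x : X, c • x ≠ x) :
    2 ^ (θ + 1) * Nat.card {x : X // ∀ c ∈ C, c • x = x} ≤ (2 ^ (θ + 1) - 1) * Nat.card X :=
  brt_main G X ht θ hs p hp C hC

end Pool.Agent.HeS
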