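import Pool.Agent.HeS.SplitT
import Pool.Agent.HeS.CntP
import Pool.Agent.HeS.AnLT
import Pool.Agent.HeS.AnNilT
import Pool.Agent.GcS.CntSm
import Pool.Agent.GcS.CntL
import Pool.Agent.SvS.CntNil
import Pool.Agent.SvS.AnSm
import Pool.Agent.GcS.ParA
import Pool.Agent.GcS.AnRG

/-!
MP_7fa120_al, hereditary families. Almost all groups of the family have odd part at most `52 !`. The same as `GcS/CasesG.lean` (copy it) for a family `P` with `Her θ P`.
-/

set_option autoImplicit false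

namespace Pool.Agent.HeS

open Equiv Pool.Agent.NilS Pool.Agent.BdO Pool.Agent.SvS Pool.Agent.GcS Filter Topology

private theorem card_or {α : Type} [Finite α] (P Q : α → Prop) :
    Nat.card {x // P x ∨ Q x} ≤ Nat.card {x // P x} + Nat.card {x // Q x} :=
  Set.ncard_union_le {x | P x} {x | Q x}

private theorem card_imp {α : Type} [Finite α] {P Q : α → Prop} (h : ∀ x, P x → Q x) :
    Nat.card {x // P x} ≤ Nat.card {x // Q x} :=
  Nat.card_le_card_of_injective (Subtype.map id h) (Subtype.map_injective _ Function.injective_id)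

theorem nTwo_le_nP {θ : ℕ} {P : ∀ n : ℕ, Subgroup (Perm (Fin n)) → Prop} (h : Her θ P) (n : ℕ) : nTwo n ≤ nP P n :=
  card_imp fun H hH => by
    obtain ⟨k, hk⟩ := hH
    exact h.two n k H hk

private theorem nTwo_pos (n : ℕ) : 0 < nTwo n := by
  have : Nonempty {H : Subgroup (Perm (Fin n)) // Two H} := ⟨⟨⊥, 0, by simp⟩⟩
  exact Nat.card_pos

private theorem cases_bound {θ : ℕ} {P : ∀ n : ℕ, Subgroup (Perm (Fin n)) → Prop} (h : Her θ P) {n : ℕ}
    (hp : Par (lf n) (kA n) (La n) (be n) (gg n)) (hkk : kA n ≤ kB n) (hL : 1 ≤ LG n) (hs : sg n ≤ n)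
    (he : 1 ≤ kB n / 2) :
    nBigP P n ≤
      n ^ sg n * nSub (sg n) ^ 2 * (∑ k ∈ Finset.Icc 2 n, n ^ k * nTwo (n - k) + nSub (sg n) * nTwo (n - 3)) +
      (∑ s ∈ Finset.Ioc (sg n) n,
        n ^ s * n ^ (s * (kB n + EE (lf n) (La n) (BT θ n))) * n ^ (s * Nat.log 2 n) *
          LBG n (LG n) (ell n + 2 ^ (θ + 1)) s +
      (Nat.card {H : Subgroup (Perm (Fin n)) // P n H ∧
        Rl H (gg n) (jg (lf n) (kA n) + tg (lf n) (kA n) + 1)} +
      n.factorial ^ (kA n + EE (lf n) (La n) (BT θ n) + tg (lf n) (kA n) + 1) *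
        ∑ s ∈ (Finset.Icc 2 n).filter (fun s => kB n / 2 ≤ 2 * s * (Nat.log 2 n + 1)),
          n ^ (5 * s) * nTwo (n - s) * nOdn s)) := by
  have h1 := cnt_smallG (n := n) (sg n) hs
  have h2 := cnt_LG (n := n) (sg n) (kB n + EE (lf n) (La n) (BT θ n)) (LG n) (ell n + 2 ^ (θ + 1)) hL
  have h4 := cnt_nil n (kB n / 2) (kA n + EE (lf n) (La n) (BT θ n) + tg (lf n) (kA n) + 1) he
  refine le_trans ?_ (Nat.add_le_add h1 (Nat.add_le_add h2 (Nat.add_le_add le_rfl h4)))
  refine le_trans ?_ (Nat.add_le_add le_rfl (Nat.add_le_add le_rfl (card_or _ _)))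
  refine le_trans ?_ (Nat.add_le_add le_rfl (card_or _ _))
  refine le_trans ?_ (card_or _ _)
  refine card_imp fun H hH => ?_
  rcases split_t (sg n) (kA n) (kB n) (La n) (be n) (gg n) hkk H (h.gc n H hH.1) hp with h5 | h5 | h5 | h5
  · exact Or.inl ⟨hH.2, h5⟩
  · exact Or.inr (Or.inl h5)
  · exact Or.inr (Or.inr (Or.inl ⟨hH.1, h5⟩))
  · exact Or.inr (Or.inr (Or.inr h5))

theorem big_zeroP {θ : ℕ} {P : ∀ n : ℕ, Subgroup (Perm (Fin n)) → Prop} (h : Her θ P) :
    Tendsto (fun n : ℕ => (nBigP P n : ℝ) / nP P n) atTop (𝓝 0) := by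
  have hlim := an_small.add ((an_LT θ).add (an_RG.add (an_nilT θ)))
  rw [add_zero, add_zero, add_zero] at hlim
  refine squeeze_zero' (Eventually.of_forall fun n => by positivity) ?_ hlim
  filter_upwards [par_ev] with n hn
  obtain ⟨hp, hkk, hL, -, hs, he⟩ := hn
  have hT : (0 : ℝ) < nTwo n := by exact_mod_cast nTwo_pos n
  have hTS : (nTwo n : ℝ) ≤ nP P n := by exact_mod_cast nTwo_le_nP h n
  have hS : (0 : ℝ) < nP P n := hT.trans_le hTS
  have hb := cases_bound h hp hkk hL hs he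
  have hm := cnt_p P h.sub n (gg n) (jg (lf n) (kA n) + tg (lf n) (kA n) + 1)
  have key : ∀ a : ℕ, (a : ℝ) / nP P n ≤ (a : ℝ) / nTwo n := fun a =>
    div_le_div_of_nonneg_left (Nat.cast_nonneg a) hT hTS
  have hm' : (Nat.card {H : Subgroup (Perm (Fin n)) // P n H ∧
        Rl H (gg n) (jg (lf n) (kA n) + tg (lf n) (kA n) + 1)} : ℝ) / nP P n ≤
      (n.factorial : ℝ) ^ (jg (lf n) (kA n) + tg (lf n) (kA n) + 1) / 2 ^ gg n := by
    rw [div_le_div_iff₀ hS (by positivity)]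
    have h4 : ((2 ^ gg n * Nat.card {H : Subgroup (Perm (Fin n)) // P n H ∧
        Rl H (gg n) (jg (lf n) (kA n) + tg (lf n) (kA n) + 1)} : ℕ) : ℝ) ≤
        ((n.factorial ^ (jg (lf n) (kA n) + tg (lf n) (kA n) + 1) * nP P n : ℕ) : ℝ) := by
      exact_mod_cast hm
    push_cast at h4
    linarith
  have hb' : (nBigP P n : ℝ) ≤ _ := Nat.cast_le.mpr hb
  rw [Nat.cast_add, Nat.cast_add, Nat.cast_add] at hb'
  calc (nBigP P n : ℝ) / nP P n ≤ _ / nP P n := div_le_div_of_nonneg_right hb' hS.le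
    _ ≤ _ := by
      rw [add_div, add_div, add_div]
      exact add_le_add (key _) (add_le_add (key _) (add_le_add hm' (key _)))

end Pool.Agent.HeS
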