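import Pool.Agent.HeS.NuMul

/-!
MP_7fa120_al, hereditary families. Sylow subgroups in the coprime case.

Proof. Let `S = L ⊓ Y`, so `L = S C`. By `nu_eq`, `nu p G ⊤ = |Y : C_Y(C)|` and `nu p G L = |S : C_S(C)|` (`N_Y(C) = C_Y(C)`, as `[N_Y(C), C] ≤ Y ⊓ C = 1`).
(1) For every prime `q` and every `C`-invariant subgroup `Z` of `Y`, `C` normalises a Sylow `q`-subgroup of `Z` (`C` is a `p`-group acting on the set of the Sylow
`q`-subgroups, whose number divides `|Z|` and is prime to `p`, so it has a fixed point), and any `C`-invariant `q`-subgroup `A` of `Z` is contained in a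
`C`-invariant Sylow `q`-subgroup of `Z`: let `A'` be a maximal `C`-invariant `q`-subgroup of `Z` containing `A`; `C` normalises a Sylow `q`-subgroup of
`N_Z(A')`, which contains `A'`, so it is `A'`, hence `A'` is a Sylow subgroup of `Z`.
(2) Let `Q_0` be a Sylow `q`-subgroup of `C_S(C)`, `Q_1 ≥ Q_0` a Sylow `q`-subgroup of `C_Y(C)`, `Q ≥ Q_1` a `C`-invariant Sylow `q`-subgroup of `Y`; then
`C_Q(C) = Q_1`, so the `q`-part of `|Y : C_Y(C)|` is `|Q : C_Q(C)|`. In the same way let `Q_S` be a `C`-invariant Sylow `q`-subgroup of `S` such that `C_(Q_S)(C)` is a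
Sylow `q`-subgroup of `C_S(C)`, and let `Q'` be a `C`-invariant Sylow `q`-subgroup of `Y` containing `Q_S`. `Q'` and `Q` are conjugate under `C_Y(C)`: the set of the
`y ∈ Y` with `y Q y⁻¹ = Q'` is a coset of `N_Y(Q)`, of order prime to `p`, invariant under `C`, so it contains an element centralised by `C`. So also
`|Q' : C_(Q')(C)|` is the `q`-part of `|Y : C_Y(C)|`. The map `Q_S / C_(Q_S)(C) → Q' / C_(Q')(C)` is injective, so the `q`-part `|Q_S : C_(Q_S)(C)|` of `|S : C_S(C)|`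
is at most the `q`-part of `|Y : C_Y(C)|`, and divides it, both being powers of `q`. As this holds for all `q`, `nu p G L` divides `nu p G ⊤`.
-/

set_option autoImplicit false

namespace Pool.Agent.HeS

/-- `Z` is invariant under `C`. -/
private def Iv {G : Type} [Group G] (C Z : Subgroup G) : Prop := ∀ c ∈ C, ∀ z ∈ Z, c * z * c⁻¹ ∈ Z

private theorem iv_map {G : Type} [Group G] {A B : Subgroup G} {c : G} (h : ∀ a ∈ A, c * a * c⁻¹ ∈ B) :
    A ≤ B.comap (MulAut.conj c).toMonoidHom := fun a ha => h a ha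

private theorem iv_sup {G : Type} [Group G] {C A B : Subgroup G} (hA : Iv C A) (hB : Iv C B) : Iv C (A ⊔ B) := by
  intro c hc z hz
  have h : A ⊔ B ≤ (A ⊔ B).comap (MulAut.conj c).toMonoidHom :=
    sup_le (iv_map fun a ha => (le_sup_left : A ≤ A ⊔ B) (hA c hc a ha))
      (iv_map fun b hb => (le_sup_right : B ≤ A ⊔ B) (hB c hc b hb))
  exact h hz

private theorem iv_inf {G : Type} [Group G] {C A B : Subgroup G} (hA : Iv C A) (hB : Iv C B) : Iv C (A ⊓ B) :=
  fun c hc z hz => ⟨hA c hc z hz.1, hB c hc z hz.2⟩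

private theorem iv_le {G : Type} [Group G] {C B : Subgroup G} (hB : Iv C B) :
    C ≤ Subgroup.normalizer (B : Set G) := by
  intro c hc
  rw [Subgroup.mem_normalizer_iff]
  intro h
  constructor
  · exact fun hh => hB c hc h hh
  · intro hh
    have h1 := hB c⁻¹ (C.inv_mem hc) _ hh
    have h2 : c⁻¹ * (c * h * c⁻¹) * c⁻¹⁻¹ = h := by group
    rwa [h2] at h1

private theorem iv_of_le {G : Type} [Group G] {C B : Subgroup G} (hB : C ≤ B) : Iv C B :=
  fun _ hc _ hz => B.mul_mem (B.mul_mem (hB hc) hz) (B.inv_mem (hB hc))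

private theorem iv_cent {G : Type} [Group G] {C B : Subgroup G} (hB : B ≤ Subgroup.centralizer (C : Set G)) :
    Iv C B := by
  intro c hc z hz
  have h1 : c * z = z * c := Subgroup.mem_centralizer_iff.1 (hB hz) c hc
  rw [h1, mul_inv_cancel_right]
  exact hz

/-- Invariant Sylow subgroups. -/
private theorem ex_syl {G : Type} [Group G] [Finite G] {p q : ℕ} (hp : p.Prime) (hq : q.Prime) {C Z : Subgroup G}
    (hC : IsPGroup p C) (hZ : Iv C Z) (hpZ : ¬ p ∣ Nat.card Z) :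
    ∃ Q : Subgroup G, Q ≤ Z ∧ Iv C Q ∧ Nat.card Q = q ^ (Nat.card Z).factorization q := by
  have _ : Fact p.Prime := ⟨hp⟩
  have _ : Fact q.Prime := ⟨hq⟩
  let Ω : Type := {Q : Subgroup G // Q ≤ Z ∧ Nat.card Q = q ^ (Nat.card Z).factorization q}
  let act : MulAction C Ω :=
    { smul := fun c Q => ⟨Q.1.map (MulAut.conj (c : G)).toMonoidHom, by
        constructor
        · rintro _ ⟨z, hz, rfl⟩
          exact hZ c c.2 z (Q.2.1 hz)
        · exact (Nat.card_congr (Q.1.equivMapOfInjective (MulAut.conj (c : G)).toMonoidHom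
            (MulAut.conj (c : G)).injective).toEquiv).symm.trans Q.2.2⟩
      one_smul := fun Q => Subtype.ext (by
        show Q.1.map (MulAut.conj ((1 : C) : G)).toMonoidHom = Q.1
        ext x
        simp [Subgroup.mem_map])
      mul_smul := fun c d Q => Subtype.ext (by
        show Q.1.map (MulAut.conj ((c * d : C) : G)).toMonoidHom =
          (Q.1.map (MulAut.conj (d : G)).toMonoidHom).map (MulAut.conj (c : G)).toMonoidHom
        rw [Subgroup.map_map]
        congr 1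
        ext x
        simp [mul_assoc]) }
  have hact : ∀ (c : C) (Q : Ω), (c • Q).1 = Q.1.map (MulAut.conj (c : G)).toMonoidHom := fun c Q => rfl
  have hsub : ∀ Q : Ω, Nat.card (Q.1.subgroupOf Z) = q ^ (Nat.card Z).factorization q := fun Q => by
    rw [Nat.card_congr (Subgroup.subgroupOfEquivOfLe Q.2.1).toEquiv, Q.2.2]
  let e : Ω ≃ Sylow q Z :=
    { toFun := fun Q => Sylow.ofCard (Q.1.subgroupOf Z) (hsub Q)
      invFun := fun P => ⟨(P : Subgroup Z).map Z.subtype, by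
        refine ⟨Subgroup.map_subtype_le _, ?_⟩
        rw [← P.card_eq_multiplicity]
        exact (Nat.card_congr ((P : Subgroup Z).equivMapOfInjective Z.subtype Z.subtype_injective).toEquiv).symm⟩
      left_inv := fun Q => Subtype.ext (Subgroup.map_subgroupOf_eq_of_le Q.2.1)
      right_inv := fun P => Sylow.ext (by
        show ((P : Subgroup Z).map Z.subtype).subgroupOf Z = P
        exact Subgroup.comap_map_eq_self_of_injective Z.subtype_injective _) }
  have hcard : ¬ p ∣ Nat.card Ω := by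
    intro h
    apply hpZ
    rw [Nat.card_congr e] at h
    obtain ⟨P⟩ : Nonempty (Sylow q Z) := inferInstance
    exact h.trans (P.card_dvd_index.trans (Subgroup.index_dvd_card _))
  obtain ⟨Q, hQ⟩ := hC.nonempty_fixed_point_of_prime_not_dvd_card Ω hcard
  refine ⟨Q.1, Q.2.1, fun c hc z hz => ?_, Q.2.2⟩
  have h1 : (⟨c, hc⟩ : C) • Q = Q := hQ ⟨c, hc⟩
  have h2 := congrArg Subtype.val h1
  rw [hact] at h2
  rw [← h2]
  exact ⟨z, hz, rfl⟩

/-- Every invariant `q`-subgroup is contained in an invariant Sylow subgroup. -/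
private theorem ex_above {G : Type} [Group G] [Finite G] {p q : ℕ} (hp : p.Prime) (hq : q.Prime) {C Z B : Subgroup G}
    (hC : IsPGroup p C) (hZ : Iv C Z) (hpZ : ¬ p ∣ Nat.card Z) (hBZ : B ≤ Z) (hB : Iv C B) (hBq : IsPGroup q B) :
    ∃ Q : Subgroup G, B ≤ Q ∧ Q ≤ Z ∧ Iv C Q ∧ Nat.card Q = q ^ (Nat.card Z).factorization q := by
  have _ : Fact p.Prime := ⟨hp⟩
  have _ : Fact q.Prime := ⟨hq⟩
  obtain ⟨Q, hBQ, hQ⟩ := (Set.toFinite {Q : Subgroup G | Q ≤ Z ∧ Iv C Q ∧ IsPGroup q Q}).exists_le_maximal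
    (a := B) ⟨hBZ, hB, hBq⟩
  obtain ⟨⟨hQZ, hQi, hQq⟩, hmax⟩ := hQ
  refine ⟨Q, hBQ, hQZ, hQi, ?_⟩
  obtain ⟨k, hk⟩ := IsPGroup.iff_card.1 hQq
  have hZ0 : Nat.card Z ≠ 0 := Nat.card_pos.ne'
  have hkv : k ≤ (Nat.card Z).factorization q := by
    rw [← hq.pow_dvd_iff_le_factorization hZ0, ← hk]
    exact Subgroup.card_dvd_of_le hQZ
  rcases hkv.eq_or_lt with h | h
  · rw [hk, h]
  exfalso
  -- the normalizer in `Z`
  set N : Subgroup G := Subgroup.normalizer (Q : Set G) ⊓ Z with hN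
  have hNi : Iv C N := iv_inf (iv_of_le (iv_le hQi)) hZ
  have hNd : Nat.card N ∣ Nat.card Z := Subgroup.card_dvd_of_le inf_le_right
  have hpN : ¬ p ∣ Nat.card N := fun h1 => hpZ (h1.trans hNd)
  have hqN : q ^ (k + 1) ∣ Nat.card N := by
    have h1 : q ^ (k + 1) ∣ Nat.card Z := by
      rw [hq.pow_dvd_iff_le_factorization hZ0]
      exact h
    have h2 : Nat.card (Q.subgroupOf Z) = q ^ k := by
      rw [Nat.card_congr (Subgroup.subgroupOfEquivOfLe hQZ).toEquiv, hk]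
    have h3 := Sylow.prime_pow_dvd_card_normalizer h1 h2
    refine h3.trans ?_
    have h4 : Nat.card (Subgroup.normalizer ((Q.subgroupOf Z : Subgroup Z) : Set Z)) =
        Nat.card ((Subgroup.normalizer ((Q.subgroupOf Z : Subgroup Z) : Set Z)).map Z.subtype) :=
      Nat.card_congr (Subgroup.equivMapOfInjective _ Z.subtype Z.subtype_injective).toEquiv
    rw [h4]
    refine Subgroup.card_dvd_of_le ?_
    rintro _ ⟨z, hz, rfl⟩
    refine ⟨?_, z.2⟩
    rw [SetLike.mem_coe, Subgroup.mem_normalizer_iff] at hz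
    refine Subgroup.mem_normalizer_iff.2 fun x => ?_
    constructor
    · intro hx
      exact (hz ⟨x, hQZ hx⟩).1 hx
    · intro hx
      have hxZ : x ∈ Z := by
        have h5 : z.1⁻¹ * (z.1 * x * z.1⁻¹) * z.1 ∈ Z :=
          Z.mul_mem (Z.mul_mem (Z.inv_mem z.2) (hQZ hx)) z.2
        have h6 : z.1⁻¹ * (z.1 * x * z.1⁻¹) * z.1 = x := by group
        rwa [h6] at h5
      exact (hz ⟨x, hxZ⟩).2 hx
  obtain ⟨Q₁, hQ₁N, hQ₁i, hQ₁⟩ := ex_syl hp hq hC hNi hpN
  have hQ₁q : IsPGroup q Q₁ := IsPGroup.of_card hQ₁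
  have h1 : IsPGroup q (Q₁ ⊔ Q : Subgroup G) :=
    IsPGroup.to_sup_of_normal_right' hQ₁q hQq (hQ₁N.trans inf_le_left)
  have h2 : Q₁ ⊔ Q ≤ Z := sup_le (hQ₁N.trans inf_le_right) hQZ
  have h3 : Q₁ ⊔ Q ≤ Q := hmax ⟨h2, iv_sup hQ₁i hQi, h1⟩ le_sup_right
  have h4 : Nat.card Q₁ ∣ Nat.card Q := Subgroup.card_dvd_of_le (le_sup_left.trans h3)
  have h5 : k + 1 ≤ (Nat.card N).factorization q := by
    rw [← hq.pow_dvd_iff_le_factorization Nat.card_pos.ne']
    exact hqN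
  rw [hQ₁, hk] at h4
  have h6 := Nat.le_of_dvd (pow_pos hq.pos k) h4
  have h7 := (Nat.pow_le_pow_iff_right hq.one_lt).1 h6
  omega

open scoped Pointwise in
/-- Invariant Sylow subgroups are conjugate under the centralizer. -/
private theorem ex_conj {G : Type} [Group G] [Finite G] {p q : ℕ} (hp : p.Prime) (hq : q.Prime) {C Z Q Q' : Subgroup G}
    (hC : IsPGroup p C) (hZ : Iv C Z) (hpZ : ¬ p ∣ Nat.card Z) (hQZ : Q ≤ Z) (hQ : Iv C Q)
    (hQc : Nat.card Q = q ^ (Nat.card Z).factorization q) (hQZ' : Q' ≤ Z) (hQ' : Iv C Q')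
    (hQc' : Nat.card Q' = q ^ (Nat.card Z).factorization q) :
    ∃ z ∈ Z, (∀ c ∈ C, c * z = z * c) ∧ ∀ x, x ∈ Q ↔ z * x * z⁻¹ ∈ Q' := by
  have _ : Fact p.Prime := ⟨hp⟩
  have _ : Fact q.Prime := ⟨hq⟩
  have hs : ∀ R : Subgroup G, R ≤ Z → Nat.card R = q ^ (Nat.card Z).factorization q →
      Nat.card (R.subgroupOf Z) = q ^ (Nat.card Z).factorization q := fun R hR h => by
    rw [Nat.card_congr (Subgroup.subgroupOfEquivOfLe hR).toEquiv, h]
  obtain ⟨z₀, hz₀⟩ := MulAction.exists_smul_eq Z (Sylow.ofCard (Q.subgroupOf Z) (hs Q hQZ hQc))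
    (Sylow.ofCard (Q'.subgroupOf Z) (hs Q' hQZ' hQc'))
  have hz₁ : ∀ x ∈ Z, x ∈ Q ↔ z₀.1 * x * z₀.1⁻¹ ∈ Q' := by
    intro x hx
    have h1 := congrArg (fun S : Sylow q Z => (S : Subgroup Z)) hz₀
    have h2 : MulAut.conj z₀ • (Q.subgroupOf Z) = Q'.subgroupOf Z := h1
    have h3 : (⟨x, hx⟩ : Z) ∈ Q.subgroupOf Z ↔ z₀ * ⟨x, hx⟩ * z₀⁻¹ ∈ Q'.subgroupOf Z := by
      rw [← h2, Subgroup.mem_pointwise_smul_iff_inv_smul_mem]
      have h4 : (MulAut.conj z₀)⁻¹ • (z₀ * ⟨x, hx⟩ * z₀⁻¹) = (⟨x, hx⟩ : Z) := by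
        show (MulAut.conj z₀)⁻¹ (z₀ * ⟨x, hx⟩ * z₀⁻¹) = (⟨x, hx⟩ : Z)
        rw [MulAut.conj_inv_apply]
        group
      rw [h4]
    exact h3
  have hz₂ : ∀ x, x ∈ Q ↔ z₀.1 * x * z₀.1⁻¹ ∈ Q' := by
    intro x
    constructor
    · intro hx
      exact (hz₁ x (hQZ hx)).1 hx
    · intro hx
      have hxZ : x ∈ Z := by
        have h5 : z₀.1⁻¹ * (z₀.1 * x * z₀.1⁻¹) * z₀.1 ∈ Z :=
          Z.mul_mem (Z.mul_mem (Z.inv_mem z₀.2) (hQZ' hx)) z₀.2
        have h6 : z₀.1⁻¹ * (z₀.1 * x * z₀.1⁻¹) * z₀.1 = x := by group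
        rwa [h6] at h5
      exact (hz₁ x hxZ).2 hx
  -- the coset
  let T : Type := {z : G // z ∈ Z ∧ ∀ x, x ∈ Q ↔ z * x * z⁻¹ ∈ Q'}
  set N : Subgroup G := Subgroup.normalizer (Q : Set G) ⊓ Z with hN
  have hcardT : Nat.card T = Nat.card N := by
    refine (Nat.card_congr ?_).symm
    exact
      { toFun := fun n => ⟨z₀.1 * n.1, Z.mul_mem z₀.2 n.2.2, fun x => by
          have h1 := (Subgroup.mem_normalizer_iff.1 n.2.1) x
          have h2 := hz₂ (n.1 * x * n.1⁻¹)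
          have h3 : z₀.1 * (n.1 * x * n.1⁻¹) * z₀.1⁻¹ = z₀.1 * n.1 * x * (z₀.1 * n.1)⁻¹ := by group
          rw [h3] at h2
          exact h1.trans h2⟩
        invFun := fun z => ⟨z₀.1⁻¹ * z.1, by
          refine ⟨?_, Z.mul_mem (Z.inv_mem z₀.2) z.2.1⟩
          refine Subgroup.mem_normalizer_iff.2 fun x => ?_
          have h1 := z.2.2 x
          have h2 := hz₂ (z₀.1⁻¹ * z.1 * x * (z₀.1⁻¹ * z.1)⁻¹)
          have h3 : z₀.1 * (z₀.1⁻¹ * z.1 * x * (z₀.1⁻¹ * z.1)⁻¹) * z₀.1⁻¹ = z.1 * x * z.1⁻¹ := by group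
          rw [h3] at h2
          exact h1.trans h2.symm⟩
        left_inv := fun n => Subtype.ext (by
          show z₀.1⁻¹ * (z₀.1 * n.1) = n.1
          group)
        right_inv := fun z => Subtype.ext (by
          show z₀.1 * (z₀.1⁻¹ * z.1) = z.1
          group) }
  have hpT : ¬ p ∣ Nat.card T := by
    rw [hcardT]
    intro h
    exact hpZ (h.trans (Subgroup.card_dvd_of_le inf_le_right))
  have hconj : ∀ (R : Subgroup G), Iv C R → ∀ c ∈ C, ∀ x, x ∈ R ↔ c * x * c⁻¹ ∈ R := fun R hR c hc x =>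
    Subgroup.mem_normalizer_iff.1 (iv_le hR hc) x
  let act : MulAction C T :=
    { smul := fun c z => ⟨(c : G) * z.1 * (c : G)⁻¹, hZ c c.2 z.1 z.2.1, fun x => by
        have h1 := hconj Q hQ (c : G)⁻¹ (C.inv_mem c.2) x
        have h2 := z.2.2 ((c : G)⁻¹ * x * (c : G)⁻¹⁻¹)
        have h3 := hconj Q' hQ' (c : G) c.2 (z.1 * ((c : G)⁻¹ * x * (c : G)⁻¹⁻¹) * z.1⁻¹)
        have h4 : (c : G) * (z.1 * ((c : G)⁻¹ * x * (c : G)⁻¹⁻¹) * z.1⁻¹) * (c : G)⁻¹ =
            (c : G) * z.1 * (c : G)⁻¹ * x * ((c : G) * z.1 * (c : G)⁻¹)⁻¹ := by group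
        rw [h4] at h3
        exact h1.trans (h2.trans h3)⟩
      one_smul := fun z => Subtype.ext (by
        show ((1 : C) : G) * z.1 * ((1 : C) : G)⁻¹ = z.1
        simp)
      mul_smul := fun c d z => Subtype.ext (by
        show ((c * d : C) : G) * z.1 * ((c * d : C) : G)⁻¹ = (c : G) * ((d : G) * z.1 * (d : G)⁻¹) * (c : G)⁻¹
        rw [Subgroup.coe_mul]
        group) }
  have hact : ∀ (c : C) (z : T), (c • z).1 = (c : G) * z.1 * (c : G)⁻¹ := fun c z => rfl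
  obtain ⟨z, hz⟩ := hC.nonempty_fixed_point_of_prime_not_dvd_card T hpT
  refine ⟨z.1, z.2.1, fun c hc => ?_, z.2.2⟩
  have h1 : (⟨c, hc⟩ : C) • z = z := hz ⟨c, hc⟩
  have h2 := congrArg Subtype.val h1
  rw [hact] at h2
  exact mul_inv_eq_iff_eq_mul.1 h2

/-- The centralizer of `C` in an invariant Sylow subgroup. -/
private theorem card_cent {G : Type} [Group G] [Finite G] {p q : ℕ} (hp : p.Prime) (hq : q.Prime) {C Z Q : Subgroup G}
    (hC : IsPGroup p C) (hZ : Iv C Z) (hpZ : ¬ p ∣ Nat.card Z) (hQZ : Q ≤ Z) (hQ : Iv C Q)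
    (hQc : Nat.card Q = q ^ (Nat.card Z).factorization q) :
    Nat.card (Q ⊓ Subgroup.centralizer (C : Set G) : Subgroup G) =
      q ^ (Nat.card (Z ⊓ Subgroup.centralizer (C : Set G) : Subgroup G)).factorization q := by
  have _ : Fact q.Prime := ⟨hq⟩
  set W : Subgroup G := Z ⊓ Subgroup.centralizer (C : Set G) with hW
  have hpW : ¬ p ∣ Nat.card W := fun h => hpZ (h.trans (Subgroup.card_dvd_of_le inf_le_left))
  obtain ⟨Q₁, hQ₁W, hQ₁i, hQ₁⟩ := ex_syl hp hq hC (iv_cent (B := W) inf_le_right) hpW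
  obtain ⟨Q', hQ₁Q', hQZ', hQi', hQc'⟩ := ex_above hp hq hC hZ hpZ (hQ₁W.trans inf_le_left) hQ₁i
    (IsPGroup.of_card hQ₁)
  obtain ⟨z, hzZ, hzC, hz⟩ := ex_conj hp hq hC hZ hpZ hQZ' hQi' hQc' hQZ hQ hQc
  have hzc : z ∈ Subgroup.centralizer (C : Set G) := Subgroup.mem_centralizer_iff.2 hzC
  -- upper bound
  have hqD : IsPGroup q (Q ⊓ Subgroup.centralizer (C : Set G) : Subgroup G) :=
    (IsPGroup.of_card hQc).to_le inf_le_left
  obtain ⟨j, hj⟩ := IsPGroup.iff_card.1 hqD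
  have h1 : j ≤ (Nat.card W).factorization q := by
    rw [← hq.pow_dvd_iff_le_factorization Nat.card_pos.ne', ← hj]
    exact Subgroup.card_dvd_of_le (inf_le_inf_right _ hQZ)
  have h2 : q ^ (Nat.card W).factorization q ≤ q ^ j := by
    rw [← hQ₁, ← hj]
    refine Nat.card_le_card_of_injective (fun x : Q₁ => (⟨z * x.1 * z⁻¹, ?_, ?_⟩ :
      (Q ⊓ Subgroup.centralizer (C : Set G) : Subgroup G))) ?_
    · exact (hz x.1).1 (hQ₁Q' x.2)
    · exact Subgroup.mul_mem _ (Subgroup.mul_mem _ hzc (hQ₁W x.2).2) (Subgroup.inv_mem _ hzc)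
    · intro x y hxy
      have h3 : z * x.1 * z⁻¹ = z * y.1 * z⁻¹ := congrArg Subtype.val hxy
      exact Subtype.ext (mul_left_cancel (mul_right_cancel h3))
  have h3 := (Nat.pow_le_pow_iff_right hq.one_lt).1 h2
  rw [hj, le_antisymm h1 h3]

/-- The divisibility for invariant subgroups. -/
private theorem cent_dvd {G : Type} [Group G] [Finite G] {p : ℕ} (hp : p.Prime) {C Y S : Subgroup G}
    (hC : IsPGroup p C) (hY : Iv C Y) (hpY : ¬ p ∣ Nat.card Y) (hSY : S ≤ Y) (hS : Iv C S) :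
    Nat.card S / Nat.card (S ⊓ Subgroup.centralizer (C : Set G) : Subgroup G) ∣
      Nat.card Y / Nat.card (Y ⊓ Subgroup.centralizer (C : Set G) : Subgroup G) := by
  have hdS : Nat.card (S ⊓ Subgroup.centralizer (C : Set G) : Subgroup G) ∣ Nat.card S :=
    Subgroup.card_dvd_of_le inf_le_left
  have hdY : Nat.card (Y ⊓ Subgroup.centralizer (C : Set G) : Subgroup G) ∣ Nat.card Y :=
    Subgroup.card_dvd_of_le inf_le_left
  have hpS : ¬ p ∣ Nat.card S := fun h => hpY (h.trans (Subgroup.card_dvd_of_le hSY))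
  rw [← Nat.factorization_prime_le_iff_dvd (Nat.div_pos (Nat.le_of_dvd Nat.card_pos hdS) Nat.card_pos).ne'
    (Nat.div_pos (Nat.le_of_dvd Nat.card_pos hdY) Nat.card_pos).ne']
  intro q hq
  rw [Nat.factorization_div hdS, Nat.factorization_div hdY, Finsupp.tsub_apply, Finsupp.tsub_apply]
  obtain ⟨QS, hQS, hQSi, hQSc⟩ := ex_syl hp hq hC hS hpS
  obtain ⟨Q, hQSQ, hQY, hQi, hQc⟩ := ex_above hp hq hC hY hpY (hQS.trans hSY) hQSi
    (IsPGroup.of_card hQSc)
  have h1 := card_cent hp hq hC hS hpS hQS hQSi hQSc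
  have h2 := card_cent hp hq hC hY hpY hQY hQi hQc
  set D : Subgroup G := Q ⊓ Subgroup.centralizer (C : Set G) with hD
  set DS : Subgroup G := QS ⊓ Subgroup.centralizer (C : Set G) with hDS
  have h3 : DS.relIndex QS ≤ D.relIndex Q := by
    have h4 : DS.relIndex QS = D.relIndex QS := by
      have h5 : DS = QS ⊓ D := by
        rw [hDS, hD, ← inf_assoc, inf_of_le_left hQSQ]
      rw [h5, Subgroup.inf_relIndex_left]
    rw [h4]
    exact Subgroup.relIndex_le_of_le_right hQSQ (Subgroup.index_ne_zero_of_finite (H := D.subgroupOf Q))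
  have hcm : ∀ A B : Subgroup G, A ≤ B → Nat.card A * A.relIndex B = Nat.card B := fun A B h => by
    have h4 : Nat.card A = (⊥ : Subgroup G).relIndex A := (Subgroup.relIndex_bot_left A).symm
    have h5 : Nat.card B = (⊥ : Subgroup G).relIndex B := (Subgroup.relIndex_bot_left B).symm
    rw [h4, h5]
    exact Subgroup.relIndex_mul_relIndex _ _ _ bot_le h
  have h6 := hcm DS QS inf_le_left
  have h7 := hcm D Q inf_le_left
  rw [h1, hQSc] at h6
  rw [h2, hQc] at h7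
  generalize (Nat.card S).factorization q = a at *
  generalize (Nat.card (S ⊓ Subgroup.centralizer (C : Set G) : Subgroup G)).factorization q = b at *
  generalize (Nat.card Y).factorization q = a' at *
  generalize (Nat.card (Y ⊓ Subgroup.centralizer (C : Set G) : Subgroup G)).factorization q = b' at *
  have h8 : q ^ a * q ^ b' ≤ q ^ a' * q ^ b := by
    rw [← h6, ← h7]
    calc q ^ b * DS.relIndex QS * q ^ b' = (q ^ b' * q ^ b) * DS.relIndex QS := by ring
      _ ≤ (q ^ b' * q ^ b) * D.relIndex Q := Nat.mul_le_mul_left _ h3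
      _ = q ^ b' * D.relIndex Q * q ^ b := by ring
  rw [← pow_add, ← pow_add] at h8
  have h9 := (Nat.pow_le_pow_iff_right hq.one_lt).1 h8
  omega

theorem cop_dvd {p : ℕ} {G : Type} [Group G] [Finite G] (hp : p.Prime) (Y : Subgroup G) (hY : Y.Normal)
    (hpY : ¬ p ∣ Nat.card Y) (C : Sylow p G) (hG : Y ⊔ (C : Subgroup G) = ⊤) (L : Subgroup G) (hC : (C : Subgroup G) ≤ L) :
    nu p G L ∣ nu p G ⊤ := by
  have _ : Fact p.Prime := ⟨hp⟩
  have hCp : IsPGroup p (C : Subgroup G) := C.isPGroup'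
  -- `Y ⊓ C = 1`
  have hYC : ∀ x, x ∈ Y → x ∈ (C : Subgroup G) → x = 1 := by
    intro x hxY hxC
    obtain ⟨k, hk⟩ := hCp ⟨x, hxC⟩
    have hk' : x ^ p ^ k = 1 := congrArg Subtype.val hk
    have h1 : orderOf x ∣ p ^ k := orderOf_dvd_of_pow_eq_one hk'
    have h2 : orderOf x ∣ Nat.card Y := Subgroup.orderOf_dvd_natCard Y hxY
    have h3 : Nat.Coprime (p ^ k) (Nat.card Y) := Nat.Coprime.pow_left k ((Nat.Prime.coprime_iff_not_dvd hp).2 hpY)
    have h4 := Nat.dvd_gcd h1 h2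
    rw [Nat.Coprime] at h3
    rw [h3, Nat.dvd_one, orderOf_eq_one_iff] at h4
    exact h4
  -- orders of the subgroups containing `C`
  have hcard : ∀ W : Subgroup G, (C : Subgroup G) ≤ W →
      Nat.card W = Nat.card (W ⊓ Y : Subgroup G) * Nat.card (C : Subgroup G) := by
    intro W hW
    rw [← Nat.card_prod]
    refine (Nat.card_eq_of_bijective (fun x : (W ⊓ Y : Subgroup G) × (C : Subgroup G) =>
      (⟨x.1.1 * x.2.1, W.mul_mem x.1.2.1 (hW x.2.2)⟩ : W)) ⟨?_, ?_⟩).symm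
    · rintro ⟨⟨y, hy⟩, ⟨c, hc⟩⟩ ⟨⟨y', hy'⟩, ⟨c', hc'⟩⟩ h
      have h1 : y * c = y' * c' := congrArg Subtype.val h
      have h2 : y'⁻¹ * y = c' * c⁻¹ := by
        rw [eq_mul_inv_iff_mul_eq, mul_assoc, h1]
        group
      have h3 : y'⁻¹ * y = 1 := hYC _ (Y.mul_mem (Y.inv_mem hy'.2) hy.2)
        (by rw [h2]; exact Subgroup.mul_mem _ hc' (Subgroup.inv_mem _ hc))
      have h4 : y = y' := (inv_mul_eq_one.1 h3).symm
      subst h4
      have h5 : c = c' := mul_left_cancel h1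
      subst h5
      rfl
    · rintro ⟨w, hw⟩
      have h1 : w ∈ Y ⊔ (C : Subgroup G) := by
        rw [hG]
        trivial
      obtain ⟨y, hy, c, hc, rfl⟩ := (Subgroup.mem_sup_of_normal_left).1 h1
      refine ⟨⟨⟨y, ?_, hy⟩, ⟨c, hc⟩⟩, rfl⟩
      have h2 := W.mul_mem hw (W.inv_mem (hW hc))
      rwa [mul_inv_cancel_right] at h2
  have hcent : ∀ W : Subgroup G, Subgroup.normalizer ((C : Subgroup G) : Set G) ⊓ W ⊓ Y =
      (W ⊓ Y) ⊓ Subgroup.centralizer ((C : Subgroup G) : Set G) := by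
    intro W
    ext y
    constructor
    · rintro ⟨⟨h1, h2⟩, h3⟩
      refine ⟨⟨h2, h3⟩, ?_⟩
      refine Subgroup.mem_centralizer_iff.2 fun c hc => ?_
      have h4 : y * c * y⁻¹ ∈ (C : Subgroup G) := (Subgroup.mem_normalizer_iff.1 h1 c).1 hc
      have h5 : y * c * y⁻¹ * c⁻¹ = 1 := by
        refine hYC _ ?_ (Subgroup.mul_mem _ h4 (Subgroup.inv_mem _ hc))
        have h6 : y * c * y⁻¹ * c⁻¹ = y * (c * y⁻¹ * c⁻¹) := by group
        rw [h6]
        exact Y.mul_mem h3 (hY.conj_mem _ (Y.inv_mem h3) c)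
      have h7 : y * c * y⁻¹ = c := mul_inv_eq_one.1 h5
      exact (mul_inv_eq_iff_eq_mul.1 h7).symm
    · rintro ⟨⟨h1, h2⟩, h3⟩
      refine ⟨⟨?_, h1⟩, h2⟩
      refine Subgroup.mem_normalizer_iff.2 fun c => ?_
      have h4 := Subgroup.mem_centralizer_iff.1 h3
      constructor
      · intro hc
        rw [← h4 c hc, mul_inv_cancel_right]
        exact hc
      · intro hc
        have h5 := h4 _ hc
        have h6 : y * c * y⁻¹ = c := by
          have h7 : y * c * y⁻¹ * y = y * (y * c * y⁻¹) := h5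
          rw [inv_mul_cancel_right] at h7
          exact (mul_left_cancel h7).symm
        rwa [h6] at hc
  have hnu : ∀ W : Subgroup G, (C : Subgroup G) ≤ W → nu p G W = Nat.card (W ⊓ Y : Subgroup G) /
      Nat.card ((W ⊓ Y) ⊓ Subgroup.centralizer ((C : Subgroup G) : Set G) : Subgroup G) := by
    intro W hW
    rw [nu_eq hp W C hW, hcard W hW, hcard _ (le_inf Subgroup.le_normalizer hW), hcent W,
      Nat.mul_div_mul_right _ _ Nat.card_pos]
  rw [hnu L hC, hnu ⊤ le_top]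
  have hYi : Iv (C : Subgroup G) Y := fun c _ y hy => hY.conj_mem y hy c
  rw [top_inf_eq]
  exact cent_dvd hp hCp hYi hpY inf_le_right (iv_inf (iv_of_le hC) hYi)

end Pool.Agent.HeS
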