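import Pool.Agent.GcS.Defs

/-!
MP_7fa120_al: hereditary families of subgroups of the symmetric groups. Definitions and overview.

The class `GcT ℓ θ` extends `GcS.Gc`: on every orbit of `R = oddGen H` with more than `ℓ` points the non-abelian simple sections of the
group induced by `R` have order at most `2 ^ θ` (`θ = 0`: it is solvable). It contains all groups whose non-abelian composition factors
have order at most `2 ^ θ`, all groups whose orbits have at most `ℓ` points, all groups with small odd part. The theorem is for any
family `P n` of subgroups of `S_n`, closed under subgroups, contained in `GcT (ell n) θ` for a fixed `θ`, and containing all subgroups of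
order `2 ^ a` and `3 * 2 ^ a`.

Compared with `GcS` only the following is new: a nontrivial Sylow `p`-subgroup of a transitive group whose non-abelian simple
sections have order at most `2 ^ θ` moves at least a fixed proportion of the points (`NuMul`, `CopRat`, `BdRat`, used in `SupT`).
-/

set_option autoImplicit false

namespace Pool.Agent.HeS

open Equiv Pool.Agent.NilS Pool.Agent.BdO Pool.Agent.SvS Pool.Agent.GcS

/-- On every orbit with more than `ℓ` points the group generated by the elements of odd prime power order acts as a group all of
whose non-abelian simple sections have order at most `2 ^ θ`. -/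
def GcT {n : ℕ} (ℓ θ : ℕ) (H : Subgroup (Perm (Fin n))) : Prop :=
  ∀ Δ : Finset (Fin n), Orb (oddGen H) Δ → ℓ < Δ.card → Sb θ (res (oddGen H) Δ)

/-- A hereditary family of subgroups of the symmetric groups. -/
structure Her (θ : ℕ) (P : ∀ n : ℕ, Subgroup (Perm (Fin n)) → Prop) : Prop where
  sub : ∀ (n : ℕ) (H' H : Subgroup (Perm (Fin n))), H' ≤ H → P n H → P n H'
  gc : ∀ (n : ℕ) (H : Subgroup (Perm (Fin n))), P n H → GcT (ell n) θ H
  two : ∀ (n a : ℕ) (H : Subgroup (Perm (Fin n))), Nat.card H = 2 ^ a → P n H
  three : ∀ (n a : ℕ) (H : Subgroup (Perm (Fin n))), Nat.card H = 3 * 2 ^ a → P n H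

/-- The number of subgroups of `S_n` in the family. -/
noncomputable def nP (P : ∀ n : ℕ, Subgroup (Perm (Fin n)) → Prop) (n : ℕ) : ℕ :=
  Nat.card {H : Subgroup (Perm (Fin n)) // P n H}

/-- The proportion of the subgroups in the family whose order is a multiple of `m`. -/
noncomputable def dens (P : ∀ n : ℕ, Subgroup (Perm (Fin n)) → Prop) (n m : ℕ) : ℝ :=
  (Nat.card {H : Subgroup (Perm (Fin n)) // P n H ∧ m ∣ Nat.card H} : ℝ) /
    (Nat.card {H : Subgroup (Perm (Fin n)) // P n H} : ℝ)

/-- The number of subgroups in the family with odd part more than `52 !`. -/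
noncomputable def nBigP (P : ∀ n : ℕ, Subgroup (Perm (Fin n)) → Prop) (n : ℕ) : ℕ :=
  Nat.card {H : Subgroup (Perm (Fin n)) // P n H ∧ ¬ Bdd (Nat.factorial 52) H}

/-- The bound for the non-abelian simple sections. -/
noncomputable def BT (θ n : ℕ) : ℕ := θ + (Nat.log 2 (ell n).factorial + 1)

end Pool.Agent.HeS
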