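import Pool.Agent.HeS.GctB

/-!
MP_7fa120_al, hereditary families. Examples: the class `GcT (ell n) θ` itself, the solvable subgroups, the subgroups whose non-abelian
simple sections have order at most `2 ^ θ`, the subgroups with odd part of the order at most `K ≥ 3`.
-/

set_option autoImplicit false

namespace Pool.Agent.HeS

open Equiv Pool.Agent.NilS Pool.Agent.BdO Pool.Agent.SvS Pool.Agent.GcS

private theorem perm_three_solvable : Group.IsSolvable (Perm (Fin 3)) := by
  have h1 : Nat.card (alternatingGroup (Fin 3)) = 3 := by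
    rw [nat_card_alternatingGroup, Nat.card_fin]
    rfl
  have h2 : Fact (Nat.Prime 3) := ⟨Nat.prime_three⟩
  have h3 : IsCyclic (alternatingGroup (Fin 3)) := isCyclic_of_prime_card h1
  have h4 : Group.IsSolvable (alternatingGroup (Fin 3)) := by
    refine Group.isSolvable_of_comm fun a b => ?_
    exact (IsCyclic.isMulCommutative (α := alternatingGroup (Fin 3))).is_comm.comm a b
  refine Group.isSolvable_of_ker_le_range (alternatingGroup (Fin 3)).subtype Perm.sign ?_
  rw [Subgroup.range_subtype]
  exact le_of_eq rfl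

/-- A group of order `3 * 2 ^ a` is solvable. -/
theorem sol_three {G : Type} [Group G] [Finite G] {a : ℕ} (h : Nat.card G = 3 * 2 ^ a) :
    Group.IsSolvable G := by
  have : Fact (Nat.Prime 2) := ⟨Nat.prime_two⟩
  obtain ⟨P⟩ : Nonempty (Sylow 2 G) := inferInstance
  have hfac : (Nat.card G).factorization 2 = a := by
    rw [h, Nat.factorization_mul (by norm_num) (by positivity), Nat.Prime.factorization_pow Nat.prime_two,
      Finsupp.add_apply, Finsupp.single_eq_same, Nat.factorization_eq_zero_of_not_dvd (by norm_num), zero_add]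
  have hcard : Nat.card P = 2 ^ a := by rw [P.card_eq_multiplicity, hfac]
  have hidx : (P : Subgroup G).index = 3 := by
    have h3 := (P : Subgroup G).card_mul_index
    have h4 : Nat.card (P : Subgroup G) = 2 ^ a := hcard
    rw [h4, h, Nat.mul_comm 3] at h3
    exact Nat.eq_of_mul_eq_mul_left (by positivity) h3
  have hP : Group.IsSolvable (P : Subgroup G) := by
    have h5 := P.isPGroup'.isNilpotent
    infer_instance
  have hQ : Group.IsSolvable (Perm (G ⧸ (P : Subgroup G))) := by
    have f : (G ⧸ (P : Subgroup G)) ≃ Fin 3 := Finite.equivFinOfCardEq hidx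
    have := perm_three_solvable
    exact Group.isSolvable_of_isSolvable_injective (f := (f.permCongrHom : _ ≃* _).toMonoidHom)
      (f.permCongrHom.injective)
  refine Group.isSolvable_of_ker_le_range (P : Subgroup G).subtype
    (MulAction.toPermHom G (G ⧸ (P : Subgroup G))) ?_
  rw [Subgroup.range_subtype, ← Subgroup.normalCore_eq_ker]
  exact Subgroup.normalCore_le _

theorem sol_two {n a : ℕ} {H : Subgroup (Perm (Fin n))} (h : Nat.card H = 2 ^ a) : Group.IsSolvable H := by
  have : Fact (Nat.Prime 2) := ⟨Nat.prime_two⟩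
  have h1 : IsPGroup 2 H := IsPGroup.of_card h
  have h2 := h1.isNilpotent
  infer_instance

/-- A simple section of a solvable group is abelian. -/
theorem sb_sol {G : Type} [Group G] [Finite G] (θ : ℕ) (h : Group.IsSolvable G) : Sb θ G := by
  intro A N hN hne hmax
  left
  have hA : Group.IsSolvable A := Group.isSolvable_of_isSolvable_injective (f := A.subtype) A.subtype_injective
  have hQ : Group.IsSolvable (A ⧸ N) := Group.isSolvable_of_surjective (QuotientGroup.mk'_surjective N)
  have hnt : Nontrivial (A ⧸ N) := QuotientGroup.nontrivial_iff.2 hne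
  have h1 := Group.IsSolvable.commutator_lt_top_of_nontrivial (A ⧸ N)
  have h2 := hmax ((commutator (A ⧸ N)).comap (QuotientGroup.mk' N)) inferInstance (by
    intro x hx
    rw [Subgroup.mem_comap]
    have : QuotientGroup.mk' N x = 1 := (QuotientGroup.eq_one_iff x).2 hx
    rw [this]
    exact one_mem _)
  intro a b
  have h3 : (commutator (A ⧸ N)).comap (QuotientGroup.mk' N) = N := by
    rcases h2 with h2 | h2
    · exact h2
    · exfalso
      refine h1.ne ?_
      rw [eq_top_iff]
      intro x _
      obtain ⟨y, rfl⟩ := QuotientGroup.mk'_surjective N x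
      have : y ∈ (commutator (A ⧸ N)).comap (QuotientGroup.mk' N) := by rw [h2]; trivial
      exact this
  rw [← h3, Subgroup.mem_comap]
  simp only [map_mul, map_inv]
  exact Subgroup.commutator_mem_commutator (Subgroup.mem_top _) (Subgroup.mem_top _)

theorem her_gct (θ : ℕ) : Her θ (fun n H => GcT (ell n) θ H) where
  sub := fun _ _ _ h hH => gct_le h hH
  gc := fun _ _ h => h
  two := fun _ _ _ h => gct_sol (sol_two h)
  three := fun _ _ _ h => gct_sol (sol_three h)

theorem her_sol : Her 0 (fun n (H : Subgroup (Perm (Fin n))) => Group.IsSolvable H) where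
  sub := fun _ _ _ h hH =>
    Group.isSolvable_of_isSolvable_injective (f := Subgroup.inclusion h) (Subgroup.inclusion_injective h)
  gc := fun _ _ h => gct_sol h
  two := fun _ _ _ h => sol_two h
  three := fun _ _ _ h => sol_three h

theorem her_sb (θ : ℕ) : Her θ (fun n (H : Subgroup (Perm (Fin n))) => Sb θ H) where
  sub := fun _ _ _ h hH => sb_le h hH
  gc := fun _ _ h => gct_fac h
  two := fun _ _ _ h => sb_sol θ (sol_two h)
  three := fun _ _ _ h => sb_sol θ (sol_three h)

theorem her_bdd {K : ℕ} (hK : 3 ≤ K) :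
    Her (Nat.log 2 K.factorial + 1) (fun n (H : Subgroup (Perm (Fin n))) => Bdd K H) where
  sub := by
    intro n H' H h hH
    obtain ⟨a, k, h1, h2, h3⟩ := hH
    have h4 : Nat.card H' ∣ 2 ^ a * k := h1 ▸ Subgroup.card_dvd_of_le h
    obtain ⟨u, v, hu, hv, huv⟩ := exists_dvd_and_dvd_of_dvd_mul h4
    obtain ⟨b, -, hb⟩ := (Nat.dvd_prime_pow Nat.prime_two).1 hu
    refine ⟨b, v, ?_, ?_, ?_⟩
    · rw [huv, ← hb]
    · exact h2.of_dvd_nat hv
    · exact (Nat.le_of_dvd h2.pos hv).trans h3
  gc := fun _ _ h => gct_bdd h
  two := fun n a H h => ⟨a, 1, by rw [h, mul_one], odd_one, by omega⟩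
  three := fun n a H h => ⟨a, 3, by rw [h, mul_comm], by decide, hK⟩

end Pool.Agent.HeS
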