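import Pool.Agent.HeS.CasesT
import Pool.Agent.SvS.OddLow2
import Pool.Agent.BdO.Main

/-!
MP_7fa120_al, hereditary families. The theorem. The same as `SvS/MainF.lean` and `GcS/MainG.lean` (copy) for a family `P` with `Her θ P`, with `K = 52 !`. (The groups counted by
`nY n` have order `3 * 2 ^ a`, so they are in the family: odd part at most 3 and not a 2-group.)
-/

set_option autoImplicit false

namespace Pool.Agent.HeS

open Equiv Pool.Agent.NilS Pool.Agent.BdO Pool.Agent.SvS Pool.Agent.GcS Filter Topology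

private theorem card_or {α : Type} [Finite α] (A B : α → Prop) :
    Nat.card {x // A x ∨ B x} ≤ Nat.card {x // A x} + Nat.card {x // B x} :=
  Set.ncard_union_le {x | A x} {x | B x}

private theorem card_imp {α : Type} [Finite α] {A B : α → Prop} (h : ∀ x, A x → B x) :
    Nat.card {x // A x} ≤ Nat.card {x // B x} :=
  Nat.card_le_card_of_injective (Subtype.map id h) (Subtype.map_injective _ Function.injective_id)

/-- The number of the subgroups in the class which are not 2-groups. -/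
private noncomputable def nNT (P : ∀ n : ℕ, Subgroup (Perm (Fin n)) → Prop) (n : ℕ) : ℕ :=
  Nat.card {H : Subgroup (Perm (Fin n)) // P n H ∧ ¬ Two H}

private theorem two_mem {θ : ℕ} {P : ∀ n : ℕ, Subgroup (Perm (Fin n)) → Prop} (h : Her θ P) {n : ℕ}
    {H : Subgroup (Perm (Fin n))} (h2 : Two H) : P n H := by
  obtain ⟨k, hk⟩ := h2
  exact h.two n k H hk

private theorem nY_mem {θ : ℕ} {P : ∀ n : ℕ, Subgroup (Perm (Fin n)) → Prop} (h : Her θ P) {n : ℕ}
    {H : Subgroup (Perm (Fin n))} (hB : Bdd 3 H) (h2 : ¬ Two H) : P n H := by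
  obtain ⟨a, k, hk, hodd, hk3⟩ := hB
  have hk1 : k ≠ 1 := by
    rintro rfl
    exact h2 ⟨a, by rw [hk, mul_one]⟩
  have hk2 : k = 3 := by
    obtain ⟨c, hc⟩ := hodd
    omega
  refine h.three n a H ?_
  rw [hk, hk2, mul_comm]

private theorem nP_eq {θ : ℕ} {P : ∀ n : ℕ, Subgroup (Perm (Fin n)) → Prop} (h : Her θ P) (n : ℕ) : nP P n = nTwo n + nNT P n := by
  classical
  unfold nP nTwo nNT
  have e : {H : Subgroup (Perm (Fin n)) // P n H} ≃
      {H : Subgroup (Perm (Fin n)) // Two H} ⊕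
        {H : Subgroup (Perm (Fin n)) // P n H ∧ ¬ Two H} := by
    refine
      { toFun := fun H => if h : Two H.1 then Sum.inl ⟨H.1, h⟩ else Sum.inr ⟨H.1, H.2, h⟩
        invFun := fun x => Sum.elim (fun H => ⟨H.1, two_mem h H.2⟩) (fun H => ⟨H.1, H.2.1⟩) x
        left_inv := ?_
        right_inv := ?_ }
    · intro H
      by_cases h : Two H.1 <;> simp [h]
    · rintro (H | H)
      · simp [H.2]
      · simp [H.2.2]
  rw [Nat.card_congr e, Nat.card_sum]

private theorem nTwo_pos (n : ℕ) : (0 : ℝ) < nTwo n := by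
  have := one_le_nTwo n
  exact_mod_cast this

private theorem nTwo_le {θ : ℕ} {P : ∀ n : ℕ, Subgroup (Perm (Fin n)) → Prop} (h : Her θ P) (n : ℕ) : (nTwo n : ℝ) ≤ nP P n := by
  exact_mod_cast nTwo_le_nP h n

private theorem nP_pos {θ : ℕ} {P : ∀ n : ℕ, Subgroup (Perm (Fin n)) → Prop} (h : Her θ P) (n : ℕ) : (0 : ℝ) < nP P n := (nTwo_pos n).trans_le (nTwo_le h n)

private theorem nNT_le (P : ∀ n : ℕ, Subgroup (Perm (Fin n)) → Prop) (n : ℕ) : nNT P n ≤ nBigP P n + nX (Nat.factorial 52) n := by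
  refine le_trans ?_ (card_or _ _)
  refine card_imp fun H hH => ?_
  by_cases h2 : Bdd (Nat.factorial 52) H
  · exact Or.inr ⟨h2, hH.2⟩
  · exact Or.inl ⟨hH.1, h2⟩

private theorem tendsto_two_mul : Tendsto (fun n : ℕ => 2 * n) atTop atTop :=
  tendsto_atTop_mono (fun n => by simp only [id]; omega) tendsto_id

private theorem nNT_even {θ : ℕ} {P : ∀ n : ℕ, Subgroup (Perm (Fin n)) → Prop} (h : Her θ P) : Tendsto (fun n : ℕ => (nNT P (2 * n) : ℝ) / nP P (2 * n)) atTop (𝓝 0) := by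
  have h1 := ((big_zeroP h).comp tendsto_two_mul).add (nX_even (Nat.factorial 52) (Nat.factorial_pos 52))
  rw [add_zero] at h1
  refine squeeze_zero (fun n => by positivity) (fun n => ?_) h1
  simp only [Function.comp_apply]
  have h2 : (nNT P (2 * n) : ℝ) ≤ nBigP P (2 * n) + nX (Nat.factorial 52) (2 * n) := by
    exact_mod_cast nNT_le P (2 * n)
  have h3 := div_le_div_of_nonneg_right h2 (nP_pos h (2 * n)).le
  rw [add_div] at h3
  have h4 : (nX (Nat.factorial 52) (2 * n) : ℝ) / nP P (2 * n) ≤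
      (nX (Nat.factorial 52) (2 * n) : ℝ) / nTwo (2 * n) :=
    div_le_div_of_nonneg_left (Nat.cast_nonneg _) (nTwo_pos _) (nTwo_le h _)
  exact h3.trans (add_le_add le_rfl h4)

theorem her_two {θ : ℕ} {P : ∀ n : ℕ, Subgroup (Perm (Fin n)) → Prop} (h : Her θ P) : Tendsto (fun n : ℕ => (nTwo (2 * n) : ℝ) / nP P (2 * n)) atTop (𝓝 1) := by
  have h1 := (nNT_even h).const_sub 1
  rw [sub_zero] at h1
  refine h1.congr fun n => ?_
  have h2 : (nP P (2 * n) : ℝ) = nTwo (2 * n) + nNT P (2 * n) := by exact_mod_cast nP_eq h (2 * n)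
  have h3 := (nP_pos h (2 * n)).ne'
  rw [sub_eq_iff_eq_add, ← add_div, ← h2, div_self h3]

private theorem card_dvd (P : ∀ n : ℕ, Subgroup (Perm (Fin n)) → Prop) (n m : ℕ) (hm : ∀ a : ℕ, m ≠ 2 ^ a) :
    Nat.card {H : Subgroup (Perm (Fin n)) // P n H ∧ m ∣ Nat.card H} ≤ nNT P n := by
  refine card_imp fun H hH => ⟨hH.1, ?_⟩
  rintro ⟨k, hk⟩
  have h7 := hH.2
  rw [hk, Nat.dvd_prime_pow Nat.prime_two] at h7
  obtain ⟨a, _, ha⟩ := h7
  exact hm a ha

theorem her_even {θ : ℕ} {P : ∀ n : ℕ, Subgroup (Perm (Fin n)) → Prop} (h : Her θ P) (m : ℕ) (hm : ∀ a : ℕ, m ≠ 2 ^ a) : Tendsto (fun n : ℕ => dens P (2 * n) m) atTop (𝓝 0) := by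
  refine squeeze_zero (fun n => by unfold dens; positivity) (fun n => ?_) (nNT_even h)
  have h1 : (Nat.card {H : Subgroup (Perm (Fin (2 * n))) // P (2 * n) H ∧ m ∣ Nat.card H} : ℝ) ≤
      nNT P (2 * n) := by
    exact_mod_cast card_dvd P (2 * n) m hm
  exact div_le_div_of_nonneg_right h1 (nP_pos h (2 * n)).le

private theorem sol_dvd_le (P : ∀ n : ℕ, Subgroup (Perm (Fin n)) → Prop) (n a : ℕ) :
    nP P n ≤ Nat.card {H : Subgroup (Perm (Fin n)) // P n H ∧ 2 ^ a ∣ Nat.card H} +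
      (nBigP P n + n.factorial ^ (2 ^ a * Nat.factorial 52)) := by
  have g1 := AbS.card_small_le n (2 ^ a * Nat.factorial 52)
  refine le_trans ?_ (Nat.add_le_add le_rfl (Nat.add_le_add le_rfl g1))
  refine le_trans ?_ (Nat.add_le_add le_rfl (card_or _ _))
  refine le_trans ?_ (card_or _ _)
  refine card_imp fun H hH => ?_
  by_cases h1 : 2 ^ a ∣ Nat.card H
  · exact Or.inl ⟨hH, h1⟩
  · by_cases h2 : Bdd (Nat.factorial 52) H
    · refine Or.inr (Or.inr ?_)
      obtain ⟨b, k, hk, _, hkK⟩ := h2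
      have hba : b < a := by
        by_contra hc
        apply h1
        rw [hk]
        exact Dvd.dvd.mul_right (pow_dvd_pow 2 (by omega)) k
      rw [hk]
      exact Nat.mul_le_mul (Nat.pow_le_pow_right (by norm_num) hba.le) hkK
    · exact Or.inr (Or.inl ⟨hH, h2⟩)

theorem her_pow {θ : ℕ} {P : ∀ n : ℕ, Subgroup (Perm (Fin n)) → Prop} (h : Her θ P) (a : ℕ) : Tendsto (fun n : ℕ => dens P n (2 ^ a)) atTop (𝓝 1) := by
  have h1 := ((big_zeroP h).add (NilS.small_tendsto' (2 ^ a * Nat.factorial 52))).const_sub 1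
  rw [add_zero, sub_zero] at h1
  refine tendsto_of_tendsto_of_tendsto_of_le_of_le h1 tendsto_const_nhds (fun n => ?_) (fun n => ?_)
  · have h0 := nP_pos h n
    have h6 : (nP P n : ℝ) ≤
        (Nat.card {H : Subgroup (Perm (Fin n)) // P n H ∧ 2 ^ a ∣ Nat.card H} : ℝ) +
          (nBigP P n + (n.factorial : ℝ) ^ (2 ^ a * Nat.factorial 52)) := by
      exact_mod_cast sol_dvd_le P n a
    have h7 : (n.factorial : ℝ) ^ (2 ^ a * Nat.factorial 52) / (nP P n : ℝ) ≤
        (n.factorial : ℝ) ^ (2 ^ a * Nat.factorial 52) / (nTwo n : ℝ) :=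
      div_le_div_of_nonneg_left (by positivity) (nTwo_pos n) (nTwo_le h n)
    have h8 := div_le_div_of_nonneg_right h6 h0.le
    rw [div_self h0.ne', add_div, add_div] at h8
    change 1 - ((nBigP P n : ℝ) / nP P n + (n.factorial : ℝ) ^ (2 ^ a * Nat.factorial 52) / (nTwo n : ℝ)) ≤
      (Nat.card {H : Subgroup (Perm (Fin n)) // P n H ∧ 2 ^ a ∣ Nat.card H} : ℝ) / (nP P n : ℝ)
    linarith
  · refine div_le_one_of_le₀ ?_ (by positivity)
    have h2 : Nat.card {H : Subgroup (Perm (Fin n)) // P n H ∧ 2 ^ a ∣ Nat.card H} ≤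
        Nat.card {H : Subgroup (Perm (Fin n)) // P n H} := card_imp fun H hH => hH.1
    exact Nat.cast_le.2 h2

private theorem exp_three (ε : ℝ) (hε : 0 < ε) :
    ∀ᶠ n : ℕ in atTop, (n : ℝ) ^ 3 * Real.exp (-(3 * (n : ℝ) ^ (31 / 32 : ℝ) / 96)) < ε := by
  have g1 : Tendsto (fun n : ℕ => (1 / 32 : ℝ) * (n : ℝ) ^ (31 / 32 : ℝ)) atTop atTop :=
    ((tendsto_rpow_atTop (by norm_num)).comp tendsto_natCast_atTop_atTop).const_mul_atTop (by norm_num)
  have g2 := ((Real.tendsto_pow_mul_exp_neg_atTop_nhds_zero 4).comp g1).const_mul ((32 : ℝ) ^ 4)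
  rw [mul_zero] at g2
  have h1 : Tendsto (fun n : ℕ => (n : ℝ) ^ 3 * Real.exp (-(3 * (n : ℝ) ^ (31 / 32 : ℝ) / 96)))
      atTop (𝓝 0) := by
    refine squeeze_zero' (Eventually.of_forall fun n => by positivity) ?_ g2
    filter_upwards [eventually_ge_atTop 1] with n hn
    simp only [Function.comp_apply]
    have hn0 : (1 : ℝ) ≤ n := by exact_mod_cast hn
    have g3 : (n : ℝ) ^ 3 ≤ ((n : ℝ) ^ (31 / 32 : ℝ)) ^ 4 := by
      rw [← Real.rpow_natCast ((n : ℝ) ^ (31 / 32 : ℝ)) 4, ← Real.rpow_mul (by linarith),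
        ← Real.rpow_natCast (n : ℝ) 3]
      apply Real.rpow_le_rpow_of_exponent_le hn0
      norm_num
    obtain ⟨x, hx⟩ : ∃ x, x = (n : ℝ) ^ (31 / 32 : ℝ) := ⟨_, rfl⟩
    rw [← hx] at g3 ⊢
    have e1 : 3 * x / 96 = 1 / 32 * x := by ring
    have e2 : (32 : ℝ) ^ 4 * ((1 / 32 * x) ^ 4 * Real.exp (-(1 / 32 * x))) =
        x ^ 4 * Real.exp (-(1 / 32 * x)) := by ring
    rw [e1, e2]
    gcongr
  exact h1.eventually (gt_mem_nhds hε)

theorem her_odd {θ : ℕ} {P : ∀ n : ℕ, Subgroup (Perm (Fin n)) → Prop} (h : Her θ P) (ε : ℝ) (hε : 0 < ε) :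
    ∀ᶠ n : ℕ in atTop, n % 4 = 3 → (1 / 4 - ε) * (nP P n : ℝ) ≤ (nP P n : ℝ) - nTwo n := by
  obtain ⟨n₀, hn₀⟩ := Pool.Agent.SvS.grow_all
  filter_upwards [exp_three ε hε, eventually_ge_atTop n₀, eventually_ge_atTop 6] with n hn1 hn2 hn6 hn3
  have h2 := odd_low_sol hn3
  have hY : nY n ≤ nNT P n := card_imp fun H hH => ⟨nY_mem h hH.2.1 hH.2.2, hH.2.2⟩
  have h2' : (nTwo n : ℝ) ≤ 3 * nNT P n + (n : ℝ) ^ 3 * nTwo (n - 3) := by
    exact_mod_cast h2.trans (Nat.add_le_add_right (Nat.mul_le_mul_left 3 hY) _)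
  have h3 := hn₀ n hn2 3 (by norm_num) (by omega)
  have h4 : (n : ℝ) ^ 3 * nTwo (n - 3) ≤ ε * nTwo n := by
    have g1 : (nTwo (n - 3) : ℝ) ≤ nTwo n * Real.exp (-(3 * (n : ℝ) ^ (31 / 32 : ℝ) / 96)) := by
      rw [Real.exp_neg, ← div_eq_mul_inv, le_div_iff₀ (Real.exp_pos _)]
      exact_mod_cast h3
    calc (n : ℝ) ^ 3 * nTwo (n - 3) ≤ (n : ℝ) ^ 3 * (nTwo n * Real.exp (-(3 * (n : ℝ) ^ (31 / 32 : ℝ) / 96))) := by gcongr
      _ = ((n : ℝ) ^ 3 * Real.exp (-(3 * (n : ℝ) ^ (31 / 32 : ℝ) / 96))) * nTwo n := by ring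
      _ ≤ ε * nTwo n := by gcongr
  have h5 : (nP P n : ℝ) = nTwo n + nNT P n := by exact_mod_cast nP_eq h n
  have h6 : (0 : ℝ) ≤ nTwo n := by positivity
  have h7 : (0 : ℝ) ≤ nNT P n := by positivity
  rw [h5]
  nlinarith

theorem her_no {θ : ℕ} {P : ∀ n : ℕ, Subgroup (Perm (Fin n)) → Prop} (h : Her θ P) : ∃ r : ℕ, r.Prime ∧ r ≠ 2 ∧ ¬ ∃ L : ℝ, Tendsto (fun n : ℕ => dens P n r) atTop (𝓝 L) := by
  classical
  by_contra hcon
  push Not at hcon
  have hz : ∀ r : ℕ, r.Prime → r ≠ 2 → Tendsto (fun n : ℕ => dens P n r) atTop (𝓝 0) := by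
    intro r hr hr2
    obtain ⟨L, hL⟩ := hcon r hr hr2
    have h1 := her_even h r (fun a ha => by
      rcases a with _ | a
      · rw [pow_zero] at ha
        exact hr.one_lt.ne' ha
      · have h2 : 2 ∣ r := by rw [ha, pow_succ]; exact dvd_mul_left 2 _
        exact hr2 ((Nat.prime_dvd_prime_iff_eq Nat.prime_two hr).1 h2).symm)
    have h3 := tendsto_nhds_unique (hL.comp tendsto_two_mul) h1
    rw [h3] at hL
    exact hL
  obtain ⟨K, hK⟩ : ∃ K, K = Nat.factorial 52 := ⟨_, rfl⟩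
  set T := (Finset.range (K + 1)).filter (fun r => r.Prime ∧ r ≠ 2) with hT
  have hsum : Tendsto (fun n : ℕ => (∑ r ∈ T, dens P n r) + (nBigP P n : ℝ) / nP P n) atTop (𝓝 0) := by
    have := tendsto_finsetSum T (f := fun r (n : ℕ) => dens P n r) (a := fun _ => (0 : ℝ)) (x := atTop)
      (fun r hr => by
        rw [hT, Finset.mem_filter, Finset.mem_range] at hr
        exact hz r hr.2.1 hr.2.2)
    simpa using this.add (big_zeroP h)
  have hle : ∀ n : ℕ, (nNT P n : ℝ) ≤ ((∑ r ∈ T, dens P n r) + (nBigP P n : ℝ) / nP P n) * nP P n := by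
    intro n
    have h0 := nP_pos h n
    rw [add_mul, div_mul_cancel₀ _ h0.ne', Finset.sum_mul]
    have h1 : ∀ r ∈ T, dens P n r * nP P n =
        (Nat.card {H : Subgroup (Perm (Fin n)) // P n H ∧ r ∣ Nat.card H} : ℝ) := by
      intro r _
      change (Nat.card {H : Subgroup (Perm (Fin n)) // P n H ∧ r ∣ Nat.card H} : ℝ) /
        (nP P n : ℝ) * nP P n = _
      rw [div_mul_cancel₀ _ h0.ne']
    rw [Finset.sum_congr rfl h1]
    have h2 : nNT P n ≤ ∑ r ∈ T, Nat.card {H : Subgroup (Perm (Fin n)) // P n H ∧ r ∣ Nat.card H} +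
        nBigP P n := by
      have hfin : ∀ (p : Subgroup (Perm (Fin n)) → Prop) [DecidablePred p],
          Nat.card {H // p H} = (Finset.univ.filter p).card := by
        intro p _
        rw [Nat.card_eq_fintype_card, Fintype.card_subtype]
      have h3 : nNT P n ≤ Nat.card {H : Subgroup (Perm (Fin n)) // P n H ∧ Bdd K H ∧ ¬ Two H} +
          nBigP P n := by
        refine le_trans ?_ (card_or _ _)
        refine card_imp fun H hH => ?_
        by_cases h2 : Bdd K H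
        · exact Or.inl ⟨hH.1, h2, hH.2⟩
        · rw [hK] at h2
          exact Or.inr ⟨hH.1, h2⟩
      refine h3.trans (Nat.add_le_add_right ?_ _)
      rw [hfin]
      refine (Finset.card_le_card (t := T.biUnion (fun r =>
        Finset.univ.filter (fun H : Subgroup (Perm (Fin n)) => P n H ∧ r ∣ Nat.card H))) ?_).trans ?_
      · intro H hH
        rw [Finset.mem_filter] at hH
        obtain ⟨_, hS, hB, h2⟩ := hH
        rw [Finset.mem_biUnion]
        obtain ⟨a, k, hk, hkodd, hkK⟩ := hB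
        have hk1 : k ≠ 1 := by
          rintro rfl
          exact h2 ⟨a, by rw [hk, mul_one]⟩
        obtain ⟨r, hr, hrk⟩ := Nat.exists_prime_and_dvd hk1
        have hk0 : 0 < k := hkodd.pos
        refine ⟨r, ?_, ?_⟩
        · rw [hT, Finset.mem_filter, Finset.mem_range]
          refine ⟨by have := Nat.le_of_dvd hk0 hrk; omega, hr, ?_⟩
          rintro rfl
          exact (Nat.not_even_iff_odd.2 hkodd) (even_iff_two_dvd.2 hrk)
        · rw [Finset.mem_filter]
          exact ⟨Finset.mem_univ _, hS, by rw [hk]; exact hrk.mul_left _⟩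
      · refine Finset.card_biUnion_le.trans (Finset.sum_le_sum fun r _ => ?_)
        rw [hfin]
    exact_mod_cast h2
  have h1 := her_odd h (1 / 8) (by norm_num)
  have h2 := hsum.eventually (gt_mem_nhds (show (0 : ℝ) < 1 / 8 by norm_num))
  obtain ⟨N, hN⟩ := eventually_atTop.1 (h1.and h2)
  have h3 := hN (4 * N + 3) (by omega)
  have h4 := h3.1 (by omega)
  have h5 := h3.2
  have h6 := hle (4 * N + 3)
  have h7 := nP_pos h (4 * N + 3)
  have h9 : (nP P (4 * N + 3) : ℝ) = nTwo (4 * N + 3) + nNT P (4 * N + 3) := by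
    exact_mod_cast nP_eq h (4 * N + 3)
  have h8 := mul_lt_mul_of_pos_right h5 h7
  linarith

end Pool.Agent.HeS
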