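import Pool.Agent.HeS.Defs

/-!
MP_7fa120_al, hereditary families. The number of Sylow subgroups contained in a subgroup.

For a subgroup `L` of `G` let `nu p G L` be the number of the Sylow `p`-subgroups of `G` contained in `L`. Let `C ≤ L` be one of them.
`nu_eq`: the Sylow `p`-subgroups of `G` contained in `L` are the conjugates of `C` under `L`, so `nu p G L = (C.subgroupOf L).normalizer.index`, and for
`L = ⊤` it is the number of all Sylow subgroups.
`nu_le`: let `Y` be a normal subgroup of `G`. Every Sylow subgroup of `G` contained in `L` is mapped to a Sylow subgroup of `G / Y` contained in `L Y / Y`, and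
the fibre over `C Y / Y` consists of the Sylow subgroups of `G` contained in `L ⊓ C Y = (L ⊓ Y) C`; all fibres which are not empty have the same number of elements
(conjugation by `L`), so `nu p G L = nu p (G ⧸ Y) (L Y / Y) * nu p (C Y) ((L ⊓ Y) C)`, here in the form `nu_mul` with subgroups of `G`: the second
factor counts the Sylow subgroups of `G` contained in `(L ⊓ Y) C`.
`nu_fix`: for a transitive action on `X` and a fixed point `x` of `C`, counting the pairs (`y`, `C'`) with `C'` fixing `y`:
`|X| * nu p G (G_x) = (number of all Sylow subgroups) * |Fix C|`.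
-/

set_option autoImplicit false

namespace Pool.Agent.HeS

/-- The number of Sylow `p`-subgroups of `G` contained in `L`. -/
noncomputable def nu (p : ℕ) (G : Type) [Group G] (L : Subgroup G) : ℕ := Nat.card {C : Sylow p G // (C : Subgroup G) ≤ L}

private theorem fin_syl {p : ℕ} {G : Type} [Group G] [Finite G] : Finite (Sylow p G) := by
  refine Finite.of_injective (fun C : Sylow p G => (C : Subgroup G)) fun C D h => Sylow.ext h

theorem nu_mono {p : ℕ} {G : Type} [Group G] [Finite G] {L L' : Subgroup G} (h : L ≤ L') : nu p G L ≤ nu p G L' := by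
  have := fin_syl (p := p) (G := G)
  exact Nat.card_le_card_of_injective
    (fun C : {C : Sylow p G // (C : Subgroup G) ≤ L} =>
      (⟨C.1, C.2.trans h⟩ : {C : Sylow p G // (C : Subgroup G) ≤ L'}))
    (fun C D hCD => Subtype.ext (congrArg
      (fun E : {C : Sylow p G // (C : Subgroup G) ≤ L'} => E.1) hCD))

private theorem card_syl {p : ℕ} {G : Type} [Group G] [Finite G] [Fact p.Prime] (C D : Sylow p G) :
    Nat.card (C : Subgroup G) = Nat.card (D : Subgroup G) := by
  rw [Sylow.card_eq_multiplicity, Sylow.card_eq_multiplicity]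

private theorem eq_of_le_syl {p : ℕ} {G : Type} [Group G] [Finite G] [Fact p.Prime] {C D : Sylow p G}
    (h : (C : Subgroup G) ≤ D) : C = D :=
  Sylow.ext (Subgroup.eq_of_le_of_card_ge h (card_syl D C).le)

/-- The Sylow subgroups of `G` contained in `W ≥ C` are the Sylow subgroups of `W`. -/
theorem nu_sub {p : ℕ} {G : Type} [Group G] [Finite G] (hp : p.Prime) (W L : Subgroup G) (hL : L ≤ W) (C : Sylow p G)
    (hC : (C : Subgroup G) ≤ W) : nu p G L = nu p W (L.subgroupOf W) := by
  have := Fact.mk hp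
  refine Nat.card_eq_of_bijective
    (fun D : {D : Sylow p G // (D : Subgroup G) ≤ L} =>
      (⟨D.1.subtype (D.2.trans hL), Subgroup.comap_mono D.2⟩ :
        {D : Sylow p W // (D : Subgroup W) ≤ L.subgroupOf W})) ⟨?_, ?_⟩
  · rintro ⟨D, hD⟩ ⟨E, hE⟩ h
    apply Subtype.ext
    exact Sylow.subtype_injective (hP := hD.trans hL) (hQ := hE.trans hL) (congrArg
      (fun E : {D : Sylow p W // (D : Subgroup W) ≤ L.subgroupOf W} => E.1) h)
  · rintro ⟨D, hD⟩
    have h1 : Nat.card ((D : Subgroup W).map W.subtype) = p ^ (Nat.card G).factorization p := by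
      rw [Subgroup.card_map_of_injective W.subtype_injective, card_syl D (C.subtype hC),
        ← Sylow.card_eq_multiplicity C]
      exact Nat.card_congr (Subgroup.subgroupOfEquivOfLe hC).toEquiv
    have h2 : (Sylow.ofCard ((D : Subgroup W).map W.subtype) h1 : Subgroup G) =
        (D : Subgroup W).map W.subtype := Sylow.coe_ofCard _ _
    refine ⟨⟨Sylow.ofCard ((D : Subgroup W).map W.subtype) h1, ?_⟩, ?_⟩
    · rw [h2, Subgroup.map_le_iff_le_comap]
      exact hD
    · apply Subtype.ext
      apply Sylow.ext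
      change (Sylow.ofCard ((D : Subgroup W).map W.subtype) h1 : Subgroup G).subgroupOf W = D
      rw [h2]
      exact Subgroup.comap_map_eq_self_of_injective W.subtype_injective _

theorem nu_eq {p : ℕ} {G : Type} [Group G] [Finite G] (hp : p.Prime) (L : Subgroup G) (C : Sylow p G)
    (hC : (C : Subgroup G) ≤ L) :
    nu p G L = Nat.card L / Nat.card (Subgroup.normalizer ((C : Subgroup G) : Set G) ⊓ L : Subgroup G) := by
  have := Fact.mk hp
  rw [nu_sub hp L L le_rfl C hC]
  have h1 : nu p L (L.subgroupOf L) = Nat.card (Sylow p L) := by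
    unfold nu
    refine Nat.card_congr (Equiv.subtypeUnivEquiv fun D => ?_)
    rw [Subgroup.subgroupOf_self]
    exact le_top
  have h2 : Subgroup.normalizer ((C.subtype hC : Sylow p L) : Set L) =
      (Subgroup.normalizer ((C : Subgroup G) : Set G)).subgroupOf L :=
    (Subgroup.subgroupOf_normalizer_eq hC).symm
  rw [h1, Sylow.card_eq_index_normalizer (C.subtype hC), h2, ← Subgroup.inf_subgroupOf_right]
  have h3 := Subgroup.card_mul_index ((Subgroup.normalizer ((C : Subgroup G) : Set G) ⊓ L).subgroupOf L)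
  rw [Nat.card_congr (Subgroup.subgroupOfEquivOfLe inf_le_right).toEquiv] at h3
  rw [← h3, Nat.mul_div_cancel_left _ Nat.card_pos]

private theorem map_smul_eq {G G' : Type} [Group G] [Group G'] (f : G →* G') (g : G) (E : Subgroup G) :
    (E.map (MulAut.conj g).toMonoidHom).map f = (E.map f).map (MulAut.conj (f g)).toMonoidHom := by
  rw [Subgroup.map_map, Subgroup.map_map]
  congr 1
  ext x
  simp

private theorem mapSur_smul {p : ℕ} {G G' : Type} [Group G] [Group G'] [Finite G] [Fact p.Prime]
    {f : G →* G'} (hf : Function.Surjective f) (g : G) (E : Sylow p G) :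
    (g • E).mapSurjective hf = f g • E.mapSurjective hf := by
  apply Sylow.ext
  rw [Sylow.coe_mapSurjective]
  exact map_smul_eq f g E

theorem nu_mul {p : ℕ} {G : Type} [Group G] [Finite G] (hp : p.Prime) (Y : Subgroup G) (hY : Y.Normal) (L : Subgroup G)
    (C : Sylow p G) (hC : (C : Subgroup G) ≤ L) :
    nu p G L = nu p (G ⧸ Y) (L.map (QuotientGroup.mk' Y)) * nu p G ((L ⊓ Y) ⊔ (C : Subgroup G)) := by
  classical
  have := Fact.mk hp
  have hs : Function.Surjective (QuotientGroup.mk' Y) := QuotientGroup.mk'_surjective Y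
  have hfG : Finite (Sylow p G) := fin_syl
  have hfQ : Finite (Sylow p (G ⧸ Y)) := fin_syl
  obtain ⟨C', hC'def⟩ : ∃ C' : Sylow p (G ⧸ Y), C' = C.mapSurjective hs := ⟨_, rfl⟩
  have hC'coe : (C' : Subgroup (G ⧸ Y)) = (C : Subgroup G).map (QuotientGroup.mk' Y) := by
    rw [hC'def, Sylow.coe_mapSurjective]
  have hC' : (C' : Subgroup (G ⧸ Y)) ≤ L.map (QuotientGroup.mk' Y) := by
    rw [hC'coe]
    exact Subgroup.map_mono hC
  let F : {D : Sylow p G // (D : Subgroup G) ≤ L} →
      {D : Sylow p (G ⧸ Y) // (D : Subgroup (G ⧸ Y)) ≤ L.map (QuotientGroup.mk' Y)} :=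
    fun D => ⟨D.1.mapSurjective hs, by
      rw [Sylow.coe_mapSurjective]
      exact Subgroup.map_mono D.2⟩
  have hLC : (L ⊓ Y) ⊔ (C : Subgroup G) ≤ L := sup_le inf_le_left hC
  -- the fibre over the image of `C`
  have hkey : ∀ E : Sylow p G, (E : Subgroup G) ≤ (L ⊓ Y) ⊔ (C : Subgroup G) ↔
      (E : Subgroup G) ≤ L ∧ E.mapSurjective hs = C' := by
    intro E
    constructor
    · intro h
      refine ⟨h.trans hLC, eq_of_le_syl ?_⟩
      rw [Sylow.coe_mapSurjective, hC'coe]
      refine (Subgroup.map_mono h).trans ?_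
      rw [Subgroup.map_sup]
      refine sup_le ?_ le_rfl
      rintro _ ⟨y, hy, rfl⟩
      have h1 : QuotientGroup.mk' Y y = 1 := (QuotientGroup.eq_one_iff y).2 hy.2
      rw [h1]
      exact one_mem _
    · rintro ⟨h1, h2⟩ e he
      have h3 : QuotientGroup.mk' Y e ∈ (C : Subgroup G).map (QuotientGroup.mk' Y) := by
        rw [← hC'coe, ← h2, Sylow.coe_mapSurjective]
        exact Subgroup.mem_map_of_mem _ he
      obtain ⟨c, hc, hce⟩ := h3
      have h4 : c⁻¹ * e ∈ Y := QuotientGroup.eq.1 hce
      have h5 : e = c * (c⁻¹ * e) := by group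
      rw [h5]
      have h6 : c ∈ L := hC hc
      have h7 : e ∈ L := h1 he
      exact mul_mem (Subgroup.mem_sup_right hc)
        (Subgroup.mem_sup_left ⟨L.mul_mem (L.inv_mem h6) h7, h4⟩)
  have hfib : ∀ D, Nat.card {s // F s = D} = nu p G ((L ⊓ Y) ⊔ (C : Subgroup G)) := by
    rintro ⟨D, hD⟩
    have hfL : Finite (Sylow p (L.map (QuotientGroup.mk' Y))) := fin_syl
    obtain ⟨g, hg⟩ := MulAction.exists_smul_eq (L.map (QuotientGroup.mk' Y)) (C'.subtype hC')
      (D.subtype hD)
    rw [Sylow.smul_subtype] at hg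
    have hg1 := Sylow.subtype_injective hg
    obtain ⟨l, hl, hgl⟩ := g.2
    have hg2 : QuotientGroup.mk' Y l • C' = D := by
      rw [hgl]
      exact hg1
    have e1 : {s // F s = ⟨D, hD⟩} ≃ {E : Sylow p G // (E : Subgroup G) ≤ L ∧
        E.mapSurjective hs = D} :=
      { toFun := fun s => ⟨s.1.1, s.1.2, congrArg Subtype.val s.2⟩
        invFun := fun E => ⟨⟨E.1, E.2.1⟩, Subtype.ext E.2.2⟩
        left_inv := fun s => rfl
        right_inv := fun E => rfl }
    rw [Nat.card_congr e1]
    unfold nu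
    refine Nat.card_congr (Equiv.subtypeEquiv (MulAction.toPerm l⁻¹) fun E => ?_)
    change _ ↔ ((l⁻¹ • E : Sylow p G) : Subgroup G) ≤ _
    rw [hkey, mapSur_smul]
    have h1 : ((l⁻¹ • E : Sylow p G) : Subgroup G) ≤ L ↔ (E : Subgroup G) ≤ L := by
      constructor
      · intro h
        have h2 := Sylow.smul_le h ⟨l, hl⟩
        change ((l • l⁻¹ • E : Sylow p G) : Subgroup G) ≤ L at h2
        rwa [smul_inv_smul] at h2
      · intro h
        exact Sylow.smul_le h ⟨l⁻¹, inv_mem hl⟩
    rw [h1, map_inv, inv_smul_eq_iff, hg2]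
  have := Fintype.ofFinite
    {D : Sylow p (G ⧸ Y) // (D : Subgroup (G ⧸ Y)) ≤ L.map (QuotientGroup.mk' Y)}
  calc nu p G L = Nat.card (Σ D, {s // F s = D}) := Nat.card_congr (Equiv.sigmaFiberEquiv F).symm
    _ = ∑ D, Nat.card {s // F s = D} := Nat.card_sigma
    _ = ∑ _D : {D : Sylow p (G ⧸ Y) // (D : Subgroup (G ⧸ Y)) ≤ L.map (QuotientGroup.mk' Y)},
        nu p G ((L ⊓ Y) ⊔ (C : Subgroup G)) := Finset.sum_congr rfl fun D _ => hfib D
    _ = _ := by
      rw [Finset.sum_const, Finset.card_univ, ← Nat.card_eq_fintype_card, smul_eq_mul]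
      rfl

private theorem card_sig_swap {α β : Type} [Finite α] [Finite β] (R : α → β → Prop) (M N : ℕ)
    (h1 : ∀ a, Nat.card {b // R a b} = M) (h2 : ∀ b, Nat.card {a // R a b} = N) :
    Nat.card α * M = Nat.card β * N := by
  have := Fintype.ofFinite α
  have := Fintype.ofFinite β
  have e : (Σ a : α, {b // R a b}) ≃ Σ b : β, {a // R a b} :=
    { toFun := fun s => ⟨s.2.1, s.1, s.2.2⟩
      invFun := fun s => ⟨s.2.1, s.1, s.2.2⟩
      left_inv := fun s => rfl
      right_inv := fun s => rfl }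
  have h3 := Nat.card_congr e
  rw [Nat.card_sigma, Nat.card_sigma, Finset.sum_congr rfl fun a _ => h1 a,
    Finset.sum_congr rfl fun b _ => h2 b, Finset.sum_const, Finset.sum_const, Finset.card_univ,
    Finset.card_univ, smul_eq_mul, smul_eq_mul] at h3
  rw [Nat.card_eq_fintype_card, Nat.card_eq_fintype_card]
  exact h3

private theorem smul_fix {p : ℕ} {G : Type} [Group G] {X : Type} [MulAction G X] (g : G)
    (D : Sylow p G) (y : X) : (∀ c ∈ g • D, c • y = y) ↔ ∀ c ∈ D, c • g⁻¹ • y = g⁻¹ • y := by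
  constructor
  · intro h c hc
    have h1 : g * c * g⁻¹ ∈ g • D := ⟨c, hc, rfl⟩
    have h2 := h _ h1
    rw [eq_inv_smul_iff, ← mul_smul, ← mul_smul]
    exact h2
  · rintro h _ ⟨c, hc, rfl⟩
    have h1 := h c hc
    rw [eq_inv_smul_iff, ← mul_smul, ← mul_smul] at h1
    exact h1

theorem nu_fix {p : ℕ} {G : Type} [Group G] [Finite G] (hp : p.Prime) (X : Type) [Finite X] [MulAction G X]
    (ht : MulAction.IsPretransitive G X) (C : Sylow p G) (x : X) (hx : ∀ c ∈ C, c • x = x) :
    Nat.card X * nu p G (MulAction.stabilizer G x) = nu p G ⊤ * Nat.card {y : X // ∀ c ∈ C, c • y = y} := by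
  have := Fact.mk hp
  have hfG : Finite (Sylow p G) := fin_syl
  have h0 : nu p G ⊤ = Nat.card (Sylow p G) := by
    unfold nu
    exact Nat.card_congr (Equiv.subtypeUnivEquiv fun D => le_top)
  rw [h0]
  refine card_sig_swap (fun (y : X) (D : Sylow p G) => ∀ c ∈ D, c • y = y) _ _ ?_ ?_
  · intro y
    obtain ⟨g, hg⟩ := MulAction.exists_smul_eq G y x
    unfold nu
    refine Nat.card_congr (Equiv.subtypeEquiv (MulAction.toPerm g) fun D => ?_)
    change _ ↔ ((g • D : Sylow p G) : Subgroup G) ≤ _
    have h1 := smul_fix g D x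
    rw [← hg, inv_smul_smul, hg] at h1
    rw [← h1]
    rfl
  · intro D
    obtain ⟨g, hg⟩ := MulAction.exists_smul_eq G C D
    refine Nat.card_congr (Equiv.subtypeEquiv (MulAction.toPerm g⁻¹) fun y => ?_)
    change _ ↔ ∀ c ∈ C, c • g⁻¹ • y = g⁻¹ • y
    rw [← smul_fix, hg]

end Pool.Agent.HeS
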