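import Pool.Agent.HeS.BdRat
import Pool.Agent.GcS.SbB

/-!
MP_7fa120_al, hereditary families. The pair `(Q, D)`.

The same as `GcS/SupAll.lean` (proved there; copy it) with `bd_rat` instead of `sol_rat`: an orbit `Δ` with `Sb θ (res R Δ)` is done if
`Δ.card ≤ 2 ^ (θ + 1) * (Δ ∩ mv Q).card`; this follows from `2 ^ (θ + 1) * |Fix| ≤ (2 ^ (θ + 1) - 1) * |Δ|`, as `|Δ| - |Fix| ≥ |Δ| / 2 ^ (θ + 1)`.
-/

set_option autoImplicit false

namespace Pool.Agent.HeS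

open Equiv Pool.Agent.NilS Pool.Agent.BdO Pool.Agent.SvS Pool.Agent.GcS

section sylow

variable {G : Type} [Group G] [Finite G]

/-- `C` is a Sylow `p`-subgroup of `K`. -/
private def Syl (p : ℕ) (C K : Subgroup G) : Prop :=
  C ≤ K ∧ IsPGroup p C ∧ ∀ T ≤ K, IsPGroup p T → ∃ u ∈ K, ∀ t ∈ T, u * t * u⁻¹ ∈ C

omit [Finite G] in
private theorem isP_sub {p : ℕ} {T : Subgroup G} (hT : IsPGroup p T) (K : Subgroup G) :
    IsPGroup p (T.subgroupOf K) :=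
  hT.comap_of_injective K.subtype K.subtype_injective

private theorem syl_exists (p : ℕ) [Fact p.Prime] (K T : Subgroup G) (hT : T ≤ K) (hp : IsPGroup p T) :
    ∃ P : Sylow p K, T ≤ (P : Subgroup K).map K.subtype ∧ Syl p ((P : Subgroup K).map K.subtype) K := by
  obtain ⟨P, hP⟩ := (isP_sub hp K).exists_le_sylow
  refine ⟨P, ?_, Subgroup.map_subtype_le _, P.isPGroup'.map _, ?_⟩
  · intro t ht
    exact ⟨⟨t, hT ht⟩, hP (Subgroup.mem_subgroupOf.mpr ht), rfl⟩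
  · intro S hS hSp
    obtain ⟨P', hP'⟩ := (isP_sub hSp K).exists_le_sylow
    obtain ⟨u, hu⟩ := MulAction.exists_smul_eq K P' P
    refine ⟨u, u.2, fun t ht => ?_⟩
    have h1 : (⟨t, hS ht⟩ : K) ∈ (P' : Subgroup K) := hP' (Subgroup.mem_subgroupOf.mpr ht)
    have h2 := Subgroup.smul_mem_pointwise_smul _ (MulAut.conj u) _ h1
    rw [← Sylow.coe_subgroup_smul, hu] at h2
    exact ⟨_, h2, rfl⟩

private theorem syl_sub {p : ℕ} [Fact p.Prime] {C K K₀ : Subgroup G} (hC : Syl p C K) (h1 : C ≤ K₀) (h2 : K₀ ≤ K) :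
    Syl p C K₀ := by
  obtain ⟨P, h3, h4⟩ := syl_exists p K₀ C h1 hC.2.1
  obtain ⟨u, -, hu⟩ := hC.2.2 _ (h4.1.trans h2) h4.2.1
  have h5 : Nat.card ((P : Subgroup K₀).map K₀.subtype) ≤ Nat.card C := by
    refine Nat.card_le_card_of_injective (fun t => ⟨u * t * u⁻¹, hu t t.2⟩) ?_
    intro s t h
    have h6 := congrArg Subtype.val h
    exact Subtype.ext (mul_left_cancel (mul_right_cancel h6))
  have h6 : C = (P : Subgroup K₀).map K₀.subtype := Subgroup.eq_of_le_of_card_ge h3 h5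
  rw [h6]
  exact h4

private theorem norm_of_le {C : Subgroup G} {g : G} (h : ∀ c ∈ C, g * c * g⁻¹ ∈ C) :
    g ∈ Subgroup.normalizer (C : Set G) := by
  have h1 : C.map (MulAut.conj g).toMonoidHom ≤ C := by
    rintro _ ⟨c, hc, rfl⟩
    exact h c hc
  have h2 : C.map (MulAut.conj g).toMonoidHom = C := by
    refine Subgroup.eq_of_le_of_card_ge h1 ?_
    rw [Subgroup.card_map_of_injective (MulAut.conj g).injective]
  rw [Subgroup.mem_normalizer_iff]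
  intro c
  constructor
  · exact h c
  · intro hc
    have h3 : g * c * g⁻¹ ∈ C.map (MulAut.conj g).toMonoidHom := by
      rw [h2]
      exact hc
    obtain ⟨c', hc', he⟩ := h3
    have : c' = c := (MulAut.conj g).injective he
    rwa [← this]

private theorem syl_frat {p : ℕ} {C K : Subgroup G} (hC : Syl p C K) (g : G) (hg : ∀ k ∈ K, g * k * g⁻¹ ∈ K) :
    ∃ u ∈ K, u * g ∈ Subgroup.normalizer (C : Set G) := by
  obtain ⟨u, hu, hu'⟩ := hC.2.2 (C.map (MulAut.conj g).toMonoidHom) (by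
    rintro _ ⟨c, hc, rfl⟩
    exact hg c (hC.1 hc)) (hC.2.1.map _)
  refine ⟨u, hu, norm_of_le fun c hc => ?_⟩
  have h1 := hu' _ ⟨c, hc, rfl⟩
  have h2 : u * g * c * (u * g)⁻¹ = u * (g * c * g⁻¹) * u⁻¹ := by group
  rw [h2]
  exact h1

private theorem join_odd {p : ℕ} [Fact p.Prime] (hp2 : p ≠ 2) {Q C : Subgroup G}
    (hn : ∀ c ∈ C, ∀ q ∈ Q, c * q * c⁻¹ ∈ Q) (hQ : Odd (Nat.card Q)) (hs : Group.IsSolvable Q)
    (hC : IsPGroup p C) :
    Odd (Nat.card (Q ⊔ C : Subgroup G)) ∧ Group.IsSolvable (Q ⊔ C : Subgroup G) := by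
  have hp : p.Prime := Fact.out
  have hle : Q ⊔ C ≤ Subgroup.normalizer (Q : Set G) :=
    sup_le Subgroup.le_normalizer fun c hc => norm_of_le (hn c hc)
  have hnorm : (Q.subgroupOf (Q ⊔ C)).Normal :=
    (Subgroup.normal_subgroupOf_iff_le_normalizer le_sup_left).2 hle
  set π := QuotientGroup.mk' (Q.subgroupOf (Q ⊔ C)) with hπ
  have h1 : (C.subgroupOf (Q ⊔ C)).map π = ⊤ := by
    have h2 : Q.subgroupOf (Q ⊔ C) ⊔ C.subgroupOf (Q ⊔ C) = ⊤ := by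
      rw [← Subgroup.subgroupOf_sup le_sup_left le_sup_right, Subgroup.subgroupOf_self]
    have h3 := congrArg (Subgroup.map π) h2
    rw [Subgroup.map_sup, hπ, QuotientGroup.map_mk'_self, bot_sup_eq] at h3
    rw [hπ, h3, ← MonoidHom.range_eq_map, MonoidHom.range_eq_top]
    exact QuotientGroup.mk'_surjective _
  have h4 : IsPGroup p (↥(Q ⊔ C) ⧸ Q.subgroupOf (Q ⊔ C)) := by
    have h5 : IsPGroup p ((C.subgroupOf (Q ⊔ C)).map π) := (isP_sub hC _).map π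
    rw [h1] at h5
    exact h5.of_equiv Subgroup.topEquiv
  obtain ⟨k, hk⟩ := IsPGroup.exists_card_eq h4
  have h6 : Nat.card (Q.subgroupOf (Q ⊔ C)) = Nat.card Q :=
    Nat.card_congr (Subgroup.subgroupOfEquivOfLe le_sup_left).toEquiv
  constructor
  · have h7 := (Q.subgroupOf (Q ⊔ C)).card_mul_index
    rw [h6] at h7
    rw [← h7]
    refine hQ.mul ?_
    have h8 : (Q.subgroupOf (Q ⊔ C)).index = p ^ k := hk
    rw [h8]
    exact (hp.odd_of_ne_two hp2).pow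
  · have h7 : Group.IsSolvable (↥(Q ⊔ C) ⧸ Q.subgroupOf (Q ⊔ C)) := by
      have := h4.isNilpotent
      infer_instance
    have h8 : Group.IsSolvable (Q.subgroupOf (Q ⊔ C)) :=
      Group.isSolvable_of_isSolvable_injective (f := (Subgroup.subgroupOfEquivOfLe
        (le_sup_left : Q ≤ Q ⊔ C)).toMonoidHom) (Subgroup.subgroupOfEquivOfLe _).injective
    exact Group.isSolvable_of_ker_le_range (Q.subgroupOf (Q ⊔ C)).subtype π (by
      rw [hπ, QuotientGroup.ker_mk', Subgroup.range_subtype])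

end sylow

/-- The orbit `Δ` is done. -/
private def Done {n : ℕ} (θ : ℕ) (R Q : Subgroup (Perm (Fin n))) (Δ : Finset (Fin n)) : Prop :=
  (∃ x ∈ Δ, x ∈ mv Q) ∧ (Sb θ (res R Δ) → Δ.card ≤ 2 ^ (θ + 1) * (Δ ∩ mv Q).card)

private theorem mv_mono {n : ℕ} {Q Q' : Subgroup (Perm (Fin n))} (h : Q ≤ Q') : mv Q ⊆ mv Q' := by
  intro x hx
  obtain ⟨q, hq, hqx⟩ := mem_mv.1 hx
  exact mem_mv.2 ⟨q, h hq, hqx⟩

private theorem done_mono {n θ : ℕ} {R Q Q' : Subgroup (Perm (Fin n))} (h : Q ≤ Q') {Δ : Finset (Fin n)}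
    (hd : Done θ R Q Δ) : Done θ R Q' Δ := by
  obtain ⟨⟨x, hx, hxQ⟩, h2⟩ := hd
  refine ⟨⟨x, hx, mv_mono h hxQ⟩, fun hs => (h2 hs).trans ?_⟩
  exact Nat.mul_le_mul_left _ (Finset.card_le_card (Finset.inter_subset_inter_left (mv_mono h)))

private theorem done_of_moves {n θ : ℕ} {R K : Subgroup (Perm (Fin n))} (hKR : K ≤ R) {Δ : Finset (Fin n)}
    (hΔ : Orb R Δ) (hres : ∀ r ∈ R, ∃ k ∈ K, ∀ x ∈ Δ, k x = r x) {p : ℕ} (hp : p.Prime) (P : Sylow p K)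
    (hm : ∃ c ∈ (P : Subgroup K).map K.subtype, ∃ x ∈ Δ, c x ≠ x) {Q' : Subgroup (Perm (Fin n))}
    (hQ' : (P : Subgroup K).map K.subtype ≤ Q') : Done θ R Q' Δ := by
  classical
  obtain ⟨c, hc, x, hx, hcx⟩ := hm
  refine ⟨⟨x, hx, mem_mv.2 ⟨c, hQ' hc, hcx⟩⟩, fun hs => ?_⟩
  let _ : MulAction K {x : Fin n // x ∈ Δ} :=
    { smul := fun g x => ⟨g.1 x.1, hΔ.1 g.1 (hKR g.2) x.1 x.2⟩
      one_smul := fun x => rfl
      mul_smul := fun g h x => rfl }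
  have hsm : ∀ (g : K) (x : {x : Fin n // x ∈ Δ}), ((g • x : {x : Fin n // x ∈ Δ}) : Fin n) = g.1 x.1 :=
    fun _ _ => rfl
  have ht : MulAction.IsPretransitive K {x : Fin n // x ∈ Δ} := by
    refine ⟨fun x y => ?_⟩
    obtain ⟨r, hr, hrx⟩ := hΔ.2.2 x.1 x.2 y.1 y.2
    obtain ⟨k, hk, hkx⟩ := hres r hr
    exact ⟨⟨k, hk⟩, Subtype.ext ((hkx x.1 x.2).trans hrx)⟩
  have hsol : Sb θ (MulAction.toPermHom K {x : Fin n // x ∈ Δ}).range := by
    let f : (MulAction.toPermHom K {x : Fin n // x ∈ Δ}).range →* Perm (Fin n) :=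
      (Perm.ofSubtype : Perm {x : Fin n // x ∈ Δ} →* Perm (Fin n)).comp
        (MulAction.toPermHom K {x : Fin n // x ∈ Δ}).range.subtype
    have hf : Function.Injective f := by
      intro σ τ h
      exact Subtype.ext (Perm.ofSubtype_injective h)
    have h1 : f.range ≤ res R Δ := by
      rintro _ ⟨⟨_, g, rfl⟩, rfl⟩
      refine ⟨fun x hx => Perm.ofSubtype_apply_of_not_mem _ hx, g.1, hKR g.2, fun x hx => ?_⟩
      exact Perm.ofSubtype_apply_of_mem _ hx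
    exact sb_iso (MonoidHom.ofInjective hf).symm (sb_le h1 hs)
  have h1 := bd_rat K {x : Fin n // x ∈ Δ} ht θ hsol p hp P ?_
  · have h2 : Nat.card {x : Fin n // x ∈ Δ} = Δ.card := by simp
    rw [h2] at h1
    have h3 : (Δ.filter fun x => x ∉ mv Q').card ≤
        Nat.card {x : {x : Fin n // x ∈ Δ} // ∀ c ∈ P, c • x = x} := by
      have h4 : Nat.card {x : Fin n // x ∈ Δ.filter fun x => x ∉ mv Q'} = (Δ.filter fun x => x ∉ mv Q').card := by
        rw [Nat.card_eq_fintype_card, Fintype.card_coe]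
      rw [← h4]
      refine Nat.card_le_card_of_injective (fun x => ⟨⟨x.1, (Finset.mem_filter.1 x.2).1⟩, fun c hc => ?_⟩) ?_
      · refine Subtype.ext ?_
        by_contra hne
        exact (Finset.mem_filter.1 x.2).2 (mem_mv.2 ⟨c.1, hQ' ⟨c, hc, rfl⟩, hne⟩)
      · intro x y h
        have h5 := congrArg (fun z => z.1.1) h
        exact Subtype.ext h5
    have h5 : (Δ.filter fun x => x ∉ mv Q').card + (Δ ∩ mv Q').card = Δ.card := by
      rw [add_comm, ← Finset.filter_mem_eq_inter]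
      exact Finset.card_filter_add_card_filter_not (fun x => x ∈ mv Q')
    obtain ⟨c, hc⟩ : ∃ c, 2 ^ (θ + 1) = c + 1 := ⟨2 ^ (θ + 1) - 1, by have := Nat.two_pow_pos (θ + 1); omega⟩
    rw [hc] at h1 ⊢
    rw [Nat.add_sub_cancel] at h1
    nlinarith
  · obtain ⟨c', hc', rfl⟩ := hc
    exact ⟨c', hc', ⟨x, hx⟩, fun h => hcx (congrArg Subtype.val h)⟩

private theorem hc_le {n : ℕ} {Hh : Subgroup (Perm (Fin n))} : oddGen Hh ≤ Hh := by
  unfold oddGen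
  rw [Subgroup.closure_le]
  exact fun g hg => hg.1

private theorem hc_conj {n : ℕ} {Hh : Subgroup (Perm (Fin n))} :
    ∀ h ∈ Hh, ∀ r ∈ oddGen Hh, h * r * h⁻¹ ∈ oddGen Hh := by
  intro h hh
  have h1 : oddGen Hh ≤ (oddGen Hh).comap (MulAut.conj h).toMonoidHom := by
    conv_lhs => unfold oddGen
    rw [Subgroup.closure_le]
    rintro x ⟨hx, r, j, hr, hr2, ho⟩
    refine Subgroup.subset_closure ⟨mul_mem (mul_mem hh hx) (inv_mem hh), r, j, hr, hr2, ?_⟩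
    rw [← ho]
    exact MulEquiv.orderOf_eq (MulAut.conj h) x
  exact fun r hr => h1 hr

/-- The pairs `(Q, N)`. -/
private structure Pr {n : ℕ} (θ : ℕ) (Hh Q N : Subgroup (Perm (Fin n))) : Prop where
  NH : N ≤ Hh
  QR : Q ≤ oddGen Hh
  odd : Odd (Nat.card Q)
  sol : Group.IsSolvable Q
  nz : Nz N Q
  sup : oddGen Hh ⊔ N = Hh
  orb : ∀ Δ : Finset (Fin n), Orb (oddGen Hh) Δ →
    Done θ (oddGen Hh) Q Δ ∨ ∀ r ∈ oddGen Hh, ∃ k ∈ N ⊓ oddGen Hh, ∀ x ∈ Δ, k x = r x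

/-- An element of odd prime power order of `N ⊓ R` which moves a point of `Δ`. -/
private theorem exists_elt {n : ℕ} {Hh K : Subgroup (Perm (Fin n))}
    {Δ : Finset (Fin n)} (hΔ : Orb (oddGen Hh) Δ) (h2 : 2 ≤ Δ.card)
    (hres : ∀ r ∈ oddGen Hh, ∃ k ∈ K, ∀ x ∈ Δ, k x = r x) :
    ∃ p : ℕ, p.Prime ∧ p ≠ 2 ∧ ∃ k ∈ K, (∃ a, orderOf k = p ^ a) ∧ ∃ x ∈ Δ, k x ≠ x := by
  obtain ⟨g, hgH, ⟨p, j, hp, hp2, hgo⟩, x, hx, hgx⟩ : ∃ g ∈ Hh, Opp g ∧ ∃ x ∈ Δ, g x ≠ x := by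
    by_contra hcon
    push Not at hcon
    have h3 : ∀ g ∈ oddGen Hh, ∀ x ∈ Δ, g x = x := by
      intro g hg
      unfold oddGen at hg
      induction hg using Subgroup.closure_induction with
      | mem g hg => exact hcon g hg.1 hg.2
      | one => intro x _; rfl
      | mul g h _ _ ih1 ih2 =>
        intro x hx
        rw [Perm.mul_apply, ih2 x hx, ih1 x hx]
      | inv g _ ih =>
        intro x hx
        rw [Perm.inv_eq_iff_eq]
        exact (ih x hx).symm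
    obtain ⟨x, hx, y, hy, hxy⟩ := Finset.one_lt_card.1 h2
    obtain ⟨r, hr, hrx⟩ := hΔ.2.2 x hx y hy
    exact hxy ((h3 r hr x hx).symm.trans hrx)
  have hgR : g ∈ oddGen Hh := Subgroup.subset_closure ⟨hgH, p, j, hp, hp2, hgo⟩
  obtain ⟨k, hk, hkg⟩ := hres g hgR
  have hpow : ∀ i : ℕ, ∀ x ∈ Δ, (k ^ i) x = (g ^ i) x ∧ (g ^ i) x ∈ Δ := by
    intro i
    induction i with
    | zero => intro x hx; exact ⟨rfl, hx⟩
    | succ i ih =>
      intro x hx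
      obtain ⟨h1, h3⟩ := ih x hx
      rw [pow_succ', pow_succ', Perm.mul_apply, Perm.mul_apply, h1, hkg _ h3]
      exact ⟨rfl, hΔ.1 g hgR _ h3⟩
  obtain ⟨a, m, hm, hkm⟩ := Nat.exists_eq_pow_mul_and_not_dvd (isOfFinOrder_of_finite k).orderOf_pos.ne' p
    hp.ne_one
  have hm0 : m ≠ 0 := by
    rintro rfl
    exact hm (dvd_zero p)
  refine ⟨p, hp, hp2, k ^ m, pow_mem hk m, ⟨a, ?_⟩, x, hx, fun hfix => hgx ?_⟩
  · rw [orderOf_pow_of_dvd hm0 (by rw [hkm]; exact dvd_mul_left m _), hkm,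
      Nat.mul_div_cancel _ (Nat.pos_of_ne_zero hm0)]
  · rw [(hpow m x hx).1] at hfix
    have hco : (m : ℤ).gcd (p ^ j : ℕ) = 1 := by
      rw [Int.gcd_natCast_natCast]
      exact Nat.Coprime.pow_right j (((Nat.Prime.coprime_iff_not_dvd hp).2 hm).symm)
    have h3 : g = (g ^ m) ^ (Int.gcdA m (p ^ j : ℕ)) * (g ^ (p ^ j)) ^ (Int.gcdB m (p ^ j : ℕ)) := by
      have h4 := Int.gcd_eq_gcd_ab m (p ^ j : ℕ)
      rw [hco] at h4
      rw [← zpow_natCast, ← zpow_natCast, ← zpow_mul, ← zpow_mul, ← zpow_add, ← h4]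
      simp
    have h5 : g ^ (p ^ j) = 1 := by
      rw [← hgo]
      exact pow_orderOf_eq_one g
    rw [h5, one_zpow, mul_one] at h3
    have h6 : (g ^ m) ∈ MulAction.stabilizer (Perm (Fin n)) x := hfix
    have h7 := (MulAction.stabilizer (Perm (Fin n)) x).zpow_mem h6 (Int.gcdA m (p ^ j : ℕ))
    rw [← h3] at h7
    exact h7

private theorem pr_step {n θ : ℕ} {Hh Q N : Subgroup (Perm (Fin n))} (h : Pr θ Hh Q N) {Δ : Finset (Fin n)}
    (hΔ : Orb (oddGen Hh) Δ) (h2 : 2 ≤ Δ.card) (hnd : ¬ Done θ (oddGen Hh) Q Δ) :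
    ∃ Q' N', Pr θ Hh Q' N' ∧ Q ≤ Q' ∧ Done θ (oddGen Hh) Q' Δ := by
  have hres : ∀ r ∈ oddGen Hh, ∃ k ∈ N ⊓ oddGen Hh, ∀ x ∈ Δ, k x = r x := by
    rcases h.orb Δ hΔ with h3 | h3
    · exact absurd h3 hnd
    · exact h3
  obtain ⟨p, hp, hp2, k, hk, ⟨a, hka⟩, x, hx, hkx⟩ := exists_elt hΔ h2 hres
  have : Fact p.Prime := ⟨hp⟩
  set R := oddGen Hh with hR
  have hRH : R ≤ Hh := hc_le
  have hconj : ∀ h ∈ Hh, ∀ r ∈ R, h * r * h⁻¹ ∈ R := hc_conj
  obtain ⟨P, hTP, hS⟩ := syl_exists p (N ⊓ R) (Subgroup.zpowers k) (Subgroup.zpowers_le.2 hk)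
    (IsPGroup.of_card (n := a) (by rw [Nat.card_zpowers, hka]))
  set C := (P : Subgroup ↥(N ⊓ R)).map (N ⊓ R).subtype with hC
  have hkC : k ∈ C := hTP (Subgroup.mem_zpowers k)
  have hCN : C ≤ N := hS.1.trans inf_le_left
  have hCR : C ≤ R := hS.1.trans inf_le_right
  have hnc : ∀ g ∈ N, ∀ k ∈ N ⊓ R, g * k * g⁻¹ ∈ N ⊓ R := fun g hg k hk =>
    ⟨N.mul_mem (N.mul_mem hg hk.1) (N.inv_mem hg), hconj g (h.NH hg) k hk.2⟩
  obtain ⟨hodd, hsol⟩ := join_odd hp2 (fun c hc q hq => h.nz c (hCN hc) q hq) h.odd h.sol hS.2.1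
  refine ⟨Q ⊔ C, N ⊓ Subgroup.normalizer (C : Set (Perm (Fin n))), ⟨inf_le_left.trans h.NH,
    sup_le h.QR hCR, hodd, hsol, ?_, ?_, ?_⟩, le_sup_left, ?_⟩
  · intro l hl
    have h3 : Q ⊔ C ≤ (Q ⊔ C).comap (MulAut.conj l).toMonoidHom := by
      refine sup_le ?_ ?_
      · intro q hq
        exact Subgroup.mem_sup_left (h.nz l hl.1 q hq)
      · intro c hc
        exact Subgroup.mem_sup_right ((Subgroup.mem_normalizer_iff.1 hl.2 c).1 hc)
    exact fun o ho => h3 ho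
  · refine le_antisymm (sup_le hRH (inf_le_left.trans h.NH)) ?_
    conv_lhs => rw [← h.sup]
    refine sup_le le_sup_left fun g hg => ?_
    obtain ⟨u, hu, hug⟩ := syl_frat hS g (hnc g hg)
    have h3 : g = u⁻¹ * (u * g) := by group
    rw [h3]
    exact mul_mem (Subgroup.mem_sup_left (inv_mem hu.2))
      (Subgroup.mem_sup_right ⟨mul_mem hu.1 hg, hug⟩)
  · intro Δ' hΔ'
    rcases h.orb Δ' hΔ' with h3 | h3
    · exact Or.inl (done_mono le_sup_left h3)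
    · by_cases hm : ∃ c ∈ C, ∃ x ∈ Δ', c x ≠ x
      · exact Or.inl (done_of_moves inf_le_right hΔ' h3 hp P hm le_sup_right)
      · push Not at hm
        right
        -- the kernel on `Δ'`
        let K₀ : Subgroup (Perm (Fin n)) :=
          { carrier := {g | g ∈ N ⊓ R ∧ ∀ x ∈ Δ', g x = x}
            mul_mem' := fun {g h} hg hh => ⟨mul_mem hg.1 hh.1, fun x hx => by
              rw [Perm.mul_apply, hh.2 x hx, hg.2 x hx]⟩
            one_mem' := ⟨one_mem _, fun x _ => rfl⟩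
            inv_mem' := fun {g} hg => ⟨inv_mem hg.1, fun x hx => by
              rw [Perm.inv_eq_iff_eq]
              exact (hg.2 x hx).symm⟩ }
        have hK₀ : K₀ ≤ N ⊓ R := fun g hg => hg.1
        have hS₀ : Syl p C K₀ := syl_sub hS (fun c hc => ⟨hS.1 hc, fun x hx => hm c hc x hx⟩) hK₀
        intro r hr
        obtain ⟨g, hg, hgr⟩ := h3 r hr
        obtain ⟨u, hu, hug⟩ := syl_frat hS₀ g (fun k hk => by
          refine ⟨hnc g hg.1 k hk.1, fun x hx => ?_⟩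
          have h4 : g⁻¹ x ∈ Δ' := hΔ'.1 g⁻¹ (inv_mem hg.2) x hx
          rw [Perm.mul_apply, Perm.mul_apply, hk.2 _ h4]
          exact g.apply_symm_apply x)
        refine ⟨u * g, ⟨⟨mul_mem hu.1.1 hg.1, hug⟩, mul_mem hu.1.2 hg.2⟩, fun x hx => ?_⟩
        rw [Perm.mul_apply, hu.2 _ (hΔ'.1 g hg.2 x hx), hgr x hx]
  · exact done_of_moves inf_le_right hΔ hres hp P ⟨k, hkC, x, hx, hkx⟩ le_sup_right

private theorem pr_iter {n θ : ℕ} {Hh : Subgroup (Perm (Fin n))} (m : ℕ) : ∀ Q N : Subgroup (Perm (Fin n)),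
    Pr θ Hh Q N → Nat.card {Δ : Finset (Fin n) // Orb (oddGen Hh) Δ ∧ 2 ≤ Δ.card ∧ ¬ Done θ (oddGen Hh) Q Δ} ≤ m →
    ∃ Q' N', Pr θ Hh Q' N' ∧ ∀ Δ : Finset (Fin n), Orb (oddGen Hh) Δ → 2 ≤ Δ.card → Done θ (oddGen Hh) Q' Δ := by
  induction m with
  | zero =>
    intro Q N h hc
    refine ⟨Q, N, h, fun Δ hΔ h2 => ?_⟩
    by_contra hnd
    have h1 : 0 < Nat.card {Δ : Finset (Fin n) // Orb (oddGen Hh) Δ ∧ 2 ≤ Δ.card ∧ ¬ Done θ (oddGen Hh) Q Δ} := by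
      have : Nonempty {Δ : Finset (Fin n) // Orb (oddGen Hh) Δ ∧ 2 ≤ Δ.card ∧ ¬ Done θ (oddGen Hh) Q Δ} :=
        ⟨⟨Δ, hΔ, h2, hnd⟩⟩
      exact Nat.card_pos
    omega
  | succ m ih =>
    intro Q N h hc
    by_cases hall : ∀ Δ : Finset (Fin n), Orb (oddGen Hh) Δ → 2 ≤ Δ.card → Done θ (oddGen Hh) Q Δ
    · exact ⟨Q, N, h, hall⟩
    · push Not at hall
      obtain ⟨Δ, hΔ, h2, hnd⟩ := hall
      obtain ⟨Q', N', h', hQQ', hd⟩ := pr_step h hΔ h2 hnd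
      refine ih Q' N' h' (Nat.lt_succ_iff.1 (lt_of_lt_of_le ?_ hc))
      let f : {Δ : Finset (Fin n) // Orb (oddGen Hh) Δ ∧ 2 ≤ Δ.card ∧ ¬ Done θ (oddGen Hh) Q' Δ} →
          {Δ : Finset (Fin n) // Orb (oddGen Hh) Δ ∧ 2 ≤ Δ.card ∧ ¬ Done θ (oddGen Hh) Q Δ} :=
        fun E => ⟨E.1, E.2.1, E.2.2.1, fun hE => E.2.2.2 (done_mono hQQ' hE)⟩
      have hf : Function.Injective f := by
        intro E E' hE
        exact Subtype.ext (congrArg (fun z => z.1) hE)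
      classical
      rw [Nat.card_eq_fintype_card, Nat.card_eq_fintype_card]
      refine Fintype.card_lt_of_injective_of_notMem f hf (b := ⟨Δ, hΔ, h2, hnd⟩) ?_
      rintro ⟨E, hE⟩
      have h3 : E.1 = Δ := congrArg (fun z => z.1) hE
      exact E.2.2.2 (h3.symm ▸ hd)

private theorem two_or' {m : ℕ} (hm : m ≠ 0) (h : ∀ p : ℕ, p.Prime → p ∣ m → p = 2) :
    ∃ k : ℕ, m = 2 ^ k :=
  ⟨_, Nat.eq_prime_pow_of_unique_prime_dvd hm fun {d} hd hdm => h d hd hdm⟩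

private theorem quot_two' {G : Type} [Group G] [Finite G] (N : Subgroup G) [N.Normal]
    (hN : ∀ g : G, Opp g → g ∈ N) : ∃ k : ℕ, Nat.card (G ⧸ N) = 2 ^ k := by
  refine two_or' Nat.card_pos.ne' fun p hp hdvd => ?_
  by_contra hp2
  have : Fact p.Prime := ⟨hp⟩
  obtain ⟨x, hx⟩ := exists_prime_orderOf_dvd_card' p hdvd
  obtain ⟨g, rfl⟩ := QuotientGroup.mk_surjective x
  obtain ⟨a, m, hm, hgm⟩ := Nat.exists_eq_pow_mul_and_not_dvd (isOfFinOrder_of_finite g).orderOf_pos.ne' p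
    hp.ne_one
  have hm0 : m ≠ 0 := by
    rintro rfl
    exact hm (dvd_zero p)
  have h1 : orderOf (g ^ m) = p ^ a := by
    rw [orderOf_pow_of_dvd hm0 (by rw [hgm]; exact dvd_mul_left m _), hgm,
      Nat.mul_div_cancel _ (Nat.pos_of_ne_zero hm0)]
  have h2 : g ^ m ∈ N := hN _ ⟨p, a, hp, hp2, h1⟩
  have h3 : ((g : G ⧸ N)) ^ m = 1 := by
    rw [← QuotientGroup.mk_pow]
    exact (QuotientGroup.eq_one_iff _).mpr h2
  rw [← orderOf_dvd_iff_pow_eq_one, hx] at h3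
  exact hm h3

/-- A Sylow 2-subgroup of `N`. -/
private theorem two_top {G : Type} [Group G] [Finite G] {R N : Subgroup G}
    (hR : ∀ g ∈ N, ∀ r ∈ R, g * r * g⁻¹ ∈ R) (hN : ∀ g ∈ N, Opp g → g ∈ R) :
    ∃ D : Subgroup G, D ≤ N ∧ (∃ k : ℕ, Nat.card D = 2 ^ k) ∧ N ≤ R ⊔ D := by
  have hnorm : (R.subgroupOf N).Normal := by
    constructor
    intro r hr g
    exact Subgroup.mem_subgroupOf.mpr (hR g g.2 r (Subgroup.mem_subgroupOf.mp hr))
  obtain ⟨k, hk⟩ := quot_two' (R.subgroupOf N) (by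
    rintro ⟨g, hg⟩ ⟨r, j, hr, hr2, ho⟩
    refine Subgroup.mem_subgroupOf.mpr (hN g hg ⟨r, j, hr, hr2, ?_⟩)
    rw [← ho, Subgroup.orderOf_mk])
  have hQ2 : IsPGroup 2 (N ⧸ R.subgroupOf N) := IsPGroup.of_card hk
  obtain ⟨D0⟩ : Nonempty (Sylow 2 N) := inferInstance
  refine ⟨(D0 : Subgroup N).map N.subtype, Subgroup.map_subtype_le _, ?_, ?_⟩
  · rw [Subgroup.card_map_of_injective (Subgroup.subtype_injective N)]
    exact IsPGroup.exists_card_eq D0.isPGroup'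
  · have h2 : (D0 : Subgroup N).map (QuotientGroup.mk' (R.subgroupOf N)) = ⊤ := by
      have h3 := (D0.mapSurjective (QuotientGroup.mk'_surjective (R.subgroupOf N))).is_maximal'
        (hQ2.to_subgroup ⊤) le_top
      rw [h3]
      rfl
    intro g hg
    have h3 : (QuotientGroup.mk' (R.subgroupOf N) ⟨g, hg⟩) ∈
        (D0 : Subgroup N).map (QuotientGroup.mk' (R.subgroupOf N)) := by
      rw [h2]
      exact Subgroup.mem_top _
    obtain ⟨d, hd, hdg⟩ := Subgroup.mem_map.mp h3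
    have h4 : d⁻¹ * ⟨g, hg⟩ ∈ R.subgroupOf N := QuotientGroup.eq.mp hdg
    have h5 : g = (d : G) * ((d : G)⁻¹ * g) := by group
    rw [h5]
    exact mul_mem (Subgroup.mem_sup_right ⟨d, hd, rfl⟩)
      (Subgroup.mem_sup_left (Subgroup.mem_subgroupOf.mp h4))

theorem sup_t {n θ : ℕ} (H : Subgroup (Perm (Fin n))) :
    ∃ Q D : Subgroup (Perm (Fin n)), Q ≤ oddGen H ∧ Odd (Nat.card Q) ∧ Group.IsSolvable Q ∧ Two D ∧ Nz D Q ∧
      oddGen H ⊔ D = H ∧ ∀ Δ : Finset (Fin n), Orb (oddGen H) Δ → 2 ≤ Δ.card →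
        (∃ x ∈ Δ, x ∈ mv Q) ∧ (Sb θ (res (oddGen H) Δ) → Δ.card ≤ 2 ^ (θ + 1) * (Δ ∩ mv Q).card) := by
  have h0 : Pr θ H ⊥ H := by
    refine ⟨le_rfl, bot_le, ?_, inferInstance, ?_, sup_eq_right.2 hc_le, fun Δ _ => Or.inr fun r hr =>
      ⟨r, ⟨hc_le hr, hr⟩, fun _ _ => rfl⟩⟩
    · rw [Subgroup.card_bot]
      exact odd_one
    · intro l _ o ho
      rw [Subgroup.mem_bot] at ho ⊢
      rw [ho, mul_one, mul_inv_cancel]
  obtain ⟨Q, N, h, hd⟩ := pr_iter _ ⊥ H h0 le_rfl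
  obtain ⟨D, hDN, hD2, hND⟩ := two_top (R := oddGen H) (N := N) (fun g hg r hr => hc_conj g (h.NH hg) r hr)
    (fun g hg ho => Subgroup.subset_closure ⟨h.NH hg, ho⟩)
  refine ⟨Q, D, h.QR, h.odd, h.sol, hD2, fun l hl o ho => h.nz l (hDN hl) o ho, ?_, fun Δ hΔ h2 => hd Δ hΔ h2⟩
  refine le_antisymm (sup_le hc_le (hDN.trans h.NH)) ?_
  conv_lhs => rw [← h.sup]
  exact sup_le le_sup_left hND

/-- For the class `GcT ℓ θ`, sum over the orbits. -/
theorem sup_gct {n ℓ θ : ℕ} (H : Subgroup (Perm (Fin n))) (h : GcT ℓ θ H) :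
    ∃ Q D : Subgroup (Perm (Fin n)), Q ≤ oddGen H ∧ Odd (Nat.card Q) ∧ Group.IsSolvable Q ∧ Two D ∧ Nz D Q ∧
      oddGen H ⊔ D = H ∧ (mv (oddGen H)).card ≤ (ℓ + 2 ^ (θ + 1)) * (mv Q).card := by
  classical
  obtain ⟨Q, D, h1, h2, h3, h4, h5, h6, h7⟩ := sup_t (θ := θ) H
  refine ⟨Q, D, h1, h2, h3, h4, h5, h6, ?_⟩
  set R := oddGen H with hR
  let O : Fin n → Finset (Fin n) := fun y => Finset.univ.filter fun z => ∃ g ∈ R, g y = z
  have hO : ∀ y z, z ∈ O y ↔ ∃ g ∈ R, g y = z := by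
    intro y z
    simp [O]
  have hself : ∀ y, y ∈ O y := fun y => (hO y y).2 ⟨1, one_mem _, rfl⟩
  have heq : ∀ x y, y ∈ O x → O y = O x := by
    intro x y hy
    obtain ⟨g, hg, rfl⟩ := (hO x y).1 hy
    ext z
    rw [hO, hO]
    constructor
    · rintro ⟨k, hk, rfl⟩
      exact ⟨k * g, mul_mem hk hg, rfl⟩
    · rintro ⟨k, hk, rfl⟩
      exact ⟨k * g⁻¹, mul_mem hk (inv_mem hg), by rw [Perm.mul_apply]; exact congrArg k (g.symm_apply_apply x)⟩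
  have hOrb : ∀ x, Orb R (O x) := by
    intro x
    refine ⟨?_, ⟨x, hself x⟩, ?_⟩
    · intro g hg y hy
      obtain ⟨k, hk, rfl⟩ := (hO x y).1 hy
      exact (hO x _).2 ⟨g * k, mul_mem hg hk, rfl⟩
    · intro y hy z hz
      rw [← heq x y hy] at hz
      exact (hO y z).1 hz
  have hmain : ∀ x ∈ mv R, (O x).card ≤ (ℓ + 2 ^ (θ + 1)) * (O x ∩ mv Q).card := by
    intro x hx
    obtain ⟨r, hr, hrx⟩ := mem_mv.1 hx
    have hc : 2 ≤ (O x).card := Finset.one_lt_card.2 ⟨x, hself x, r x, (hO x _).2 ⟨r, hr, rfl⟩, fun he => hrx he.symm⟩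
    obtain ⟨⟨y, hy, hyQ⟩, h8⟩ := h7 (O x) (hOrb x) hc
    have h9 : 1 ≤ (O x ∩ mv Q).card := Finset.card_pos.2 ⟨y, Finset.mem_inter.2 ⟨hy, hyQ⟩⟩
    by_cases hl : ℓ < (O x).card
    · exact (h8 (h (O x) (hOrb x) hl)).trans (Nat.mul_le_mul_right _ (Nat.le_add_left _ _))
    · calc (O x).card ≤ ℓ * 1 := by omega
        _ ≤ (ℓ + 2 ^ (θ + 1)) * (O x ∩ mv Q).card := Nat.mul_le_mul (Nat.le_add_right _ _) h9
  have hmv : mv Q ⊆ mv R := mv_mono h1
  rw [Finset.card_eq_sum_card_fiberwise (f := O) (s := mv R)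
      (t := Finset.univ) (fun _ _ => Finset.mem_coe.mpr (Finset.mem_univ _)),
      Finset.card_eq_sum_card_fiberwise (f := O) (s := mv Q)
      (t := Finset.univ) (fun _ _ => Finset.mem_coe.mpr (Finset.mem_univ _)), Finset.mul_sum]
  refine Finset.sum_le_sum fun Γ _ => ?_
  by_cases hemp : ((mv R).filter fun y => O y = Γ) = ∅
  · rw [hemp, Finset.card_empty]
    exact Nat.zero_le _
  · obtain ⟨x, hx⟩ := Finset.nonempty_iff_ne_empty.mpr hemp
    rw [Finset.mem_filter] at hx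
    obtain ⟨hxR, rfl⟩ := hx
    have e1 : ((mv R).filter fun y => O y = O x) ⊆ O x := by
      intro y hy
      rw [Finset.mem_filter] at hy
      rw [← hy.2]
      exact hself y
    have e2 : O x ∩ mv Q ⊆ (mv Q).filter fun y => O y = O x := by
      intro y hy
      rw [Finset.mem_inter] at hy
      exact Finset.mem_filter.2 ⟨hy.2, heq x y hy.1⟩
    calc ((mv R).filter fun y => O y = O x).card ≤ (O x).card := Finset.card_le_card e1
      _ ≤ (ℓ + 2 ^ (θ + 1)) * (O x ∩ mv Q).card := hmain x hxR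
      _ ≤ _ := Nat.mul_le_mul_left _ (Finset.card_le_card e2)

end Pool.Agent.HeS
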